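import Pool.Agent.Run7.h752.SC.Xtr
import Pool.Agent.R772.Min2

/-!
# Extremal closed currents on the degenerate set (helper752)
-/

set_option autoImplicit false

open Set Filter Topology MeasureTheory
open scoped Manifold ContDiff ENNReal NNReal

noncomputable section

namespace Run7.h752.SC

open Pool.Agent.Y501.SY Pool.Agent.R772

variable {d m : ℕ} {X : Type} [TopologicalSpace X] [ChartedSpace (E d) X]
  [IsManifold (𝓡 d) ∞ X]

/-- the continuous functions which closed currents annihilate -/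
def NN (vol : Pool.Agent.R772.Top d m X) (σ : Form d X 2) : Set C(X, ℝ) :=
  {f | (∀ x, f x = md vol σ σ x) ∨ ∃ ρ : Form d X 2, ExactF ρ ∧ ∀ x, f x = md vol σ ρ x}

omit [IsManifold (𝓡 d) ∞ X] in
theorem md_self (vol : Pool.Agent.R772.Top d m X) (σ : Form d X 2) (x : X) :
    md vol σ σ x = td vol σ x := by
  unfold md td
  congr 1
  funext i
  refine Fin.cases rfl (fun i => rfl) i

theorem isNull_iff [CompactSpace X] [T2Space X] [MeasurableSpace X] [BorelSpace X]
    (hd : d = 2 * (m + 1)) {vol : Pool.Agent.R772.Top d m X} (hvol : IsVol vol) {σ : Form d X 2}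
    (hσ : IsSmooth σ) (hnn : ∀ x, NonnegTop vol σ x) (μ : Measure X) :
    IsNull (NN vol σ) μ ↔ IsCurr vol σ μ := by
  have hc : Continuous (md vol σ σ) := md_cont hd hvol hσ hσ
  have h0 : ∀ x, 0 ≤ md vol σ σ x := by
    intro x
    rw [md_self]
    by_cases hx : PosTop vol σ x
    · exact ((posTop_iff hd hvol σ x).1 hx).le
    · exact (td_zero hd hvol (hnn x) hx).ge
  have hset : {x | PosTop vol σ x} = Function.support (md vol σ σ) := by
    ext x
    rw [Function.mem_support, md_self]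
    constructor
    · intro hx
      exact ((posTop_iff hd hvol σ x).1 hx).ne'
    · intro hx
      by_contra hcon
      exact hx (td_zero hd hvol (hnn x) hcon)
  constructor
  · rintro ⟨h1, h2, h3⟩
    refine ⟨h1, h2, ?_, fun ρ hρ => ?_⟩
    · have h4 := h3 ⟨md vol σ σ, hc⟩ (Or.inl fun x => rfl)
      have h5 := (integral_eq_zero_iff_of_nonneg h0 (integ hc)).1 h4
      rw [hset]
      have h6 : ∀ᵐ x ∂μ, x ∉ Function.support (md vol σ σ) := by
        filter_upwards [h5] with x hx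
        rw [Function.mem_support, not_not]
        exact hx
      exact measure_eq_zero_iff_ae_notMem.2 h6
    · obtain ⟨β, g1, g2, g3⟩ := hρ
      exact h3 ⟨md vol σ ρ, md_cont hd hvol hσ g2⟩ (Or.inr ⟨ρ, ⟨β, g1, g2, g3⟩, fun x => rfl⟩)
  · rintro ⟨h1, h2, h3, h4⟩
    refine ⟨h1, h2, ?_⟩
    rintro f (hf | ⟨ρ, hρ, hf⟩)
    · refine integral_eq_zero_of_ae ?_
      rw [hset] at h3
      filter_upwards [measure_eq_zero_iff_ae_notMem.1 h3] with x hx
      rw [Function.mem_support, not_not] at hx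
      rw [hf x]
      exact hx
    · rw [← h4 ρ hρ]
      exact integral_congr_ae (Eventually.of_forall hf)

/-- extremal closed currents -/
structure XCurr [MeasurableSpace X] (vol : Pool.Agent.R772.Top d m X) (σ : Form d X 2)
    (μ : Measure X) : Prop where
  cur : IsCurr vol σ μ
  ext : ∀ ν : Measure X, IsCurr vol σ ν → ν ≤ μ → ∃ c : ℝ≥0, ν = c • μ

theorem isXt_iff [CompactSpace X] [T2Space X] [MeasurableSpace X] [BorelSpace X]
    (hd : d = 2 * (m + 1)) {vol : Pool.Agent.R772.Top d m X} (hvol : IsVol vol) {σ : Form d X 2}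
    (hσ : IsSmooth σ) (hnn : ∀ x, NonnegTop vol σ x) (μ : Measure X) :
    IsXt (NN vol σ) μ ↔ XCurr vol σ μ := by
  constructor
  · rintro ⟨h1, h2⟩
    exact ⟨(isNull_iff hd hvol hσ hnn μ).1 h1, fun ν hν hle =>
      h2 ν ((isNull_iff hd hvol hσ hnn ν).2 hν) hle⟩
  · rintro ⟨h1, h2⟩
    exact ⟨(isNull_iff hd hvol hσ hnn μ).2 h1, fun ν hν hle =>
      h2 ν ((isNull_iff hd hvol hσ hnn ν).1 hν) hle⟩

/-- **one class** -/
theorem one_class [CompactSpace X] [T2Space X] [MeasurableSpace X] [BorelSpace X]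
    (hd : d = 2 * (m + 1)) {vol : Pool.Agent.R772.Top d m X} (hvol : IsVol vol)
    {σ ζ : Form d X 2} (hσ : IsSmooth σ) (hζ : IsSmooth ζ) (hnn : ∀ x, NonnegTop vol σ x)
    (h : ∀ μ : Measure X, XCurr vol σ μ → 0 < ∫ x, md vol σ ζ x ∂μ) :
    ∃ ρ : Form d X 2, ExactF ρ ∧ ∀ x, ¬ PosTop vol σ x → LinPos vol σ (ζ + ρ) x := by
  have : TopologicalSpace.MetrizableSpace X := Manifold.metrizableSpace (𝓡 d) X
  refine dual12 hd hvol hσ hζ fun μ hμ => ?_
  by_contra hcon
  obtain ⟨ν, hν, hle⟩ := exists_xt (N := NN vol σ) ⟨md vol σ ζ, md_cont hd hvol hσ hζ⟩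
    ⟨μ, (isNull_iff hd hvol hσ hnn μ).2 hμ, not_lt.1 hcon⟩
  exact absurd (h ν ((isXt_iff hd hvol hσ hnn ν).1 hν)) (not_lt.2 hle)

/-- the support of a measure -/
def supp [MeasurableSpace X] (μ : Measure X) : Set X := {x | ∀ U, IsOpen U → x ∈ U → μ U ≠ 0}

omit [ChartedSpace (E d) X] [IsManifold (𝓡 d) ∞ X] in
theorem isClosed_supp [MeasurableSpace X] (μ : Measure X) : IsClosed (supp μ) := by
  rw [← isOpen_compl_iff, isOpen_iff_mem_nhds]
  intro x hx
  have h1 : ¬ ∀ U, IsOpen U → x ∈ U → μ U ≠ 0 := hx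
  push Not at h1
  obtain ⟨U, hU, hxU, h0⟩ := h1
  exact mem_of_superset (hU.mem_nhds hxU) fun y hy hcon => hcon U hU hy h0

omit [ChartedSpace (E d) X] [IsManifold (𝓡 d) ∞ X] in
theorem supp_compl [MeasurableSpace X] [SecondCountableTopology X] (μ : Measure X) :
    μ (supp μ)ᶜ = 0 := by
  refine measure_null_of_locally_null _ fun x hx => ?_
  have h1 : ¬ ∀ U, IsOpen U → x ∈ U → μ U ≠ 0 := hx
  push Not at h1
  obtain ⟨U, hU, hxU, h0⟩ := h1
  exact ⟨U, mem_nhdsWithin_of_mem_nhds (hU.mem_nhds hxU), h0⟩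

/-- **the support of an extremal closed current** -/
theorem xcurr_supp [CompactSpace X] [T2Space X] [MeasurableSpace X] [BorelSpace X]
    (hd : d = 2 * (m + 1)) {vol : Pool.Agent.R772.Top d m X} (hvol : IsVol vol)
    {σ : Form d X 2} (hσ : IsSmooth σ) (hnn : ∀ x, NonnegTop vol σ x) {μ : Measure X}
    (hμ : XCurr vol σ μ) :
    IsCompact (supp μ) ∧ (supp μ).Nonempty ∧ supp μ ⊆ {x | ¬ PosTop vol σ x} ∧
      (∀ h : X → ℝ, KFlat σ (supp μ) h → ∀ x ∈ supp μ, ∀ y ∈ supp μ, h x = h y) ∧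
      ∀ z ∈ supp μ, ¬ ThinP (PK vol σ) (supp μ) z := by
  have : TopologicalSpace.MetrizableSpace X := Manifold.metrizableSpace (𝓡 d) X
  have hfin := hμ.cur.fin
  have hcomp : IsCompact (supp μ) := (isClosed_supp μ).isCompact
  have hnull : μ (supp μ)ᶜ = 0 := supp_compl μ
  have hsub : supp μ ⊆ {x | ¬ PosTop vol σ x} := by
    intro x hx hcon
    exact hx _ (isOpen_posTop hd hvol hσ) hcon hμ.cur.car
  have hne : (supp μ).Nonempty := by
    rw [nonempty_iff_ne_empty]
    intro h0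
    rw [h0, compl_empty] at hnull
    exact hμ.cur.ne (Measure.measure_univ_eq_zero.1 hnull)
  have hcar : Carr vol σ (0 : Form d X 2) (supp μ) μ := by
    refine ⟨hfin, hμ.cur.ne, hnull, hμ.cur.closed, ?_⟩
    simp only [md_zero hd hvol, integral_zero, le_refl]
  refine ⟨hcomp, hne, hsub, ?_, fun z hz hth =>
    not_thin hd hvol hσ hcomp hcar (fun U hU hzU => hz U hU hzU) hth⟩
  intro h hh
  have hhc : Continuous h := hh.1.continuous
  obtain ⟨A, hA⟩ := (isCompact_univ (X := X)).exists_bound_of_continuousOn hhc.continuousOn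
  have hA' : ∀ x, |h x| ≤ |A| + 1 := fun x => by
    have := hA x (mem_univ x)
    rw [Real.norm_eq_abs] at this
    have := le_abs_self A
    linarith
  obtain ⟨B, hB⟩ : ∃ B, B = |A| + 1 := ⟨_, rfl⟩
  have hB0 : 0 < B := by rw [hB]; positivity
  let φ : ℝ → ℝ := fun s => (s + 2 * B) / (4 * B)
  have hφ : ContDiff ℝ ∞ φ := (contDiff_id.add contDiff_const).div_const _
  have ku := hh.comp1 hφ
  have cu : Continuous fun z => φ (h z) := ku.1.continuous
  have hb : ∀ x, -B ≤ h x ∧ h x ≤ B := fun x => by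
    rw [hB]
    exact abs_le.1 (hA' x)
  have hu0 : ∀ x, 0 < φ (h x) := fun x => by
    have := (hb x).1
    exact div_pos (by linarith) (by positivity)
  have hu1 : ∀ x, φ (h x) ≤ 1 := fun x => by
    have := (hb x).2
    exact (div_le_one (by positivity)).2 (by linarith)
  have hpos : 0 < ∫ x, φ (h x) ∂μ := by
    rw [integral_pos_iff_support_of_nonneg (fun x => (hu0 x).le) (integ cu)]
    have h1 : (Function.support fun x => φ (h x)) = univ := by
      ext x
      simp only [Function.mem_support, mem_univ, iff_true]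
      exact (hu0 x).ne'
    rw [h1]
    exact pos_iff_ne_zero.2 fun h0 => hμ.cur.ne (Measure.measure_univ_eq_zero.1 h0)
  have hw := Carr.wt hd hvol hnn hsub hcar (C' := supp μ) ku (fun z => (hu0 z).le)
    (fun z hz _ => hz) hpos (by simp only [md_zero hd hvol, mul_zero, integral_zero, le_refl])
  have hle : wt (fun x => φ (h x)) μ ≤ μ := by
    have h1 : wt (fun x => φ (h x)) μ ≤ μ.withDensity 1 := by
      refine withDensity_mono (Eventually.of_forall fun x => ?_)
      change ((Real.toNNReal (φ (h x)) : ℝ≥0) : ℝ≥0∞) ≤ 1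
      rw [← ENNReal.coe_one, ENNReal.coe_le_coe]
      exact Real.toNNReal_le_one.2 (hu1 x)
    rwa [withDensity_one] at h1
  have hcur : IsCurr vol σ (wt (fun x => φ (h x)) μ) := by
    refine ⟨hw.fin, hw.ne, ?_, hw.closed⟩
    exact le_antisymm ((hle _).trans hμ.cur.car.le) bot_le
  obtain ⟨c, hc⟩ := hμ.ext _ hcur hle
  -- the function is constant on the support
  have hint : ∀ g : X → ℝ, ∫ x, φ (h x) * g x ∂μ = c * ∫ x, g x ∂μ := by
    intro g
    rw [← wt_int cu (fun x => (hu0 x).le), hc, integral_smul_nnreal_measure, NNReal.smul_def,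
      smul_eq_mul]
  have hsq : ∫ x, (φ (h x) - c) ^ 2 ∂μ = 0 := by
    have h1 := hint fun x => φ (h x) - c
    have h2 : ∫ x, (φ (h x) - c) ^ 2 ∂μ =
        ∫ x, (φ (h x) * (φ (h x) - c) - c * (φ (h x) - c)) ∂μ := by
      refine integral_congr_ae (Eventually.of_forall fun x => ?_)
      change (φ (h x) - c) ^ 2 = φ (h x) * (φ (h x) - c) - c * (φ (h x) - c)
      ring
    have i1 : Integrable (fun x => φ (h x) * (φ (h x) - (c : ℝ))) μ :=
      integ (cu.mul (cu.sub continuous_const))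
    have i2 : Integrable (fun x => (c : ℝ) * (φ (h x) - (c : ℝ))) μ :=
      integ (continuous_const.mul (cu.sub continuous_const))
    rw [h2, integral_sub i1 i2, h1, integral_const_mul, sub_self]
  have hcq : Continuous fun x => (φ (h x) - c) ^ 2 := (cu.sub continuous_const).pow 2
  have hz := (integral_eq_zero_iff_of_nonneg (fun x => sq_nonneg _) (integ hcq)).1 hsq
  have hval : ∀ x ∈ supp μ, φ (h x) = c := by
    intro x hx
    by_contra hne
    refine hx (Function.support fun x => (φ (h x) - c) ^ 2) hcq.isOpen_support ?_ ?_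
    · rw [Function.mem_support]
      exact pow_ne_zero _ (sub_ne_zero.2 hne)
    · refine measure_eq_zero_iff_ae_notMem.2 ?_
      filter_upwards [hz] with y hy
      rw [Function.mem_support, not_not]
      exact hy
  intro x hx y hy
  have h1 : φ (h x) = φ (h y) := by rw [hval x hx, hval y hy]
  have h2 : (h x + 2 * B) / (4 * B) = (h y + 2 * B) / (4 * B) := h1
  rw [div_left_inj' (by positivity)] at h2
  linarith

/-- **finitely many classes** -/
theorem many_class [CompactSpace X] [T2Space X] [MeasurableSpace X] [BorelSpace X]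
    (hd : d = 2 * (m + 1)) {vol : Pool.Agent.R772.Top d m X} (hvol : IsVol vol)
    {σ : Form d X 2} {n : ℕ} {ζ : Fin n → Form d X 2} (hσ : IsSmooth σ)
    (hζ : ∀ i, IsSmooth (ζ i)) (hnn : ∀ x, NonnegTop vol σ x)
    (h : ∀ (c : Fin n → ℝ) (ρ : Form d X 2), ExactF ρ →
      ∃ x, ¬ PosTop vol σ x ∧ ¬ LinPos vol σ (∑ i, c i • ζ i + ρ) x) :
    ∃ (r : ℕ) (μ : Fin r → Measure X), 0 < r ∧ r ≤ n + 1 ∧ (∀ k, XCurr vol σ (μ k)) ∧
      ∀ i, ∑ k, ∫ x, md vol σ (ζ i) x ∂(μ k) = 0 := by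
  have : TopologicalSpace.MetrizableSpace X := Manifold.metrizableSpace (𝓡 d) X
  have hK : IsCompact {x | PosTop vol σ x}ᶜ :=
    (isOpen_posTop hd hvol hσ).isClosed_compl.isCompact
  have hsm : ∀ c : Fin n → ℝ, IsSmooth (∑ i, c i • ζ i) := fun c =>
    IsSmooth.sum _ fun i _ => (hζ i).smul (c i)
  have hmem : ∀ f ∈ exactDens hd hvol σ ⊔ Submodule.span ℝ (range fun i => md vol σ (ζ i)),
      ∃ (c : Fin n → ℝ) (ρ : Form d X 2), ExactF ρ ∧ f = md vol σ (∑ i, c i • ζ i + ρ) := by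
    intro f hf
    obtain ⟨_, ⟨ρ, hρ, rfl⟩, g, hg, rfl⟩ := Submodule.mem_sup.1 hf
    obtain ⟨c, hc⟩ := (Submodule.mem_span_range_iff_exists_fun ℝ).1 hg
    refine ⟨c, ρ, hρ, ?_⟩
    funext x
    rw [md_add hd hvol, md_sum hd hvol, ← hc]
    simp only [Pi.add_apply, Finset.sum_apply, Pi.smul_apply, smul_eq_mul]
    ring
  obtain ⟨μ, h1, h2, h3, h4, -⟩ := sep_measure hK
    (exactDens hd hvol σ ⊔ Submodule.span ℝ (range fun i => md vol σ (ζ i))) (by
      intro f hf
      obtain ⟨c, ρ, ⟨β, _, g2, _⟩, rfl⟩ := hmem f hf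
      exact md_cont hd hvol hσ ((hsm c).add g2)) (fun _ => 0) continuous_const (by
      intro f hf hpos
      obtain ⟨c, ρ, hρ, rfl⟩ := hmem f hf
      obtain ⟨x, hx, hx2⟩ := h c ρ hρ
      apply hx2
      rw [linPos_iff hd hvol]
      have := hpos x hx
      rwa [zero_add] at this)
  rw [compl_compl] at h3
  have hcur : IsCurr vol σ μ := ⟨h1, h2, h3, fun ρ hρ =>
    h4 _ (Submodule.mem_sup_left ⟨ρ, hρ, rfl⟩)⟩
  obtain ⟨r, ν, g1, g2, g3, g4⟩ := exists_xt_sum (N := NN vol σ)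
    (fun i => ⟨md vol σ (ζ i), md_cont hd hvol hσ (hζ i)⟩)
    ⟨μ, (isNull_iff hd hvol hσ hnn μ).2 hcur, fun i =>
      h4 _ (Submodule.mem_sup_right (Submodule.subset_span ⟨i, rfl⟩))⟩
  exact ⟨r, ν, g1, g2, fun k => (isXt_iff hd hvol hσ hnn _).1 (g3 k), g4⟩

end Run7.h752.SC
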