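import Pool.Agent.Run7.h752.SC.PubX
import Pool.Agent.Run7.h752.SC.Cur
import Pool.Agent.R772.BridgeM

/-!
Extremal closed currents in terms of the public definitions.
-/

set_option autoImplicit false

open Set Filter Topology MeasureTheory
open scoped Manifold ContDiff NNReal

noncomputable section

namespace Run7.h752.SC

theorem int_pos_of_support {X : Type} [TopologicalSpace X] [CompactSpace X] [T2Space X]
    [MeasurableSpace X] [BorelSpace X] [SecondCountableTopology X] {μ : Measure X}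
    [IsFiniteMeasure μ] {f : X → ℝ} (hf : Continuous f) (h0 : ∀ x ∈ μ.support, 0 ≤ f x)
    (h1 : ∃ x ∈ μ.support, 0 < f x) : 0 < ∫ x, f x ∂μ := by
  have hae : 0 ≤ᵐ[μ] f := by
    filter_upwards [Measure.support_mem_ae (μ := μ)] with x hx
    exact h0 x hx
  rw [integral_pos_iff_support_of_nonneg_ae hae (integ hf)]
  obtain ⟨x, hx, hpos⟩ := h1
  exact (Measure.mem_support_iff_forall x).1 hx _ (hf.isOpen_support.mem_nhds hpos.ne')

theorem support_eq {X : Type} [TopologicalSpace X] [MeasurableSpace X] (μ : Measure X) :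
    μ.support = supp μ := by
  rw [Measure.support_eq_forall_isOpen]
  ext x
  constructor
  · intro h U hU hx
    exact (h U hx hU).ne'
  · intro h U hx hU
    exact pos_iff_ne_zero.2 (h U hU hx)

section

open Pool.Agent.Y501.SY Pool.Agent.R772

variable {d : ℕ} {X : Type} [TopologicalSpace X] [ChartedSpace (E d) X] [IsManifold (𝓡 d) ∞ X]

theorem metr (X : Type) [TopologicalSpace X] [ChartedSpace (E d) X] [CompactSpace X]
    [T2Space X] : TopologicalSpace.MetrizableSpace X :=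
  Manifold.metrizableSpace (𝓡 d) X

omit [IsManifold (𝓡 d) ∞ X] in
theorem lin_eq {n : ℕ} (ζ : Fin n → Form d X 2) (c : Fin n → ℝ) :
    (fun x => ∑ i, c i • ζ i x) = ∑ i, c i • ζ i := by
  funext x
  rw [Finset.sum_apply]
  rfl

omit [IsManifold (𝓡 d) ∞ X] in
theorem lin_add {n : ℕ} (ζ : Fin n → Form d X 2) (c : Fin n → ℝ) (ρ : Form d X 2) (x : X) :
    (∑ i, c i • ζ i x) + ρ x = (∑ i, c i • ζ i + ρ) x := by
  rw [Pi.add_apply, Finset.sum_apply]
  rfl

omit [IsManifold (𝓡 d) ∞ X] in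
theorem sum_closed {n : ℕ} {ζ : Fin n → Form d X 2} (hζ : ∀ i, IsSmooth (ζ i))
    (hc : ∀ i, IsClosedForm (ζ i)) (c : Fin n → ℝ) (s : Finset (Fin n)) :
    IsSmooth (∑ i ∈ s, c i • ζ i) ∧ IsClosedForm (∑ i ∈ s, c i • ζ i) := by
  classical
  induction s using Finset.induction_on with
  | empty =>
    rw [Finset.sum_empty]
    exact ⟨IsSmooth.zero, IsD.zero⟩
  | insert a s ha ih =>
    rw [Finset.sum_insert ha]
    refine ⟨((hζ a).smul (c a)).add ih.1, ?_⟩
    have h5 := ((hc a).smul (c a)).add ih.2 ((hζ a).smul (c a)) ih.1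
    have h6 : c a • (0 : Form d X 3) + (0 : Form d X 3) = 0 := by rw [smul_zero, add_zero]
    rw [h6] at h5
    exact h5

end

end Run7.h752.SC

namespace Run7.h752.SYX

open Pool.Agent.Y501.SYP
open Pool.Agent.Y501
open Pool.Agent.R772.SYK
open Pool.Agent.R772.SYF
open Pool.Agent.R772.SYD
open Pool.Agent.R772.SYM
open Pool.Agent

section

variable {m d : ℕ} {X : Type} [TopologicalSpace X] [ChartedSpace (ES d) X]

attribute [local instance] Pool.Agent.Y501.SYP.cs
attribute [local instance] Pool.Agent.Y501.SYP.mf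

theorem xcurr_iff [MeasurableSpace X] (hd : d = 2 * (m + 1)) {vol : TopForm (ES d) X m}
    (hvol : IsVolume vol) {σ : Form (ES d) X 2} (hnn : TopNonneg vol σ) (μ : Measure X) :
    Extremal vol σ μ ↔ SC.XCurr (d := d) (m := m) (X := X) (toTop vol) σ μ := by
  constructor
  · rintro ⟨h1, h2⟩
    exact ⟨(curr_iff hd hvol hnn μ).1 h1, fun ν hν hle =>
      h2 ν ((curr_iff hd hvol hnn ν).2 hν) hle⟩
  · rintro ⟨h1, h2⟩
    exact ⟨(curr_iff hd hvol hnn μ).2 h1, fun ν hν hle =>
      h2 ν ((curr_iff hd hvol hnn ν).1 hν) hle⟩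

variable [IsManifold 𝓘(ℝ, ES d) ∞ X] [CompactSpace X] [T2Space X]

theorem test_of_extremal [MeasurableSpace X] [BorelSpace X] (hd : d = 2 * (m + 1))
    {vol : TopForm (ES d) X m} (hvol : IsVolume vol) {σ : Form (ES d) X 2} (hσ : IsClosed2 σ)
    (hnn : TopNonneg vol σ) {μ : Measure X} (hμ : Extremal vol σ μ) :
    TestSet vol σ μ.support := by
  obtain ⟨h1, h2, h3, h4, h5⟩ := SC.xcurr_supp (d := d) (m := m) (X := X) hd (vol := toTop vol)
    (vol_of hvol) (σ := σ) ((smooth_iff σ).1 hσ.smooth) (fun x e he => hnn x e he)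
    ((xcurr_iff hd hvol hnn μ).1 hμ)
  rw [SC.support_eq]
  exact ⟨h1, h2, fun x hx => (deg_iff hd hvol hnn x).2 (h3 hx),
    fun u hu => h4 u ⟨hu.smooth, fun x hx v hv => hu.ker x hx v hv⟩,
    fun z hz hs => h5 z hz (small_of hd hvol hs)⟩

omit [IsManifold 𝓘(ℝ, ES d) ∞ X] [CompactSpace X] [T2Space X] in
theorem lin_closed {n : ℕ} {ζ : Fin n → Form (ES d) X 2} (hζ : ∀ i, IsClosed2 (ζ i))
    (c : Fin n → ℝ) : IsClosed2 (lin c ζ) := by
  obtain ⟨h1, h2⟩ := SC.sum_closed (d := d) (X := X) (ζ := ζ)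
    (fun i => (smooth_iff (ζ i)).1 (hζ i).smooth) (fun i => (closed_iff (ζ i)).1 (hζ i).closed)
    c Finset.univ
  have h3 := SC.lin_eq (d := d) (X := X) ζ c
  rw [← h3] at h1 h2
  exact ⟨(smooth_iff _).2 h1, (closed_iff _).2 h2⟩

omit [CompactSpace X] [T2Space X] in
theorem addF_closed {η ρ : Form (ES d) X 2} {α : Form (ES d) X 1} (hη : IsClosed2 η)
    (hα : ExactPair α ρ) : IsClosed2 (addF η ρ) := by
  have hηs := (smooth_iff η).1 hη.smooth
  have hρs := (smooth_iff ρ).1 hα.smooth_d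
  refine ⟨(smooth_iff _).2 (SY.IsSmooth.add hηs hρs), (closed_iff _).2 ?_⟩
  have h5 := SY.IsD.add ((closed_iff η).1 hη.closed)
    (R772.prod_closed (d := d) (X := X) ((smooth_iff α).1 hα.smooth) hρs
      ((isD_iff α ρ).1 hα.isD)) hηs hρs
  rw [add_zero] at h5
  exact h5

theorem one_tfae [MeasurableSpace X] [BorelSpace X] (hd : d = 2 * (m + 1))
    {vol : TopForm (ES d) X m} (hvol : IsVolume vol) {σ : Form (ES d) X 2} (hσ : IsClosed2 σ)
    (hnn : TopNonneg vol σ) {ζ : Form (ES d) X 2} (hζ : IsClosed2 ζ) :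
    List.TFAE [Admissible vol σ ζ,
      ∀ μ : Measure X, Extremal vol σ μ → 0 < ∫ x, density vol σ ζ x ∂μ,
      ∀ μ : Measure X, Extremal vol σ μ → ∃ (α : Form (ES d) X 1) (ρ : Form (ES d) X 2),
        ExactPair α ρ ∧ SemiPos vol σ (addF ζ ρ) μ.support] := by
  have hσs := (smooth_iff σ).1 hσ.smooth
  have hζs := (smooth_iff ζ).1 hζ.smooth
  have hdual := (duality hd vol hvol σ ζ hσ hζ hnn).out 0 1
  have : TopologicalSpace.MetrizableSpace X := SC.metr (d := d) X
  tfae_have 1 → 3 := by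
    intro h μ hμ
    obtain ⟨α, ρ, hα, hp⟩ := hdual.1 h
    have ht := test_of_extremal hd hvol hσ hnn hμ
    obtain ⟨x, hx⟩ := ht.nonempty
    exact ⟨α, ρ, hα, fun x hx e he => (hp x (ht.deg hx) e he).le, x, hx,
      fun e he => hp x (ht.deg hx) e he⟩
  tfae_have 3 → 2 := by
    intro h μ hμ
    obtain ⟨α, ρ, hα, hp⟩ := h μ hμ
    have hρs := (smooth_iff ρ).1 hα.smooth_d
    have hfin := hμ.closed.finite
    have h1 : 0 < ∫ x, density vol σ (addF ζ ρ) x ∂μ := by
      refine SC.int_pos_of_support ?_ (fun x hx => ?_) ?_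
      · exact R772.md_cont (d := d) (m := m) (X := X) hd (vol_of hvol) hσs
          (SY.IsSmooth.add hζs hρs)
      · exact md_nonneg hd hvol (hp.nonneg x hx)
      · obtain ⟨x, hx, hpx⟩ := hp.pos
        exact ⟨x, hx, (R772.linPos_iff (d := d) (m := m) (X := X) hd (vol_of hvol) σ _ x).1
          (fun e he => hpx e he)⟩
    have h2 : ∫ x, density vol σ (addF ζ ρ) x ∂μ =
        ∫ x, density vol σ ζ x ∂μ + ∫ x, density vol σ ρ x ∂μ := by
      rw [← integral_add]
      · refine integral_congr_ae (Eventually.of_forall fun x => ?_)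
        exact R772.md_add (d := d) (m := m) (X := X) hd (vol_of hvol) σ ζ ρ x
      · exact SC.integ (R772.md_cont (d := d) (m := m) (X := X) hd (vol_of hvol) hσs hζs)
      · exact SC.integ (R772.md_cont (d := d) (m := m) (X := X) hd (vol_of hvol) hσs hρs)
    rw [h2, hμ.closed.closed α ρ hα, add_zero] at h1
    exact h1
  tfae_have 2 → 1 := by
    intro h
    refine hdual.2 ?_
    obtain ⟨ρ, hρ, hpos⟩ := SC.one_class (d := d) (m := m) (X := X) hd (vol := toTop vol)
      (vol_of hvol) (σ := σ) (ζ := ζ) hσs hζs (fun x e he => hnn x e he)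
      (fun μ hμ => h μ ((xcurr_iff hd hvol hnn μ).2 hμ))
    obtain ⟨α, hα⟩ := (exactF_iff ρ).1 hρ
    exact ⟨α, ρ, hα, fun x hx e he => hpos x ((deg_iff hd hvol hnn x).1 hx) e he⟩
  tfae_finish

theorem density_lin [MeasurableSpace X] [BorelSpace X] (hd : d = 2 * (m + 1))
    {vol : TopForm (ES d) X m} (hvol : IsVolume vol) {σ : Form (ES d) X 2} (hσ : IsClosed2 σ)
    {n : ℕ} {ζ : Fin n → Form (ES d) X 2} (hζ : ∀ i, IsClosed2 (ζ i)) (c : Fin n → ℝ)
    (μ : Measure X) [IsFiniteMeasure μ] :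
    ∫ x, density vol σ (lin c ζ) x ∂μ = ∑ i, c i * ∫ x, density vol σ (ζ i) x ∂μ := by
  have h1 : ∀ x, density vol σ (lin c ζ) x = ∑ i, c i * density vol σ (ζ i) x := by
    intro x
    have h2 := R772.md_sum (d := d) (m := m) (X := X) hd (vol_of hvol) σ Finset.univ c ζ x
    refine Eq.trans ?_ h2
    refine R772.md_congr (d := d) (m := m) (X := X) (vol := toTop vol) ?_
    exact congrFun (SC.lin_eq (d := d) (X := X) ζ c) x
  have h3 : ∀ i, Integrable (fun x => density vol σ (ζ i) x) μ := fun i =>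
    SC.integ (R772.md_cont (d := d) (m := m) (X := X) hd (vol_of hvol)
      ((smooth_iff σ).1 hσ.smooth) ((smooth_iff (ζ i)).1 (hζ i).smooth))
  rw [integral_congr_ae (Eventually.of_forall h1), integral_finsetSum _ fun i _ =>
    (h3 i).const_mul (c i)]
  exact Finset.sum_congr rfl fun i _ => integral_const_mul _ _

theorem many [MeasurableSpace X] [BorelSpace X] (hd : d = 2 * (m + 1))
    {vol : TopForm (ES d) X m} (hvol : IsVolume vol) {σ : Form (ES d) X 2} (hσ : IsClosed2 σ)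
    (hnn : TopNonneg vol σ) {n : ℕ} {ζ : Fin n → Form (ES d) X 2} (hζ : ∀ i, IsClosed2 (ζ i)) :
    (∃ c : Fin n → ℝ, Admissible vol σ (lin c ζ)) ↔
      ¬ ∃ (r : ℕ) (μ : Fin r → Measure X), NullSum vol σ ζ r μ := by
  have hσs := (smooth_iff σ).1 hσ.smooth
  constructor
  · rintro ⟨c, hc⟩ ⟨r, μ, hr, -, hx, hz⟩
    have h1 := ((one_tfae hd hvol hσ hnn (lin_closed hζ c)).out 0 1).1 hc
    have h2 : 0 < ∑ k, ∫ x, density vol σ (lin c ζ) x ∂(μ k) :=
      Finset.sum_pos (fun k _ => h1 _ (hx k)) (by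
        have : NeZero r := ⟨hr.ne'⟩
        exact ⟨0, Finset.mem_univ _⟩)
    have h3 : ∀ k, ∫ x, density vol σ (lin c ζ) x ∂(μ k) =
        ∑ i, c i * ∫ x, density vol σ (ζ i) x ∂(μ k) := fun k => by
      have := (hx k).closed.finite
      exact density_lin hd hvol hσ hζ c (μ k)
    rw [Finset.sum_congr rfl fun k _ => h3 k, Finset.sum_comm,
      Finset.sum_congr rfl fun i _ => (Finset.mul_sum _ _ _).symm,
      Finset.sum_congr rfl fun i _ => by rw [hz i, mul_zero], Finset.sum_const_zero] at h2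
    exact lt_irrefl _ h2
  · intro hno
    by_contra hcon
    apply hno
    obtain ⟨r, μ, h1, h2, h3, h4⟩ := SC.many_class (d := d) (m := m) (X := X) hd
      (vol := toTop vol) (vol_of hvol) (σ := σ) (ζ := ζ) hσs
      (fun i => (smooth_iff (ζ i)).1 (hζ i).smooth) (fun x e he => hnn x e he) (by
        intro c ρ hρ
        by_contra hall
        push Not at hall
        apply hcon
        refine ⟨c, ?_⟩
        have hdual := (duality hd vol hvol σ (lin c ζ) hσ (lin_closed hζ c) hnn).out 0 1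
        refine hdual.2 ?_
        obtain ⟨α, hα⟩ := (exactF_iff ρ).1 hρ
        refine ⟨α, ρ, hα, fun x hx e he => ?_⟩
        have h5 := hall x ((deg_iff hd hvol hnn x).1 hx)
        have h6 := SC.lin_add (d := d) (X := X) ζ c ρ x
        have h7 := h5 e he
        rw [← h6] at h7
        exact h7)
    exact ⟨r, μ, h1, h2, fun k => (xcurr_iff hd hvol hnn _).2 (h3 k), h4⟩

theorem span_iff [MeasurableSpace X] [BorelSpace X] (hd : d = 2 * (m + 1))
    {vol : TopForm (ES d) X m} (hvol : IsVolume vol) {σ : Form (ES d) X 2} (hσ : IsClosed2 σ)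
    (hnn : TopNonneg vol σ) {n : ℕ} {ζ : Fin n → Form (ES d) X 2} (hζ : Spans ζ) :
    (∃ (η : Form (ES d) X 2) (c : ℝ), IsClosed2 η ∧ SymplecticUpTo vol σ η c) ↔
      ¬ ∃ (r : ℕ) (μ : Fin r → Measure X), NullSum vol σ ζ r μ := by
  rw [← many hd hvol hσ hnn hζ.closed]
  constructor
  · rintro ⟨η, c, hη, hs⟩
    obtain ⟨b, α, ρ, hα, rfl⟩ := hζ.span η hη
    exact ⟨b, α, ρ, c, hα, hs⟩
  · rintro ⟨b, α, ρ, c, hα, hs⟩
    exact ⟨addF (lin b ζ) ρ, c, addF_closed (lin_closed hζ.closed b) hα, hs⟩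

end

end Run7.h752.SYX
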