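import Pool.Agent.Run7.h752.SC.PubL
import Pool.Agent.Run7.h752.SC.BridgeX
import Pool.Agent.Run7.h752.LF.Inv

/-!
Discs tangent to the kernel in the supports of closed currents, in terms of the public definitions.
-/

set_option autoImplicit false

open Set Filter Topology MeasureTheory
open scoped Manifold ContDiff NNReal

noncomputable section

namespace Run7.h752.SYX

open Pool.Agent.Y501.SYP
open Pool.Agent.Y501
open Pool.Agent.R772.SYK
open Pool.Agent.R772.SYF
open Pool.Agent.R772.SYD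
open Pool.Agent.R772.SYM
open Pool.Agent

section

variable {m d : ℕ} {X : Type} [TopologicalSpace X] [ChartedSpace (ES d) X]

attribute [local instance] Pool.Agent.Y501.SYP.cs
attribute [local instance] Pool.Agent.Y501.SYP.mf

/-- tangent discs can be made small -/
theorem TangentDisc.restrict {σ : Form (ES d) X 2} {C C' U : Set X} {z : X}
    (h : TangentDisc σ C z) (hU : U ∈ 𝓝 z) (hsub : C ∩ U ⊆ C') : TangentDisc σ C' z := by
  obtain ⟨g, ε, hε, hg, hg0, hp⟩ := h
  have h1 : ∀ᶠ p in 𝓝 ((0, 0) : ℝ × ℝ), g p ∈ U := by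
    refine hg.continuous.continuousAt.eventually ?_
    rw [hg0]
    exact hU
  obtain ⟨δ, hδ, h2⟩ := Metric.eventually_nhds_iff.1 h1
  refine ⟨g, min ε δ, lt_min hε hδ, hg, hg0, fun p hp1 hp2 => ?_⟩
  obtain ⟨h3, h4, h5⟩ := hp p (lt_of_lt_of_le hp1 (min_le_left _ _))
    (lt_of_lt_of_le hp2 (min_le_left _ _))
  refine ⟨hsub ⟨h3, h2 ?_⟩, h4, h5⟩
  rw [Prod.dist_eq]
  exact max_lt (by simpa using lt_of_lt_of_le hp1 (min_le_right _ _))
    (by simpa using lt_of_lt_of_le hp2 (min_le_right _ _))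

/-- smallness is a local property, inherited by subsets -/
theorem smallAt_restrict [IsManifold 𝓘(ℝ, ES d) ∞ X] [T2Space X] {vol : TopForm (ES d) X m}
    {σ : Form (ES d) X 2} {C C' U : Set X} {z : X}
    (h : SmallAt vol σ C' z) (hz : z ∈ C') (hU : U ∈ 𝓝 z) (hsub : C ∩ U ⊆ C') :
    SmallAt vol σ C z := by
  have hfd : FiniteDimensional ℝ (ES d) :=
    (inferInstance : FiniteDimensional ℝ (EuclideanSpace ℝ (Fin d)))
  rcases h with ⟨h1, h2 | h2⟩ | h2
  · obtain ⟨N, hN, h3⟩ := h2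
    refine Or.inl ⟨h1, Or.inl ⟨N ∩ U, inter_mem hN hU, measure_mono_null (image_mono ?_) h3⟩⟩
    rintro x ⟨⟨hx1, hx2, hx3⟩, hx4⟩
    exact ⟨⟨hsub ⟨hx1, hx3⟩, hx2⟩, hx4⟩
  · obtain ⟨g, hg, hg0, k, hk, hkg⟩ := h2
    obtain ⟨b, -, hb⟩ := (SmoothBumpFunction.nhds_basis_tsupport (I := 𝓘(ℝ, ES d)) z).mem_iff.1 hU
    have hbs : SmoothFun (V := ES d) (fun x => b x) := b.contMDiff
    refine Or.inl ⟨h1, Or.inr ⟨fun x => b x * g x, hbs.mul hg, fun x hx => ?_, k, hk, ?_⟩⟩
    · change b x * g x = 0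
      by_cases hxU : x ∈ U
      · rw [hg0 x (hsub ⟨hx, hxU⟩), mul_zero]
      · rw [image_eq_zero_of_notMem_tsupport fun hcon => hxU (hb hcon), zero_mul]
    · have e1 : (fun x => b x * g x) =ᶠ[𝓝 z] g := by
        filter_upwards [b.eventuallyEq_one] with x hx
        change b x * g x = g x
        rw [hx]
        exact one_mul _
      have e2 : dd (V := ES d) (fun x => b x * g x) z k = dd g z k := by
        unfold dd
        rw [e1.mfderiv_eq]
        rfl
      rw [e2]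
      exact hkg
  · obtain ⟨n, a, b, θ, h3, h4, h5⟩ := h2
    refine Or.inr ⟨n, a, b, θ, fun i => ⟨(h3 i).smooth_a, (h3 i).smooth_b, ?_⟩, h4, h5⟩
    obtain ⟨N, hN, h6⟩ := (h3 i).null
    refine ⟨N ∩ U, inter_mem hN hU, measure_mono_null (image_mono ?_) h6⟩
    rintro x ⟨hx1, hx2, hx3⟩
    exact ⟨hsub ⟨hx1, hx3⟩, hx2⟩

variable [IsManifold 𝓘(ℝ, ES d) ∞ X] [CompactSpace X] [T2Space X]

theorem disc_of_current [MeasurableSpace X] [BorelSpace X] (hd : d = 2 * (m + 1))
    {vol : TopForm (ES d) X m} (hvol : IsVolume vol) {σ : Form (ES d) X 2} (hσ : IsClosed2 σ)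
    (hnn : TopNonneg vol σ) {μ : Measure X} (hμ : IsClosedCurrent vol σ μ) {z : X}
    (hz : z ∈ μ.support) (hr : PowNe m σ z) : TangentDisc σ μ.support z := by
  rw [SC.support_eq] at hz ⊢
  exact LF.leaf_of_curr (d := d) (m := m) (X := X) hd (vol := toTop vol) (vol_of hvol) (σ := σ)
    ((smooth_iff σ).1 hσ.smooth) (fun x e he => hnn x e he) ((curr_iff hd hvol hnn μ).1 hμ) hz hr

/-- the supports of closed currents are invariant under the flows of the kernel fields -/
theorem inv_of_current [MeasurableSpace X] [BorelSpace X] (hd : d = 2 * (m + 1))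
    {vol : TopForm (ES d) X m} (hvol : IsVolume vol) {σ : Form (ES d) X 2} (hσ : IsClosed2 σ)
    (hnn : TopNonneg vol σ) {μ : Measure X} (hμ : IsClosedCurrent vol σ μ)
    {Y : (x : X) → TangentSpace 𝓘(ℝ, ES d) x} (hY : KernelField m σ μ.support Y)
    {γ : ℝ → X} (hγ : IsMIntegralCurve (I := 𝓘(ℝ, ES d)) γ Y) (h0 : γ 0 ∈ μ.support) (t : ℝ) :
    γ t ∈ μ.support := by
  obtain ⟨h1, h2, h3⟩ := hY
  rw [SC.support_eq] at *
  refine LF.lam_inv (d := d) (m := m) (X := X) hd (vol := toTop vol) (vol_of hvol) (σ := σ)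
    (SC.isClosed_supp μ) h1 h2 (fun x hx hne => ?_) hγ h0 t
  refine LF.leafC_of_curr (d := d) (m := m) (X := X) hd (vol := toTop vol) (vol_of hvol) (σ := σ)
    ((smooth_iff σ).1 hσ.smooth) (fun x e he => hnn x e he) ((curr_iff hd hvol hnn μ).1 hμ) hx ?_
  by_contra hcon
  exact hne (h3 x hx hcon)

theorem lam_of_extremal [MeasurableSpace X] [BorelSpace X] (hd : d = 2 * (m + 1))
    {vol : TopForm (ES d) X m} (hvol : IsVolume vol) {σ : Form (ES d) X 2} (hσ : IsClosed2 σ)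
    (hnn : TopNonneg vol σ) {μ : Measure X} (hμ : Extremal vol σ μ) :
    LamTest vol σ μ.support :=
  ⟨test_of_extremal hd hvol hσ hnn hμ, fun _ hz hr =>
    disc_of_current hd hvol hσ hnn hμ.closed hz hr, fun _ hY _ hγ h0 t =>
    inv_of_current hd hvol hσ hnn hμ.closed hY hγ h0 t⟩

theorem lam_tfae (hd : d = 2 * (m + 1))
    {vol : TopForm (ES d) X m} (hvol : IsVolume vol) {σ : Form (ES d) X 2} (hσ : IsClosed2 σ)
    (hnn : TopNonneg vol σ) {ζ : Form (ES d) X 2} (hζ : IsClosed2 ζ) :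
    Admissible vol σ ζ ↔ ∀ C : Set X, LamTest vol σ C →
      ∃ (α : Form (ES d) X 1) (ρ : Form (ES d) X 2),
        ExactPair α ρ ∧ SemiPos vol σ (addF ζ ρ) C := by
  let _ : MeasurableSpace X := borel X
  have : BorelSpace X := ⟨rfl⟩
  constructor
  · intro h C hC
    exact (tests hd vol hvol σ hσ hnn ζ hζ).1 h C hC.test
  · intro h
    exact ((one_tfae hd hvol hσ hnn hζ).out 2 0).1 fun μ hμ =>
      h _ (lam_of_extremal hd hvol hσ hnn hμ)

omit [CompactSpace X] in
/-- no laminated test sets -/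
theorem no_lam {vol : TopForm (ES d) X m} {σ : Form (ES d) X 2} {F : ℕ → Set X}
    (hF : Removable vol σ F) {C : Set X} (hC : LamTest vol σ C) : False := by
  have hcs : CompactSpace C := isCompact_iff_compactSpace.1 hC.test.compact
  have hne : Nonempty C := hC.test.nonempty.to_subtype
  obtain ⟨k, ⟨z, hz⟩⟩ := nonempty_interior_of_iUnion_of_closed
    (f := fun k => (Subtype.val : C → X) ⁻¹' F k)
    (fun k => (hF.closed k).preimage continuous_subtype_val) (by
      rw [← preimage_iUnion]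
      exact eq_univ_of_forall fun z => hF.cover (hC.test.deg z.2))
  obtain ⟨U, hU, hU2⟩ := isOpen_induced_iff.1
    (isOpen_interior (s := (Subtype.val : C → X) ⁻¹' F k))
  have hsub : ∀ y ∈ C, y ∈ U → y ∈ F k := by
    intro y hy hyU
    have h1 : (⟨y, hy⟩ : C) ∈ (Subtype.val : C → X) ⁻¹' U := hyU
    rw [hU2] at h1
    exact (interior_subset (s := (Subtype.val : C → X) ⁻¹' F k) h1 : _)
  have hzU : (z : X) ∈ U := by
    rw [← hU2] at hz
    exact hz
  have hzk : (z : X) ∈ F k := interior_subset (s := (Subtype.val : C → X) ⁻¹' F k) hz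
  have hCU : C ∩ U ⊆ F k ∩ Deg m σ := fun y hy => ⟨hsub y hy.1 hy.2, hC.test.deg hy.1⟩
  rcases hF.free k z ⟨hzk, hC.test.deg z.2⟩ with h | ⟨h1, h2⟩ | ⟨Y, γ, hY, hγ, h0, t, ht⟩
  · exact hC.test.notSmall z z.2
      (smallAt_restrict h ⟨hzk, hC.test.deg z.2⟩ (hU.mem_nhds hzU) hCU)
  · exact h2 ((hC.disc z z.2 h1).restrict (hU.mem_nhds hzU) hCU)
  · refine ht (hC.test.deg (hC.inv Y ⟨hY.smooth, fun x hx => hY.ker x (hC.test.deg hx),
      fun x hx => hY.zero x (hC.test.deg hx)⟩ γ hγ ?_ t))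
    rw [h0]
    exact z.2

/-- **all classes** -/
theorem removable_all (hd : d = 2 * (m + 1))
    {vol : TopForm (ES d) X m} (hvol : IsVolume vol) {σ : Form (ES d) X 2} (hσ : IsClosed2 σ)
    (hnn : TopNonneg vol σ) {F : ℕ → Set X} (hF : Removable vol σ F) {ζ : Form (ES d) X 2}
    (hζ : IsClosed2 ζ) : Admissible vol σ ζ :=
  (lam_tfae hd hvol hσ hnn hζ).2 fun _ hC => (no_lam hF hC).elim

omit [CompactSpace X] [T2Space X] in
/-- no discs -/
theorem removable_of_noDisc [MeasurableSpace (ES d)] [BorelSpace (ES d)]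
    {vol : TopForm (ES d) X m} {σ : Form (ES d) X 2}
    (h : ∀ z ∈ Deg m σ, PowNe m σ z ∧ ¬ TangentDisc σ (Deg m σ) z) :
    Removable vol σ (fun _ => univ) := by
  refine ⟨fun _ => isClosed_univ, fun z _ => mem_iUnion.2 ⟨0, mem_univ z⟩, fun k z hz => ?_⟩
  rw [univ_inter]
  exact Or.inr (Or.inl (h z hz.2))

/-- there are no closed currents -/
theorem removable_none [MeasurableSpace X] [BorelSpace X] (hd : d = 2 * (m + 1))
    {vol : TopForm (ES d) X m} (hvol : IsVolume vol) {σ : Form (ES d) X 2} (hσ : IsClosed2 σ)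
    (hnn : TopNonneg vol σ) {F : ℕ → Set X} (hF : Removable vol σ F) {μ : Measure X}
    (hμ : Extremal vol σ μ) : False :=
  no_lam hF (lam_of_extremal hd hvol hσ hnn hμ)

end

end Run7.h752.SYX
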