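import Pool.Agent.Run7.h752.SC.PubS
import Pool.Agent.Q186.FL.Final
import Pool.Agent.Run7.h752.SC.BridgeX

/-!
Closed two-forms with values in a flat line bundle and nonnegative top power.
-/

set_option autoImplicit false

open Set Filter Topology MeasureTheory
open scoped Manifold ContDiff NNReal

noncomputable section

namespace Run7.h752.SYX

open Pool.Agent.Y501.SYP
open Pool.Agent.R772.SYK
open Pool.Agent.R772.SYF
open Pool.Agent.R772.SYD
open Pool.Agent.R772.SYM
open Pool.Agent.Q186.FLP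

section

variable {V : Type} [NormedAddCommGroup V] [NormedSpace ℝ V]
  {X : Type} [TopologicalSpace X] [ChartedSpace V X] {m : ℕ}

theorem mixed_scale {σ σ' : Form V X 2} {z : X} {g : ℝ} (h : σ z = g • σ' z) (θ : Cov V z)
    (e : Fam V m z) : mixed m σ z θ e = g ^ m * mixed m σ' z θ e := by
  unfold mixed wedge
  rw [Finset.mul_sum]
  refine Finset.sum_congr rfl fun π _ => ?_
  rw [Fin.prod_univ_succ, Fin.prod_univ_succ]
  simp only [Fin.cons_zero, Fin.cons_succ, h]
  have h1 : ∀ i : Fin m, (g • σ' z) ![e (π (i.succ, 0)), e (π (i.succ, 1))] =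
      g * σ' z ![e (π (i.succ, 0)), e (π (i.succ, 1))] := fun i => rfl
  rw [Finset.prod_congr rfl fun i _ => h1 i, Finset.prod_mul_distrib, Finset.prod_const,
    Finset.card_univ, Fintype.card_fin]
  ring

theorem top_scale {σ σ' : Form V X 2} {z : X} {g : ℝ} (h : σ z = g • σ' z)
    (e : Fam V m z) : top m σ z e = g ^ (m + 1) * top m σ' z e := by
  unfold top wedge
  rw [Finset.mul_sum]
  refine Finset.sum_congr rfl fun π _ => ?_
  simp only [h]
  have h1 : ∀ i : Fin (m + 1), (g • σ' z) ![e (π (i, 0)), e (π (i, 1))] =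
      g * σ' z ![e (π (i, 0)), e (π (i, 1))] := fun i => rfl
  rw [Finset.prod_congr rfl fun i _ => h1 i, Finset.prod_mul_distrib, Finset.prod_const,
    Finset.card_univ, Fintype.card_fin]
  ring

theorem small_scale [MeasurableSpace V] [BorelSpace V] {vol : TopForm V X m}
    {σ σ' : Form V X 2} {z : X} {g : ℝ} (hg : 0 < g) (h : σ z = g • σ' z) {C : Set X}
    (hs : SmallAt vol σ' C z) : SmallAt vol σ C z := by
  rcases hs with ⟨⟨η, e, h1⟩, h2⟩ | ⟨n, a, b, θ, h1, h2, h3⟩
  · refine Or.inl ⟨⟨η, e, ?_⟩, ?_⟩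
    · rw [mixed_scale h]
      exact mul_ne_zero (pow_ne_zero _ hg.ne') h1
    · rcases h2 with h2 | ⟨f, h3, h4, k, h5, h6⟩
      · exact Or.inl h2
      · refine Or.inr ⟨f, h3, h4, k, fun w => ?_, h6⟩
        rw [h]
        change g * σ' z ![k, w] = 0
        rw [h5 w, mul_zero]
  · refine Or.inr ⟨n, a, b, θ, h1, h2, fun e he => ?_⟩
    rw [mixed_scale h]
    exact mul_pos (pow_pos hg _) (h3 e he)

end

section

variable {m d : ℕ} {X : Type} [TopologicalSpace X] [ChartedSpace (ES d) X]

attribute [local instance] Pool.Agent.Y501.SYP.cs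
attribute [local instance] Pool.Agent.Y501.SYP.mf

theorem exists_global [SimplyConnectedSpace X] {ι : Type} {vol : TopForm (ES d) X m}
    {S : TwistedForm (ES d) (∅ : Set X) ι} (hS : TwNonneg vol S) :
    ∃ (g : ι → X → ℝ) (σ : Form (ES d) X 2), IsGlobal vol S g σ := by
  obtain ⟨g, h1, h2⟩ := exists_scale S
  have heq : ∀ i, ∀ x ∈ S.U i, glob S g x = g i x • S.σ i x := fun i x hx =>
    glob_eq h2 i x hx (notMem_empty x)
  have hcl := glob_closed h1 h2
  refine ⟨g, glob S g, fun i x hx => (h1 i x hx).1, fun i x hx => (h1 i x hx).2, heq,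
    ⟨fun U φ hφ => (hcl U φ hφ fun p _ => notMem_empty _).1, fun U φ hφ p hp =>
      (hcl U φ hφ fun p _ => notMem_empty _).2 p hp⟩, fun x e he => ?_, ?_⟩
  · obtain ⟨i, hi⟩ := S.cover x
    rw [top_scale (heq i x hi)]
    exact mul_nonneg (pow_nonneg (h1 i x hi).1.le _) (hS i x hi e he)
  · ext x
    constructor
    · intro hx
      obtain ⟨i, hi⟩ := S.cover x
      refine ⟨i, hi, fun e => ?_⟩
      have h3 := hx e
      rw [top_scale (heq i x hi)] at h3
      exact (mul_eq_zero.1 h3).resolve_left (pow_ne_zero _ (h1 i x hi).1.ne')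
    · rintro ⟨i, hi, h3⟩ e
      rw [top_scale (heq i x hi), h3 e, mul_zero]

theorem countably_global {ι : Type} {vol : TopForm (ES d) X m}
    {S : TwistedForm (ES d) (∅ : Set X) ι} {g : ι → X → ℝ} {σ : Form (ES d) X 2}
    (h : IsGlobal vol S g σ) {F : ℕ → Set X} (hF : TwCountablySmall vol S F) :
    CountablySmall vol σ F := by
  refine ⟨hF.closed, ?_, fun k z hz => ?_⟩
  · rw [h.deg]
    exact hF.cover
  · rw [h.deg] at hz ⊢
    obtain ⟨i, hi, hs⟩ := hF.small k z hz
    exact small_scale (h.pos i z hi) (h.eq i z hi) hs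

end

end Run7.h752.SYX
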