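import Pool.Agent.Run7.h752.SC.PubLS
import Pool.Agent.Run7.h752.SC.BridgeL
import Pool.Agent.Run7.h752.SC.BridgeS

/-!
Discs tangent to the kernel of a closed two-form with values in a flat line bundle.
-/

set_option autoImplicit false

open Set Filter Topology MeasureTheory
open scoped Manifold ContDiff NNReal

noncomputable section

namespace Run7.h752.SYX

open Pool.Agent.Y501.SYP
open Pool.Agent.R772.SYK
open Pool.Agent.R772.SYF
open Pool.Agent.R772.SYD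
open Pool.Agent.R772.SYM
open Pool.Agent.Q186.FLP

section

variable {V : Type} [NormedAddCommGroup V] [NormedSpace ℝ V]
  {X : Type} [TopologicalSpace X] [ChartedSpace V X] {m : ℕ}

theorem powNe_scale {σ σ' : Form V X 2} {z : X} {g : ℝ} (hg : 0 < g) (h : σ z = g • σ' z) :
    PowNe m σ z ↔ PowNe m σ' z := by
  constructor
  · rintro ⟨η, e, h1⟩
    refine ⟨η, e, fun h0 => h1 ?_⟩
    rw [mixed_scale h, h0, mul_zero]
  · rintro ⟨η, e, h1⟩
    refine ⟨η, e, ?_⟩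
    rw [mixed_scale h]
    exact mul_ne_zero (pow_ne_zero _ hg.ne') h1

theorem app_scale {σ σ' : Form V X 2} {z : X} {g : ℝ} (hg : 0 < g) (h : σ z = g • σ' z)
    (e : Fin 2 → TangentSpace 𝓘(ℝ, V) z) : σ z e = 0 ↔ σ' z e = 0 := by
  rw [h]
  change g * σ' z e = 0 ↔ _
  rw [mul_eq_zero, or_iff_right hg.ne']

end

section

variable {m d : ℕ} {X : Type} [TopologicalSpace X] [ChartedSpace (ES d) X]

attribute [local instance] Pool.Agent.Y501.SYP.cs
attribute [local instance] Pool.Agent.Y501.SYP.mf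

theorem twDisc_of {ι : Type} {vol : TopForm (ES d) X m}
    {S : TwistedForm (ES d) (∅ : Set X) ι} {g : ι → X → ℝ} {σ : Form (ES d) X 2}
    (h : IsGlobal vol S g σ) {C : Set X} {z : X} (hz : TangentDisc σ C z) : TwDisc S C z := by
  obtain ⟨f, ε, h1, h2, h3, h4⟩ := hz
  refine ⟨f, ε, h1, h2, h3, fun p hp1 hp2 => ?_⟩
  obtain ⟨h5, h6, h7⟩ := h4 p hp1 hp2
  exact ⟨h5, h6, fun i hi v w => (app_scale (h.pos i _ hi) (h.eq i _ hi) _).1 (h7 v w)⟩

variable [IsManifold 𝓘(ℝ, ES d) ∞ X]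

theorem kernel_of {ι : Type} {vol : TopForm (ES d) X m}
    {S : TwistedForm (ES d) (∅ : Set X) ι} {g : ι → X → ℝ} {σ : Form (ES d) X 2}
    (h : IsGlobal vol S g σ) {C : Set X} {Y : (x : X) → TangentSpace 𝓘(ℝ, ES d) x}
    (hY : TwKernelField m S C Y) : KernelField m σ C Y := by
  refine ⟨hY.smooth, fun x hx w => ?_, fun x hx hn => ?_⟩
  · obtain ⟨i, hi⟩ := S.cover x
    exact (app_scale (h.pos i x hi) (h.eq i x hi) _).2 (hY.ker x hx i hi w)
  · obtain ⟨i, hi⟩ := S.cover x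
    exact hY.zero x hx i hi fun hcon => hn ((powNe_scale (h.pos i x hi) (h.eq i x hi)).2 hcon)

theorem removable_of_tw {ι : Type} {vol : TopForm (ES d) X m}
    {S : TwistedForm (ES d) (∅ : Set X) ι} {g : ι → X → ℝ} {σ : Form (ES d) X 2}
    (h : IsGlobal vol S g σ) {F : ℕ → Set X} (hF : TwRemovable vol S F) :
    Removable vol σ F := by
  refine ⟨hF.closed, ?_, fun k z hz => ?_⟩
  · rw [h.deg]
    exact hF.cover
  · rw [h.deg] at hz ⊢
    rcases hF.free k z hz with ⟨i, hi, h1⟩ | ⟨⟨i, hi, h1⟩, h2⟩ | ⟨Y, γ, h1, h2, h3, h4⟩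
    · exact Or.inl (small_scale (h.pos i z hi) (h.eq i z hi) h1)
    · exact Or.inr (Or.inl ⟨(powNe_scale (h.pos i z hi) (h.eq i z hi)).2 h1,
        fun hcon => h2 (twDisc_of h hcon)⟩)
    · refine Or.inr (Or.inr ⟨Y, γ, ?_, h2, h3, ?_⟩)
      · rw [h.deg]
        exact kernel_of h h1
      · rw [h.deg]
        exact h4

omit [IsManifold 𝓘(ℝ, ES d) ∞ X] in
theorem noDisc_of_tw {ι : Type} {vol : TopForm (ES d) X m}
    {S : TwistedForm (ES d) (∅ : Set X) ι} {g : ι → X → ℝ} {σ : Form (ES d) X 2}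
    (h : IsGlobal vol S g σ)
    (hS : ∀ z ∈ TwDeg m S, (∃ i, z ∈ S.U i ∧ PowNe m (S.σ i) z) ∧ ¬ TwDisc S (TwDeg m S) z) :
    ∀ z ∈ Deg m σ, PowNe m σ z ∧ ¬ TangentDisc σ (Deg m σ) z := by
  rw [h.deg]
  intro z hz
  obtain ⟨⟨i, hi, h1⟩, h2⟩ := hS z hz
  exact ⟨(powNe_scale (h.pos i z hi) (h.eq i z hi)).2 h1, fun hcon => h2 (twDisc_of h hcon)⟩

end

end Run7.h752.SYX
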