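import Pool.Agent.Run7.h752.SC.BridgeN2

/-!
All closed currents are combinations of finitely many extremal ones if the degenerate set has
locally finite area.
-/

set_option autoImplicit false

open Set Filter Topology MeasureTheory
open scoped Manifold ContDiff NNReal ENNReal

noncomputable section

namespace Run7.h752.SYX

open Pool.Agent.Y501.SYP
open Pool.Agent.Y501
open Pool.Agent.R772.SYK
open Pool.Agent.R772.SYF
open Pool.Agent.R772.SYD
open Pool.Agent.R772.SYM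
open Pool.Agent

theorem regroup {r r' : ℕ} (idx : Fin r' → Fin r) (c' : Fin r' → ℝ) (a : Fin r → ℝ) :
    ∑ i, (∑ k, if idx k = i then c' k else 0) * a i = ∑ k, c' k * a (idx k) := by
  simp_rw [Finset.sum_mul, ite_mul, zero_mul]
  rw [Finset.sum_comm]
  simp

section

variable {m d : ℕ} {X : Type} [TopologicalSpace X] [ChartedSpace (ES d) X]

attribute [local instance] Pool.Agent.Y501.SYP.cs
attribute [local instance] Pool.Agent.Y501.SYP.mf

variable [IsManifold 𝓘(ℝ, ES d) ∞ X] [CompactSpace X] [T2Space X] [MeasurableSpace X]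
  [BorelSpace X]

/-- all closed currents are combinations -/
theorem all_sums (hd : d = 2 * (m + 1))
    {vol : TopForm (ES d) X m} (hvol : IsVolume vol) {σ : Form (ES d) X 2} (hσ : IsClosed2 σ)
    (hnn : TopNonneg vol σ) {r : ℕ} {μ : Fin r → Measure X} (hμ : ∀ i, Extremal vol σ (μ i))
    (hlist : ∀ ν : Measure X, Extremal vol σ ν → ∃ (i : Fin r) (c : ℝ≥0), c ≠ 0 ∧ ν = c • μ i)
    {ν : Measure X} (hν : IsClosedCurrent vol σ ν) : ∃ c : Fin r → ℝ≥0, ν = ∑ i, c i • μ i := by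
  classical
  have hmetr : TopologicalSpace.MetrizableSpace X := SC.metr (d := d) X
  have hfν := hν.finite
  have hfμ : ∀ i, IsFiniteMeasure (μ i) := fun i => (hμ i).closed.finite
  have hint1 : ∀ κ : Measure X, IsFiniteMeasure κ → ∫ x, (1 : C(X, ℝ)) x ∂κ = κ.real univ := by
    intro κ _
    show ∫ _, (1 : ℝ) ∂κ = _
    rw [integral_const, smul_eq_mul, mul_one]
  have hpos1 : ∀ κ : Measure X, IsFiniteMeasure κ → κ ≠ 0 → 0 < ∫ x, (1 : C(X, ℝ)) x ∂κ := by
    intro κ h1 h2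
    rw [hint1 κ h1]
    exact SC.real_pos h2
  set M : ℝ := ∫ x, (1 : C(X, ℝ)) x ∂ν with hM
  have hM0 : 0 < M := hpos1 ν hfν hν.ne
  -- finitely many functions
  have key : ∀ S : Finset C(X, ℝ), ∃ c : Fin r → ℝ, (∀ i, 0 ≤ c i) ∧
      (∑ i, c i * ∫ x, (1 : C(X, ℝ)) x ∂(μ i) = M) ∧
      ∀ f ∈ S, ∑ i, c i * ∫ x, f x ∂(μ i) = ∫ x, f x ∂ν := by
    intro S
    let e := S.equivFin
    let z : Fin S.card → C(X, ℝ) := fun k => (e.symm k).1 - ((∫ x, (e.symm k).1 x ∂ν) / M) • 1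
    have hz : ∀ (κ : Measure X), IsFiniteMeasure κ → ∀ k, ∫ x, z k x ∂κ =
        ∫ x, (e.symm k).1 x ∂κ - (∫ x, (e.symm k).1 x ∂ν) / M * ∫ x, (1 : C(X, ℝ)) x ∂κ := by
      intro κ _ k
      have i1 : Integrable (fun x => (e.symm k).1 x) κ := SC.integ (e.symm k).1.continuous
      have i2 : Integrable (fun x => (∫ x, (e.symm k).1 x ∂ν) / M * (1 : C(X, ℝ)) x) κ :=
        SC.integ (continuous_const.mul (1 : C(X, ℝ)).continuous)
      rw [← integral_const_mul, ← integral_sub i1 i2]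
      rfl
    obtain ⟨r', κ, h1, -, h3, h4⟩ := SC.exists_xt_sum (N := SC.NN (d := d) (m := m) (X := X)
      (toTop vol) σ) z ⟨ν, (SC.isNull_iff (d := d) (m := m) (X := X) hd (vol_of hvol)
      ((smooth_iff σ).1 hσ.smooth) (fun x e he => hnn x e he) ν).2
      ((curr_iff hd hvol hnn ν).1 hν), fun k => by
        rw [hz ν hfν k, div_mul_cancel₀ _ hM0.ne', sub_self]⟩
    have hκ : ∀ k, Extremal vol σ (κ k) := fun k => (xcurr_iff hd hvol hnn _).2
      ((SC.isXt_iff (d := d) (m := m) (X := X) hd (vol_of hvol) ((smooth_iff σ).1 hσ.smooth)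
        (fun x e he => hnn x e he) (κ k)).1 (h3 k))
    choose idx c' hc' hκe using fun k => hlist (κ k) (hκ k)
    have hfκ : ∀ k, IsFiniteMeasure (κ k) := fun k => (hκ k).closed.finite
    set T : ℝ := ∑ k, ∫ x, (1 : C(X, ℝ)) x ∂(κ k) with hT
    have hT0 : 0 < T := Finset.sum_pos (fun k _ => hpos1 _ (hfκ k) (hκ k).closed.ne) (by
      have : NeZero r' := ⟨h1.ne'⟩
      exact ⟨0, Finset.mem_univ _⟩)
    have hre : ∀ f : C(X, ℝ), ∑ i, (∑ k, if idx k = i then (c' k : ℝ) else 0) *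
        ∫ x, f x ∂(μ i) = ∑ k, ∫ x, f x ∂(κ k) := by
      intro f
      rw [regroup idx (fun k => (c' k : ℝ)) (fun i => ∫ x, f x ∂(μ i))]
      refine Finset.sum_congr rfl fun k _ => ?_
      conv_rhs => rw [hκe k]
      rw [integral_smul_nnreal_measure]
      rfl
    have hre2 : ∀ f : C(X, ℝ), ∑ i, (M / T * ∑ k, if idx k = i then (c' k : ℝ) else 0) *
        ∫ x, f x ∂(μ i) = M / T * ∑ k, ∫ x, f x ∂(κ k) := by
      intro f
      rw [← hre f, Finset.mul_sum]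
      exact Finset.sum_congr rfl fun i _ => mul_assoc _ _ _
    refine ⟨fun i => M / T * ∑ k, if idx k = i then (c' k : ℝ) else 0, fun i => ?_, ?_,
      fun f hf => ?_⟩
    · refine mul_nonneg (div_nonneg hM0.le hT0.le) (Finset.sum_nonneg fun k _ => ?_)
      split_ifs
      · exact (c' k).2
      · exact le_rfl
    · rw [hre2, ← hT, div_mul_cancel₀ _ hT0.ne']
    · rw [hre2]
      have h5 := h4 (e ⟨f, hf⟩)
      have h6 : ∀ k, ∫ x, z (e ⟨f, hf⟩) x ∂(κ k) =
          ∫ x, f x ∂(κ k) - (∫ x, f x ∂ν) / M * ∫ x, (1 : C(X, ℝ)) x ∂(κ k) := by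
        intro k
        rw [hz _ (hfκ k), e.symm_apply_apply]
      rw [Finset.sum_congr rfl fun k _ => h6 k, Finset.sum_sub_distrib, ← Finset.mul_sum,
        ← hT, sub_eq_zero] at h5
      rw [h5]
      field_simp
  -- compactness
  let K₀ : Set (Fin r → ℝ) := {c | (∀ i, 0 ≤ c i) ∧
    ∑ i, c i * ∫ x, (1 : C(X, ℝ)) x ∂(μ i) = M}
  have hm : ∀ i, 0 < ∫ x, (1 : C(X, ℝ)) x ∂(μ i) := fun i =>
    hpos1 _ (hfμ i) (hμ i).closed.ne
  have hK₀ : IsCompact K₀ := by
    refine (isCompact_Icc (a := (0 : Fin r → ℝ))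
      (b := fun i => M / ∫ x, (1 : C(X, ℝ)) x ∂(μ i))).of_isClosed_subset ?_ ?_
    · refine IsClosed.inter ?_ ?_
      · have : {c : Fin r → ℝ | ∀ i, 0 ≤ c i} = ⋂ i, {c | 0 ≤ c i} := by
          ext c
          simp
        show IsClosed {c : Fin r → ℝ | ∀ i, 0 ≤ c i}
        rw [this]
        exact isClosed_iInter fun i => isClosed_le continuous_const (continuous_apply i)
      · exact isClosed_eq (continuous_finsetSum _ fun i _ =>
          (continuous_apply i).mul continuous_const) continuous_const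
    · rintro c ⟨hc1, hc2⟩
      refine ⟨hc1, fun i => ?_⟩
      rw [le_div_iff₀ (hm i), ← hc2]
      exact Finset.single_le_sum (f := fun i => c i * ∫ x, (1 : C(X, ℝ)) x ∂(μ i))
        (fun j _ => mul_nonneg (hc1 j) (hm j).le) (Finset.mem_univ i)
  obtain ⟨c, ⟨hc0, -⟩, hc⟩ := hK₀.inter_iInter_nonempty
    (fun f : C(X, ℝ) => {c : Fin r → ℝ | ∑ i, c i * ∫ x, f x ∂(μ i) = ∫ x, f x ∂ν})
    (fun f => isClosed_eq (continuous_finsetSum _ fun i _ =>
      (continuous_apply i).mul continuous_const) continuous_const) (fun S => by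
      obtain ⟨c, h1, h2, h3⟩ := key S
      exact ⟨c, ⟨h1, h2⟩, mem_iInter₂.2 fun f hf => h3 f hf⟩)
  rw [mem_iInter] at hc
  obtain ⟨c', hc'⟩ : ∃ c' : Fin r → ℝ≥0, ∀ i, (c' i : ℝ) = c i :=
    ⟨fun i => ⟨c i, hc0 i⟩, fun i => rfl⟩
  refine ⟨c', ?_⟩
  have hfs : IsFiniteMeasure (∑ i, c' i • μ i) := by
    refine ⟨?_⟩
    rw [Measure.finsetSum_apply]
    exact ENNReal.sum_lt_top.2 fun i _ => measure_lt_top _ _
  refine SC.fnl_inj fun f => ?_
  have hcf : ∑ i, c i * ∫ x, f x ∂(μ i) = ∫ x, f x ∂ν := hc f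
  rw [integral_finsetSum_measure fun i _ => SC.integ f.continuous, ← hcf]
  refine Finset.sum_congr rfl fun i _ => ?_
  rw [integral_smul_nnreal_measure, NNReal.smul_def, hc' i, smul_eq_mul]

/-- the criterion for the existence of a class -/
theorem list_span (hd : d = 2 * (m + 1))
    {vol : TopForm (ES d) X m} (hvol : IsVolume vol) {σ : Form (ES d) X 2} (hσ : IsClosed2 σ)
    (hnn : TopNonneg vol σ) {r : ℕ} {μ : Fin r → Measure X} (hμ : ∀ i, Extremal vol σ (μ i))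
    (hlist : ∀ ν : Measure X, Extremal vol σ ν → ∃ (i : Fin r) (c : ℝ≥0), c ≠ 0 ∧ ν = c • μ i)
    {n : ℕ} {ζ : Fin n → Form (ES d) X 2} (hζ : Spans ζ) :
    (∃ (η : Form (ES d) X 2) (c : ℝ), IsClosed2 η ∧ SymplecticUpTo vol σ η c) ↔
      ¬ ∃ c : Fin r → ℝ, (∀ i, 0 ≤ c i) ∧ (∃ i, c i ≠ 0) ∧
        ∀ j, ∑ i, c i * ∫ x, density vol σ (ζ j) x ∂(μ i) = 0 := by
  classical
  have hfμ : ∀ i, IsFiniteMeasure (μ i) := fun i => (hμ i).closed.finite
  constructor
  · rintro ⟨η, t, hη, hs⟩ ⟨c, hc0, ⟨i₀, hi₀⟩, hc⟩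
    obtain ⟨b, α, ρ, hα, rfl⟩ := hζ.span η hη
    have h0 : Admissible vol σ (lin b ζ) := ⟨α, ρ, t, hα, hs⟩
    have h1 := ((one_tfae hd hvol hσ hnn (lin_closed hζ.closed b)).out 0 1).1 h0
    have h2 : 0 < ∑ i, c i * ∫ x, density vol σ (lin b ζ) x ∂(μ i) := by
      refine Finset.sum_pos' (fun i _ => mul_nonneg (hc0 i) (h1 _ (hμ i)).le)
        ⟨i₀, Finset.mem_univ _, ?_⟩
      exact mul_pos (lt_of_le_of_ne (hc0 i₀) (Ne.symm hi₀)) (h1 _ (hμ i₀))
    have h3 : ∑ i, c i * ∫ x, density vol σ (lin b ζ) x ∂(μ i) = 0 := by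
      have h4 : ∀ i, c i * ∫ x, density vol σ (lin b ζ) x ∂(μ i) =
          ∑ j, b j * (c i * ∫ x, density vol σ (ζ j) x ∂(μ i)) := by
        intro i
        rw [density_lin hd hvol hσ hζ.closed b (μ i), Finset.mul_sum]
        exact Finset.sum_congr rfl fun j _ => by ring
      rw [Finset.sum_congr rfl fun i _ => h4 i, Finset.sum_comm]
      refine Finset.sum_eq_zero fun j _ => ?_
      rw [← Finset.mul_sum, hc j, mul_zero]
    exact h2.ne' h3
  · intro hno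
    by_contra hcon
    rw [span_iff hd hvol hσ hnn hζ, not_not] at hcon
    obtain ⟨r', κ, hr', -, hκ, hz⟩ := hcon
    choose idx c' hc' hκe using fun k => hlist (κ k) (hκ k)
    refine hno ⟨fun i => ∑ k, if idx k = i then (c' k : ℝ) else 0, fun i => ?_, ?_, fun j => ?_⟩
    · refine Finset.sum_nonneg fun k _ => ?_
      split_ifs
      · exact (c' k).2
      · exact le_rfl
    · have : NeZero r' := ⟨hr'.ne'⟩
      refine ⟨idx 0, ne_of_gt ?_⟩
      refine Finset.sum_pos' (fun k _ => ?_) ⟨0, Finset.mem_univ _, ?_⟩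
      · split_ifs
        · exact (c' k).2
        · exact le_rfl
      · rw [if_pos rfl]
        exact lt_of_le_of_ne (c' 0).2 (fun h => hc' 0 (Subtype.ext h.symm))
    · rw [regroup idx (fun k => (c' k : ℝ)) (fun i => ∫ x, density vol σ (ζ j) x ∂(μ i)),
        ← hz j]
      refine Finset.sum_congr rfl fun k _ => ?_
      conv_rhs => rw [hκe k]
      rw [integral_smul_nnreal_measure]
      rfl

/-- **the structure theorem** -/
theorem area_main (hd : d = 2 * (m + 1))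
    {vol : TopForm (ES d) X m} (hvol : IsVolume vol) {σ : Form (ES d) X 2} (hσ : IsClosed2 σ)
    (hnn : TopNonneg vol σ) (hr : ∀ z ∈ Deg m σ, PowNe m σ z)
    (hf : ∀ z ∈ Deg m σ, FiniteArea (ES d) (Deg m σ) z) :
    ∃ (r : ℕ) (μ : Fin r → Measure X),
      (∀ i, IsClosedCurrent vol σ (μ i) ∧ KernelSurface m σ (μ i).support) ∧
      (∀ i j, i ≠ j → Disjoint (μ i).support (μ j).support) ∧
      (∀ ν : Measure X, IsClosedCurrent vol σ ν → ∃ c : Fin r → ℝ≥0, ν = ∑ i, c i • μ i) ∧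
      (∀ ζ : Form (ES d) X 2, IsClosed2 ζ →
        (Admissible vol σ ζ ↔ ∀ i, 0 < ∫ x, density vol σ ζ x ∂(μ i))) ∧
      ∀ (n : ℕ) (ζ : Fin n → Form (ES d) X 2), Spans ζ →
        ((∃ (η : Form (ES d) X 2) (c : ℝ), IsClosed2 η ∧ SymplecticUpTo vol σ η c) ↔
          ¬ ∃ c : Fin r → ℝ, (∀ i, 0 ≤ c i) ∧ (∃ i, c i ≠ 0) ∧
            ∀ j, ∑ i, c i * ∫ x, density vol σ (ζ j) x ∂(μ i) = 0) := by
  obtain ⟨r, μ, h1, h2, h3, h4⟩ := exists_list hd hvol hσ hnn hr hf
  refine ⟨r, μ, fun i => ⟨(h1 i).closed, h2 i⟩, h3, fun ν hν => all_sums hd hvol hσ hnn h1 h4 hν,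
    fun ζ hζ => ?_, fun n ζ hζ => list_span hd hvol hσ hnn h1 h4 hζ⟩
  have htf : Admissible vol σ ζ ↔ ∀ μ : Measure X, Extremal vol σ μ →
      0 < ∫ x, density vol σ ζ x ∂μ := (one_tfae hd hvol hσ hnn hζ).out 0 1
  rw [htf]
  constructor
  · intro h i
    exact h _ (h1 i)
  · intro h ν hν
    obtain ⟨i, c, hc, rfl⟩ := h4 ν hν
    rw [integral_smul_nnreal_measure]
    exact mul_pos (lt_of_le_of_ne c.2 (fun h0 => hc (Subtype.ext h0.symm))) (h i)

end

end Run7.h752.SYX
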