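import Pool.Agent.Run7.h752.SC.FamZ
import Pool.Agent.R772.Min

/-!
# From a compression back to the criterion (helper752)
-/

set_option autoImplicit false

open Set Filter Topology MeasureTheory
open scoped Manifold ContDiff

noncomputable section

namespace Run7.h752.SC

open Pool.Agent.Y501.SY Pool.Agent.R772

section

variable {d m : ℕ} {X : Type} [TopologicalSpace X] [ChartedSpace (E d) X]
  [IsManifold (𝓡 d) ∞ X]

omit [IsManifold (𝓡 d) ∞ X] in
theorem exactF_zero : ExactF (0 : Form d X 2) := ⟨0, IsSmooth.zero, IsSmooth.zero, IsD.zero⟩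

omit [IsManifold (𝓡 d) ∞ X] in
theorem exactF_sum {n : ℕ} {ρ : Fin n → Form d X 2} (h : ∀ i, ExactF (ρ i)) (c : Fin n → ℝ)
    (s : Finset (Fin n)) : ExactF (∑ i ∈ s, c i • ρ i) := by
  classical
  induction s using Finset.induction_on with
  | empty =>
    rw [Finset.sum_empty]
    exact exactF_zero
  | insert a s ha ih =>
    rw [Finset.sum_insert ha]
    obtain ⟨β, h1, h2, h3⟩ := h a
    obtain ⟨β', h1', h2', h3'⟩ := ih
    exact ⟨c a • β + β', (h1.smul _).add h1', (h2.smul _).add h2',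
      (h3.smul _).add h3' (h1.smul _) h1'⟩

omit [IsManifold (𝓡 d) ∞ X] in
theorem md_csum (hd : d = 2 * (m + 1)) {vol : Top d m X} (hvol : IsVol vol)
    (σ ζ : Form d X 2) {n : ℕ} (c : Fin n → ℝ) (ρ : Fin n → Form d X 2) (x : X) :
    md vol σ (csum c ζ ρ) x = ∑ i, c i * (md vol σ ζ x + md vol σ (ρ i) x) := by
  unfold csum
  rw [md_sum hd hvol]
  refine Finset.sum_congr rfl fun i _ => ?_
  rw [md_add hd hvol]

theorem dir_exists (hd : d = 2 * (m + 1)) {vol : Top d m X} (hvol : IsVol vol)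
    {σ ζ : Form d X 2} {n : ℕ} {c : Fin n → ℝ} (hc : ∀ i, 0 ≤ c i)
    {ρ : Fin n → Form d X 2} (hρ : ∀ i, ExactF (ρ i))
    (h : ∀ x, ¬ PosTop vol σ x → LinPos vol σ (csum c ζ ρ) x) :
    ∃ ρ' : Form d X 2, ExactF ρ' ∧ ∀ x, ¬ PosTop vol σ x → LinPos vol σ (ζ + ρ') x := by
  by_cases hne : ∃ x₀, ¬ PosTop vol σ x₀
  · obtain ⟨x₀, hx₀⟩ := hne
    have h0 := (linPos_iff hd hvol _ _ _).1 (h x₀ hx₀)
    rw [md_csum hd hvol] at h0
    have hC : 0 < ∑ i, c i := by
      refine lt_of_le_of_ne (Finset.sum_nonneg fun i _ => hc i) fun h1 => ?_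
      have h2 := (Finset.sum_eq_zero_iff_of_nonneg fun i _ => hc i).1 h1.symm
      rw [Finset.sum_eq_zero fun i _ => by rw [h2 i (Finset.mem_univ i), zero_mul]] at h0
      exact lt_irrefl _ h0
    refine ⟨∑ i, (c i / ∑ j, c j) • ρ i, exactF_sum hρ _ _, fun x hx => ?_⟩
    have h1 := (linPos_iff hd hvol _ _ _).1 (h x hx)
    rw [linPos_iff hd hvol, md_add hd hvol, md_sum hd hvol]
    rw [md_csum hd hvol] at h1
    have h2 : ∑ i, c i * (md vol σ ζ x + md vol σ (ρ i) x) =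
        (∑ i, c i) * (md vol σ ζ x + ∑ i, c i / (∑ j, c j) * md vol σ (ρ i) x) := by
      rw [mul_add, Finset.mul_sum, Finset.sum_mul, ← Finset.sum_add_distrib]
      refine Finset.sum_congr rfl fun i _ => ?_
      field_simp
    rw [h2] at h1
    exact (pos_iff_pos_of_mul_pos h1).1 hC
  · push Not at hne
    exact ⟨0, exactF_zero, fun x hx => absurd (hne x) hx⟩

end

end Run7.h752.SC
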