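import Pool.Agent.Run7.h752.SC.PubY
import Pool.Agent.Run7.h752.SC.FamZ2
import Pool.Agent.Run7.h752.SC.BridgeX

/-!
Compression of families of closed two-forms in terms of the public definitions.
-/

set_option autoImplicit false

open Set Filter Topology MeasureTheory
open scoped Manifold ContDiff NNReal

noncomputable section

namespace Run7.h752.SYX

open Pool.Agent.Y501.SYP
open Pool.Agent.Y501
open Pool.Agent.R772.SYK
open Pool.Agent.R772.SYG
open Pool.Agent.R772.SYF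
open Pool.Agent.R772.SYD
open Pool.Agent.R772.SYM
open Pool.Agent

section

variable {m d : ℕ} {X : Type} [TopologicalSpace X] [ChartedSpace (ES d) X]

attribute [local instance] Pool.Agent.Y501.SYP.cs
attribute [local instance] Pool.Agent.Y501.SYP.mf

variable [IsManifold 𝓘(ℝ, ES d) ∞ X] [CompactSpace X] [T2Space X]
  {P : Type} [TopologicalSpace P]

theorem admissible_iff (hd : d = 2 * (m + 1)) {vol : TopForm (ES d) X m} (hvol : IsVolume vol)
    {σ ζ : Form (ES d) X 2} (hσ : IsClosed2 σ) (hnn : TopNonneg vol σ) (hζ : IsClosed2 ζ) :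
    Admissible vol σ ζ ↔ ∃ (α : Form (ES d) X 1) (ρ : Form (ES d) X 2), ExactPair α ρ ∧
      PosOnDeg vol σ (addF ζ ρ) :=
  posOnDeg_sympl hd hvol hσ hζ hnn

omit [CompactSpace X] [T2Space X] in
theorem mix_closed {n : ℕ} (c : Fin n → ℝ) {ζ : Form (ES d) X 2} (hζ : IsClosed2 ζ)
    {α : Fin n → Form (ES d) X 1} {ρ : Fin n → Form (ES d) X 2}
    (h : ∀ i, ExactPair (α i) (ρ i)) : IsClosed2 (mixF c ζ ρ) := by
  obtain ⟨h1, h2⟩ := SC.csum_closed (d := d) (X := X) c ((smooth_iff ζ).1 hζ.smooth)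
    ((closed_iff ζ).1 hζ.closed) (β := α) (ρ := ρ) (fun i => ⟨(smooth_iff _).1 (h i).smooth,
      (smooth_iff _).1 (h i).smooth_d, (isD_iff _ _).1 (h i).isD⟩)
  have h3 : SC.csum (d := d) (X := X) c ζ ρ = mixF c ζ ρ := by
    funext x
    exact SC.csum_apply (d := d) (X := X) c ζ ρ x
  rw [h3] at h1 h2
  exact ⟨(smooth_iff _).2 h1, (closed_iff _).2 h2⟩

omit [IsManifold 𝓘(ℝ, ES d) ∞ X] [CompactSpace X] [T2Space X] in
theorem seg_closed {η η' : Form (ES d) X 2} (h : IsClosed2 η) (h' : IsClosed2 η') (s : ℝ) :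
    IsClosed2 (seg η η' s) := by
  have k1 := (smooth_iff η).1 h.smooth
  have k2 := (smooth_iff η').1 h'.smooth
  have k3 := (closed_iff η).1 h.closed
  have k4 := (closed_iff η').1 h'.closed
  refine ⟨(smooth_iff _).2 ((k1.smul (1 - s)).add (k2.smul s)), (closed_iff _).2 ?_⟩
  have h5 := (k3.smul (1 - s)).add (k4.smul s) (k1.smul _) (k2.smul _)
  rw [smul_zero, smul_zero, add_zero] at h5
  exact h5

omit [CompactSpace X] [T2Space X] in
theorem symp_of (hd : d = 2 * (m + 1)) {vol : TopForm (ES d) X m} (hvol : IsVolume vol)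
    {σ η : Form (ES d) X 2} (hσ : IsClosed2 σ) (hη : IsClosed2 η) {t : ℝ}
    (h : ∀ x, R772.PosTop (d := d) (m := m) (X := X) (toTop vol) (comb σ t η) x) :
    IsPosSymplectic vol (comb σ t η) := by
  have h5 := R772.closed_comb_aux (d := d) (X := X) ((smooth_iff σ).1 hσ.smooth)
    ((closed_iff σ).1 hσ.closed) ((smooth_iff η).1 hη.smooth) ((closed_iff η).1 hη.closed) t
  refine ⟨⟨(smooth_iff _).2 (((smooth_iff σ).1 hσ.smooth).add
    (((smooth_iff η).1 hη.smooth).smul t)), (closed_iff _).2 h5⟩,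
    fun x v hv => R772.PosTop.nondeg (d := d) (m := m) (X := X) hd (vol_of hvol) (h x) v hv,
    fun x e he => h x e he⟩

theorem exists_compression (hd : d = 2 * (m + 1)) {vol : TopForm (ES d) X m}
    (hvol : IsVolume vol) [CompactSpace P] [T2Space P] {Q : Set P} (hQ : IsClosed Q)
    {σ ζ : P → Form (ES d) X 2} (hσ : IsFamily vol σ) (hζ : ClosedFam ζ)
    (hpos : ∀ q ∈ Q, IsPosSymplectic vol (σ q)) (h : ∀ p, Admissible vol (σ p) (ζ p)) :
    ∃ (n : ℕ) (α : Fin n → Form (ES d) X 1) (ρ : Fin n → Form (ES d) X 2)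
      (φ : Fin n → P → ℝ), CompressionTo vol Q σ ζ α ρ φ := by
  obtain ⟨n, β, ρ, φ, h1, h2, h3, h4, h5⟩ := SC.famZ (d := d) (m := m) (X := X) hd
    (vol := toTop vol) (vol_of hvol) (σ := σ) (ζ := ζ) hσ.cont hζ.cont
    (fun p x e he => hσ.nonneg p x e he) (fun p _ => by
      obtain ⟨α, ρ, hα, hp⟩ := (admissible_iff hd hvol (hσ.closed p) (hσ.nonneg p)
        (hζ.closed p)).1 (h p)
      exact ⟨α, ρ, (smooth_iff _).1 hα.smooth, (smooth_iff _).1 hα.smooth_d,
        (isD_iff _ _).1 hα.isD, fun x hx e he =>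
          hp x ((deg_iff hd hvol (hσ.nonneg p) x).2 hx) e he⟩) hQ
    (fun q hq x e he => (hpos q hq).pos x e he)
  have h6 : ∀ i, ExactPair (β i) (ρ i) := fun i =>
    ⟨(smooth_iff _).2 (h1 i).1, (smooth_iff _).2 (h1 i).2.1, (isD_iff _ _).2 (h1 i).2.2⟩
  have h7 : ∀ p, SC.csum (d := d) (X := X) (fun i => φ i p) (ζ p) ρ =
      mixF (fun i => φ i p) (ζ p) ρ := by
    intro p
    funext x
    exact SC.csum_apply (d := d) (X := X) _ (ζ p) ρ x
  refine ⟨n, β, ρ, fun i => φ i, h6, fun i => (φ i).continuous, h2, h3, fun p x hx e he => ?_,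
    fun t h8 h9 p => symp_of hd hvol (hσ.closed p) (mix_closed _ (hζ.closed p) h6) fun x => ?_⟩
  · have h8 := h4 p x ((deg_iff hd hvol (hσ.nonneg p) x).1 hx) e he
    rw [h7 p] at h8
    exact h8
  · have h8 := h5 t h8 h9 p x
    rw [h7 p] at h8
    exact h8

theorem admissible_of (hd : d = 2 * (m + 1)) {vol : TopForm (ES d) X m} (hvol : IsVolume vol)
    {Q : Set P} {σ ζ : P → Form (ES d) X 2} (hσ : IsFamily vol σ) (hζ : ClosedFam ζ)
    {n : ℕ} {α : Fin n → Form (ES d) X 1} {ρ : Fin n → Form (ES d) X 2} {φ : Fin n → P → ℝ}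
    (h : CompressionTo vol Q σ ζ α ρ φ) (p : P) : Admissible vol (σ p) (ζ p) := by
  rw [admissible_iff hd hvol (hσ.closed p) (hσ.nonneg p) (hζ.closed p)]
  have h7 : SC.csum (d := d) (X := X) (fun i => φ i p) (ζ p) ρ =
      mixF (fun i => φ i p) (ζ p) ρ := by
    funext x
    exact SC.csum_apply (d := d) (X := X) _ (ζ p) ρ x
  obtain ⟨ρ', hρ', hpos⟩ := SC.dir_exists (d := d) (m := m) (X := X) hd (vol := toTop vol)
    (vol_of hvol) (σ := σ p) (ζ := ζ p) (c := fun i => φ i p) (fun i => h.nonneg i p) (ρ := ρ)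
    (fun i => (exactF_iff (ρ i)).2 ⟨α i, h.exact i⟩) (fun x hx e he => by
      rw [h7]
      exact h.pos p x ((deg_iff hd hvol (hσ.nonneg p) x).2 hx) e he)
  obtain ⟨α', hα'⟩ := (exactF_iff ρ').1 hρ'
  exact ⟨α', ρ', hα', fun x hx e he =>
    hpos x ((deg_iff hd hvol (hσ.nonneg p) x).1 hx) e he⟩

omit [CompactSpace X] [T2Space X] in
theorem mix_fam {ζ : P → Form (ES d) X 2} (hζ : ClosedFam ζ)
    {n : ℕ} {ρ : Fin n → Form (ES d) X 2} (hρ : ∀ i, IsSmooth (ρ i)) {φ : Fin n → P → ℝ}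
    (hφ : ∀ i, Continuous (φ i)) :
    R772.ContFam (d := d) (X := X) (fun p => mixF (fun i => φ i p) (ζ p) ρ) := by
  have h1 := SC.csum_fam (d := d) (X := X) (c := φ) hφ (ζ := ζ) hζ.cont (ρ := ρ)
    (fun i => (smooth_iff _).1 (hρ i))
  have h7 : (fun p => SC.csum (d := d) (X := X) (fun i => φ i p) (ζ p) ρ) =
      fun p => mixF (fun i => φ i p) (ζ p) ρ := by
    funext p x
    exact SC.csum_apply (d := d) (X := X) _ (ζ p) ρ x
  rw [h7] at h1
  exact h1

omit [T2Space X] in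
theorem compression_unique (hd : d = 2 * (m + 1)) {vol : TopForm (ES d) X m}
    (hvol : IsVolume vol) [CompactSpace P] {Q : Set P}
    {σ ζ : P → Form (ES d) X 2} (hσ : IsFamily vol σ) (hζ : ClosedFam ζ)
    {n : ℕ} {α : Fin n → Form (ES d) X 1} {ρ : Fin n → Form (ES d) X 2} {φ : Fin n → P → ℝ}
    (h : CompressionTo vol Q σ ζ α ρ φ)
    {n' : ℕ} {α' : Fin n' → Form (ES d) X 1} {ρ' : Fin n' → Form (ES d) X 2}
    {φ' : Fin n' → P → ℝ} (h' : CompressionTo vol Q σ ζ α' ρ' φ') :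
    ∃ t₀ : ℝ, 0 < t₀ ∧ ∀ t : ℝ, 0 < t → t ≤ t₀ → ∀ s : ℝ, 0 ≤ s → s ≤ 1 → ∀ p,
      IsPosSymplectic vol (comb (σ p) t (seg (mixF (fun i => φ i p) (ζ p) ρ)
        (mixF (fun i => φ' i p) (ζ p) ρ') s)) := by
  obtain ⟨t₀, ht₀, ht⟩ := SC.famU (d := d) (m := m) (X := X) hd (vol := toTop vol)
    (vol_of hvol) (σ := σ) (η₁ := fun p => mixF (fun i => φ i p) (ζ p) ρ)
    (η₂ := fun p => mixF (fun i => φ' i p) (ζ p) ρ') hσ.cont
    (mix_fam hζ (fun i => (h.exact i).smooth_d) h.cont)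
    (mix_fam hζ (fun i => (h'.exact i).smooth_d) h'.cont)
    (fun p x e he => hσ.nonneg p x e he)
    (fun p x hx e he => h.pos p x ((deg_iff hd hvol (hσ.nonneg p) x).2 hx) e he)
    (fun p x hx e he => h'.pos p x ((deg_iff hd hvol (hσ.nonneg p) x).2 hx) e he)
  refine ⟨t₀, ht₀, fun t h0 h1 s hs0 hs1 p => symp_of hd hvol (hσ.closed p) ?_
    fun x => ht t h0 h1 s hs0 hs1 p x⟩
  have k1 := mix_closed (fun i => φ i p) (hζ.closed p) h.exact
  have k2 := mix_closed (fun i => φ' i p) (hζ.closed p) h'.exact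
  exact seg_closed k1 k2 s

theorem family_tfae [MeasurableSpace X] [BorelSpace X] (hd : d = 2 * (m + 1))
    {vol : TopForm (ES d) X m} (hvol : IsVolume vol) [CompactSpace P] [T2Space P] {Q : Set P}
    (hQ : IsClosed Q) {σ ζ : P → Form (ES d) X 2} (hσ : IsFamily vol σ) (hζ : ClosedFam ζ)
    (hpos : ∀ q ∈ Q, IsPosSymplectic vol (σ q)) :
    List.TFAE [
      ∀ p, Admissible vol (σ p) (ζ p),
      ∀ (p : P) (μ : Measure X), Extremal vol (σ p) μ → 0 < ∫ x, density vol (σ p) (ζ p) x ∂μ,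
      ∀ (p : P) (C : Set X), TestSet vol (σ p) C →
        ∃ (α : Form (ES d) X 1) (ρ : Form (ES d) X 2), ExactPair α ρ ∧
          SemiPos vol (σ p) (addF (ζ p) ρ) C,
      ∃ (n : ℕ) (α : Fin n → Form (ES d) X 1) (ρ : Fin n → Form (ES d) X 2)
        (φ : Fin n → P → ℝ), CompressionTo vol Q σ ζ α ρ φ] := by
  tfae_have 1 ↔ 2 := by
    have h1 := fun p => (one_tfae hd hvol (hσ.closed p) (hσ.nonneg p) (hζ.closed p)).out 0 1
    exact ⟨fun h p => (h1 p).1 (h p), fun h p => (h1 p).2 (h p)⟩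
  tfae_have 1 ↔ 3 := by
    have h1 := fun p => tests hd vol hvol (σ p) (hσ.closed p) (hσ.nonneg p) (ζ p) (hζ.closed p)
    exact ⟨fun h p => (h1 p).1 (h p), fun h p => (h1 p).2 (h p)⟩
  tfae_have 1 → 4 := exists_compression hd hvol hQ hσ hζ hpos
  tfae_have 4 → 1 := by
    rintro ⟨n, α, ρ, φ, h⟩ p
    exact admissible_of hd hvol hσ hζ h p
  tfae_finish

end

end Run7.h752.SYX
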