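import Pool.Agent.Q130.SF.Ext
import Pool.Agent.Run7.h752.SC.FamZ2

/-!
# Families of forms, continuous in the `C^∞` topology: filling spheres (helper752)
-/

set_option autoImplicit false

open Set Filter Topology MeasureTheory Metric
open scoped Manifold ContDiff

noncomputable section

namespace Run7.h752.SC

open Pool.Agent.Y501.SY hiding wedge
open Pool.Agent.Q130.SF

section

variable {d : ℕ} {X : Type} [TopologicalSpace X] [ChartedSpace (E d) X]
  {P P' : Type} [TopologicalSpace P] [TopologicalSpace P']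

theorem cfam_comp {k : ℕ} {N : Set P'} {Ω : P → Form d X k} (h : CFam univ Ω) {r : P' → P}
    (hr : ContinuousOn r N) : CFam N (fun p => Ω (r p)) := by
  intro U φ hU hφ j
  have h1 := h U φ hU hφ j
  have h2 : ContinuousOn (fun q : P' × E d => (r q.1, q.2)) (N ×ˢ U) :=
    (hr.comp continuousOn_fst fun q hq => hq.1).prodMk continuousOn_snd
  exact h1.comp h2 fun q hq => ⟨trivial, hq.2⟩

/-- `C^∞`-continuous families -/
def SF {k : ℕ} (Ω : P → Form d X k) : Prop := (∀ p, IsSmooth (Ω p)) ∧ CFam univ Ω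

theorem SF.comp {k : ℕ} {Ω : P → Form d X k} (h : SF Ω) {r : P' → P} (hr : Continuous r) :
    SF (fun p => Ω (r p)) :=
  ⟨fun p => h.1 (r p), cfam_comp h.2 hr.continuousOn⟩

theorem SF.add {k : ℕ} {Ω Ω' : P → Form d X k} (h : SF Ω) (h' : SF Ω') :
    SF (fun p => Ω p + Ω' p) :=
  ⟨fun p => smooth_add (h.1 p) (h'.1 p), h.2.add h'.2 (fun p _ => h.1 p) (fun p _ => h'.1 p)⟩

theorem SF.const {k : ℕ} {ρ : Form d X k} (h : IsSmooth ρ) : SF (fun _ : P => ρ) :=
  ⟨fun _ => h, CFam.const h⟩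

theorem SF.smul {k : ℕ} {Ω : P → Form d X k} (h : SF Ω) {c : P → ℝ} (hc : Continuous c) :
    SF (fun p => c p • Ω p) := by
  obtain ⟨h1, h2⟩ := CFam.cut (G := univ) h.2 isOpen_univ hc (subset_univ _) (fun p _ => h.1 p)
  exact ⟨h2, h1⟩

theorem SF.sum {k n : ℕ} {Ω : Fin n → P → Form d X k} (h : ∀ i, SF (Ω i)) :
    SF (fun p => ∑ i, Ω i p) := by
  obtain ⟨h1, h2⟩ := CFam.sum (S := univ) Finset.univ (fun i => (h i).2) (fun i p _ => (h i).1 p)
  exact ⟨fun p => h2 p trivial, h1⟩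

theorem SF.lin {n : ℕ} {ρ : Fin n → Form d X 2} (hρ : ∀ i, IsSmooth (ρ i)) {φ : Fin n → P → ℝ}
    (hφ : ∀ i, Continuous (φ i)) :
    SF (d := d) (X := X) (fun p : P => fun x => ∑ i, φ i p • ρ i x) := by
  have h1 := SF.sum (P := P) (n := n) (Ω := fun i p => φ i p • ρ i) fun i =>
    SF.smul (c := fun p => φ i p) (SF.const (hρ i)) (hφ i)
  have h2 : (fun p : P => (fun x => ∑ i, φ i p • ρ i x : Form d X 2)) =
      fun p => ∑ i, φ i p • ρ i := by
    funext p x
    rw [Finset.sum_apply]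
    rfl
  rw [h2]
  exact h1

theorem SF.comb {Ω : P → Form d X 2} (h : SF Ω) {n : ℕ} {ρ : Fin n → Form d X 2}
    (hρ : ∀ i, IsSmooth (ρ i)) {φ : Fin n → P → ℝ} (hφ : ∀ i, Continuous (φ i)) :
    SF (d := d) (X := X)
      (fun q : ℝ × P => fun x => Ω q.2 x + q.1 • ∑ i, φ i q.2 • ρ i x) :=
  (SF.comp (P' := ℝ × P) h (r := fun q => q.2) continuous_snd).add
    (SF.smul (c := fun q : ℝ × P => q.1) (SF.comp (P' := ℝ × P) (SF.lin hρ hφ)
      (r := fun q => q.2) continuous_snd) continuous_fst)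

/-- the unit ball and the unit sphere -/
abbrev Ball (k : ℕ) : Type := closedBall (0 : EuclideanSpace ℝ (Fin k)) 1
/-- the unit sphere -/
abbrev Sph (k : ℕ) : Type := sphere (0 : EuclideanSpace ℝ (Fin k)) 1

/-- the inclusion of the sphere -/
def bd {k : ℕ} (q : Sph k) : Ball k := ⟨q.1, sphere_subset_closedBall q.2⟩

/-- every sphere in `S` is filled by a ball in `S` -/
def Fill (S : Set (Form d X 2)) : Prop :=
  ∀ (k : ℕ) (f : Sph k → Form d X 2), SF f → (∀ q, f q ∈ S) →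
    ∃ F : Ball k → Form d X 2, SF F ∧ (∀ p, F p ∈ S) ∧ ∀ q : Sph k, F (bd q) = f q

/-- the retraction of the ball of radius 2, after a dilation -/
def rr {k : ℕ} (v : Ball k) : Ball k :=
  ⟨(max 1 (2 * ‖v.1‖))⁻¹ • ((2 : ℝ) • v.1), by
    rw [mem_closedBall_zero_iff, norm_smul, norm_smul, norm_inv, Real.norm_eq_abs,
      Real.norm_eq_abs, abs_two, abs_of_pos (lt_of_lt_of_le one_pos (le_max_left _ _))]
    rw [inv_mul_le_iff₀ (lt_of_lt_of_le one_pos (le_max_left _ _)), mul_one]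
    exact le_max_right _ _⟩

theorem rr_cont {k : ℕ} : Continuous (rr (k := k)) := by
  refine Continuous.subtype_mk ?_ _
  have h1 : Continuous fun v : Ball k => max 1 (2 * ‖v.1‖) :=
    continuous_const.max (continuous_const.mul continuous_subtype_val.norm)
  exact (h1.inv₀ fun v => (lt_of_lt_of_le one_pos (le_max_left _ _)).ne').smul
    (continuous_subtype_val.const_smul (2 : ℝ))

open Classical in
/-- the direction of a vector -/
def nn {k : ℕ} (q₀ : Sph k) (v : Ball k) : Sph k :=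
  if h : v.1 ≠ 0 then ⟨‖v.1‖⁻¹ • v.1, by
    rw [mem_sphere_zero_iff_norm, norm_smul, norm_inv, norm_norm,
      inv_mul_cancel₀ (norm_ne_zero_iff.2 h)]⟩ else q₀

theorem nn_val {k : ℕ} (q₀ : Sph k) {v : Ball k} (h : v.1 ≠ 0) :
    (nn q₀ v).1 = ‖v.1‖⁻¹ • v.1 := by
  unfold nn
  rw [dif_pos h]

theorem nn_cont {k : ℕ} (q₀ : Sph k) : ContinuousOn (nn q₀) {v | v.1 ≠ 0} := by
  rw [IsInducing.subtypeVal.continuousOn_iff]
  have h1 : ContinuousOn (fun v : Ball k => ‖v.1‖⁻¹ • v.1) {v | v.1 ≠ 0} :=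
    (continuous_subtype_val.norm.continuousOn.inv₀ fun v hv => norm_ne_zero_iff.2 hv).smul
      continuous_subtype_val.continuousOn
  exact h1.congr fun v hv => nn_val q₀ hv

theorem rr_eq {k : ℕ} (q₀ : Sph k) {v : Ball k} (h : 1 / 2 ≤ ‖v.1‖) :
    rr v = bd (nn q₀ v) := by
  have h0 : v.1 ≠ 0 := by
    intro h1
    rw [h1, norm_zero] at h
    linarith
  refine Subtype.ext ?_
  change (max 1 (2 * ‖v.1‖))⁻¹ • ((2 : ℝ) • v.1) = (nn q₀ v).1
  rw [nn_val q₀ h0, max_eq_right (by linarith), smul_smul]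
  congr 1
  rw [mul_inv, mul_comm, ← mul_assoc, mul_inv_cancel₀ (two_ne_zero), one_mul]

theorem nn_bd {k : ℕ} (q₀ q : Sph k) : nn q₀ (bd q) = q := by
  have h : ‖q.1‖ = 1 := mem_sphere_zero_iff_norm.1 q.2
  have h0 : (bd q).1 ≠ 0 := by
    change q.1 ≠ 0
    rw [← norm_ne_zero_iff, h]
    exact one_ne_zero
  refine Subtype.ext ?_
  rw [nn_val q₀ h0]
  change ‖q.1‖⁻¹ • q.1 = q.1
  rw [h, inv_one, one_smul]

theorem lin_aux (a b : Form d X 2) (s : ℝ) : a + b + (s - 1) • b = a + s • b := by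
  funext x
  ext u
  change a x u + b x u + (s - 1) * b x u = a x u + s * b x u
  ring

/-- **filling spheres in the larger set** -/
theorem fill_up {S N : Set (Form d X 2)} (hSN : S ⊆ N)
    (hcomp : ∀ (P : Type) [TopologicalSpace P] [CompactSpace P] [T2Space P]
      (σ : P → Form d X 2), SF σ → (∀ p, σ p ∈ N) → ∃ η : P → Form d X 2, SF η ∧
        ∀ t : ℝ, 0 < t → t ≤ 1 → ∀ p, σ p + t • η p ∈ S)
    (hS : Fill S) : Fill N := by
  intro k f hf hfN
  rcases isEmpty_or_nonempty (Sph k) with hE | ⟨⟨q₀⟩⟩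
  · obtain ⟨F, h1, h2, -⟩ := hS k f hf (fun q => (hE.false q).elim)
    exact ⟨F, h1, fun p => hSN (h2 p), fun q => (hE.false q).elim⟩
  obtain ⟨η, hη, hηS⟩ := hcomp (Sph k) f hf hfN
  obtain ⟨G, hG, hGS, hGb⟩ := hS k (fun q => f q + η q) (hf.add hη) (fun q => by
    have := hηS 1 one_pos le_rfl q
    rwa [one_smul] at this)
  let s : Ball k → ℝ := fun v => min 1 (2 * (1 - ‖v.1‖))
  have hs : Continuous s := continuous_const.min
    (continuous_const.mul (continuous_const.sub continuous_subtype_val.norm))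
  have hts : tsupport (fun v => s v - 1) ⊆ {v | v.1 ≠ 0} := by
    have h1 : tsupport (fun v => s v - 1) ⊆ {v : Ball k | 1 / 2 ≤ ‖v.1‖} := by
      refine closure_minimal ?_ (isClosed_le continuous_const continuous_subtype_val.norm)
      intro v hv
      by_contra hcon
      apply hv
      change ¬ (1 / 2 ≤ ‖v.1‖) at hcon
      rw [not_le] at hcon
      change min 1 (2 * (1 - ‖v.1‖)) - 1 = 0
      rw [min_eq_left (by linarith), sub_self]
    intro v hv h0
    have h2 : 1 / 2 ≤ ‖v.1‖ := h1 hv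
    rw [h0, norm_zero] at h2
    linarith
  have hopen : IsOpen {v : Ball k | v.1 ≠ 0} :=
    isOpen_ne_fun continuous_subtype_val continuous_const
  obtain ⟨c1, c2⟩ := CFam.cut (G := {v : Ball k | v.1 ≠ 0})
    (A := fun v => η (nn q₀ v)) (cfam_comp hη.2 (nn_cont q₀)) hopen
    (f := fun v => s v - 1) (hs.sub continuous_const) hts (fun v _ => hη.1 _)
  have hbig : ∀ v : Ball k, 1 / 2 ≤ ‖v.1‖ → G (rr v) + (s v - 1) • η (nn q₀ v) =
      f (nn q₀ v) + s v • η (nn q₀ v) := by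
    intro v hv
    rw [rr_eq q₀ hv, hGb]
    exact lin_aux _ _ _
  refine ⟨fun v => G (rr v) + (s v - 1) • η (nn q₀ v), (hG.comp rr_cont).add ⟨c2, c1⟩,
    fun v => ?_, fun q => ?_⟩
  · rcases lt_or_ge ‖v.1‖ (1 / 2) with h | h
    · have h1 : s v = 1 := min_eq_left (by linarith)
      change G (rr v) + (s v - 1) • η (nn q₀ v) ∈ N
      rw [h1, sub_self, zero_smul, add_zero]
      exact hSN (hGS _)
    · change G (rr v) + (s v - 1) • η (nn q₀ v) ∈ N
      rw [hbig v h]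
      have hv1 : ‖v.1‖ ≤ 1 := mem_closedBall_zero_iff.1 v.2
      have h2 : 0 ≤ s v := le_min zero_le_one (by linarith)
      rcases h2.eq_or_lt with h3 | h3
      · rw [← h3, zero_smul, add_zero]
        exact hfN _
      · exact hSN (hηS _ h3 (min_le_left _ _) _)
  · have h1 : ‖q.1‖ = 1 := mem_sphere_zero_iff_norm.1 q.2
    have h2 : (1 : ℝ) / 2 ≤ ‖(bd q).1‖ := by
      change (1 : ℝ) / 2 ≤ ‖q.1‖
      rw [h1]
      norm_num
    have h3 : s (bd q) = 0 := by
      change min 1 (2 * (1 - ‖q.1‖)) = 0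
      rw [h1]
      norm_num
    change G (rr (bd q)) + (s (bd q) - 1) • η (nn q₀ (bd q)) = f q
    rw [hbig _ h2, h3, zero_smul, add_zero, nn_bd]

/-- **filling spheres in the smaller set** -/
theorem fill_down {S N : Set (Form d X 2)} (hSN : S ⊆ N)
    (hcomp : ∀ (P : Type) [TopologicalSpace P] [CompactSpace P] [T2Space P] (Q : Set P)
      (σ : P → Form d X 2), IsClosed Q → SF σ → (∀ p, σ p ∈ N) → (∀ q ∈ Q, σ q ∈ S) →
      ∃ η : P → Form d X 2, SF η ∧ (∀ q ∈ Q, η q = 0) ∧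
        ∀ t : ℝ, 0 < t → t ≤ 1 → ∀ p, σ p + t • η p ∈ S)
    (hN : Fill N) : Fill S := by
  intro k f hf hfS
  obtain ⟨F, h1, h2, h3⟩ := hN k f hf (fun q => hSN (hfS q))
  have hcl : IsClosed (range (bd (k := k))) := by
    have h4 : range (bd (k := k)) = {v : Ball k | ‖v.1‖ = 1} := by
      ext v
      constructor
      · rintro ⟨q, rfl⟩
        exact mem_sphere_zero_iff_norm.1 q.2
      · intro hv
        exact ⟨⟨v.1, mem_sphere_zero_iff_norm.2 hv⟩, rfl⟩
    rw [h4]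
    exact isClosed_eq continuous_subtype_val.norm continuous_const
  obtain ⟨η, g1, g2, g3⟩ := hcomp (Ball k) (range bd) F hcl h1 h2 (by
    rintro _ ⟨q, rfl⟩
    rw [h3]
    exact hfS q)
  refine ⟨fun p => F p + (1 : ℝ) • η p, h1.add (g1.smul continuous_const),
    fun p => g3 1 one_pos le_rfl p, fun q => ?_⟩
  change F (bd q) + (1 : ℝ) • η (bd q) = f q
  rw [g2 _ ⟨q, rfl⟩, smul_zero, add_zero, h3]

end

end Run7.h752.SC
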