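import Pool.Agent.Run7.h752.SC.PubW
import Pool.Agent.Run7.h752.SC.CInf
import Pool.Agent.Run7.h752.SC.BridgeY

/-!
Spheres in the spaces of symplectic forms and of their limits in terms of the public definitions.
-/

set_option autoImplicit false

open Set Filter Topology MeasureTheory Metric
open scoped Manifold ContDiff NNReal

noncomputable section

namespace Run7.h752.SYX

open Pool.Agent.Y501.SYP
open Pool.Agent.Y501
open Pool.Agent.R772.SYK
open Pool.Agent.R772.SYG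
open Pool.Agent.R772.SYF
open Pool.Agent.R772.SYD
open Pool.Agent.R772.SYM
open Pool.Agent

section

variable {m d : ℕ} {X : Type} [TopologicalSpace X] [ChartedSpace (ES d) X]
  {P : Type} [TopologicalSpace P]

attribute [local instance] Pool.Agent.Y501.SYP.cs
attribute [local instance] Pool.Agent.Y501.SYP.mf

theorem sf_iff {k : ℕ} (Ω : P → Form (ES d) X k) :
    SmoothFam Ω ↔ SC.SF (d := d) (X := X) Ω := by
  constructor
  · rintro ⟨h1, h2⟩
    exact ⟨fun p => (smooth_iff _).1 (h1 p), fun U φ hU hφ => h2 U φ ⟨hU, hφ⟩⟩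
  · rintro ⟨h1, h2⟩
    exact ⟨fun p => (smooth_iff _).2 (h1 p), fun U φ hφ => h2 U φ hφ.1 hφ.2⟩

theorem wc_iff (S : Set (Form (ES d) X 2)) :
    WeaklyContractible S ↔ SC.Fill (d := d) (X := X) S := by
  constructor
  · intro h k f hf hS
    obtain ⟨F, h1, h2, h3⟩ := h k f ((sf_iff f).2 hf) hS
    exact ⟨F, (sf_iff F).1 h1, h2, h3⟩
  · intro h k f hf hS
    obtain ⟨F, h1, h2, h3⟩ := h k f ((sf_iff f).1 hf) hS
    exact ⟨F, (sf_iff F).2 h1, h2, h3⟩

variable [IsManifold 𝓘(ℝ, ES d) ∞ X]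

theorem SmoothFam.contFamily {Ω : P → Form (ES d) X 2} (h : SmoothFam Ω) : ContFamily Ω := by
  intro z
  exact Q130.SF.CFam.zero (d := d) (X := X) ((sf_iff Ω).1 h).2 (chartAt (ES d) z).open_target
    (contMDiffOn_chart_symm (I := 𝓘(ℝ, ES d)) (x := z))

omit [IsManifold 𝓘(ℝ, ES d) ∞ X] in
theorem mix_zero {n : ℕ} (c : Fin n → ℝ) (ρ : Fin n → Form (ES d) X 2) :
    mixF c (zeroF (ES d) X) ρ = lin c ρ := by
  funext x
  show ∑ i, c i • ((0 : Cov (ES d) x) + ρ i x) = ∑ i, c i • ρ i x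
  refine Finset.sum_congr rfl fun i _ => ?_
  rw [zero_add]

omit [IsManifold 𝓘(ℝ, ES d) ∞ X] in
theorem zero_add_form (ρ : Form (ES d) X 2) : addF (zeroF (ES d) X) ρ = ρ := by
  funext x
  show (0 : Cov (ES d) x) + ρ x = ρ x
  rw [zero_add]

omit [IsManifold 𝓘(ℝ, ES d) ∞ X] in
theorem zero_closed : IsClosed2 (zeroF (ES d) X) := by
  refine ⟨(smooth_iff _).2 ?_, (closed_iff _).2 ?_⟩
  · exact SY.IsSmooth.zero (d := d) (X := X) (k := 2)
  · exact SY.IsD.zero (d := d) (X := X)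

omit [IsManifold 𝓘(ℝ, ES d) ∞ X] in
theorem zero_fam : ClosedFam (fun _ : P => zeroF (ES d) X) :=
  ⟨R772.ContFam.zero (P := P) (d := d) (X := X), fun _ => zero_closed⟩

omit [IsManifold 𝓘(ℝ, ES d) ∞ X] in
theorem lin_exact {n : ℕ} {α : Fin n → Form (ES d) X 1} {ρ : Fin n → Form (ES d) X 2}
    (h : ∀ i, ExactPair (α i) (ρ i)) (c : Fin n → ℝ) (t : ℝ) {α₀ : Form (ES d) X 1}
    {ρ₀ : Form (ES d) X 2} (h₀ : ExactPair α₀ ρ₀) :
    ∃ α' : Form (ES d) X 1, ExactPair α' (comb ρ₀ t (lin c ρ)) := by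
  obtain ⟨β, h1, h2, h3⟩ := SC.exactF_sum (d := d) (X := X) (ρ := ρ)
    (fun i => (exactF_iff (ρ i)).2 ⟨α i, h i⟩) c Finset.univ
  have h4 := (smooth_iff α₀).1 h₀.smooth
  have h5 := (smooth_iff ρ₀).1 h₀.smooth_d
  have h6 := (isD_iff α₀ ρ₀).1 h₀.isD
  have h7 := SC.lin_eq (d := d) (X := X) ρ c
  rw [← h7] at h2 h3
  exact (exactF_iff (comb ρ₀ t (lin c ρ))).1 ⟨_, h4.add (h1.smul t), h5.add (h2.smul t),
    h6.add (h3.smul t) h4 (h1.smul t)⟩

omit [IsManifold 𝓘(ℝ, ES d) ∞ X] in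
theorem comb_class {σ₀ τ : Form (ES d) X 2} (h : InClass σ₀ τ) {n : ℕ}
    {α : Fin n → Form (ES d) X 1} {ρ : Fin n → Form (ES d) X 2}
    (hρ : ∀ i, ExactPair (α i) (ρ i)) (c : Fin n → ℝ) (t : ℝ)
    (hc : IsClosed2 (comb τ t (lin c ρ))) : InClass σ₀ (comb τ t (lin c ρ)) := by
  refine ⟨hc, ?_⟩
  obtain ⟨α₀, ρ₀, h1, rfl⟩ := h.coh
  obtain ⟨α', h2⟩ := lin_exact hρ c t h1
  refine ⟨α', _, h2, ?_⟩
  funext x
  show (σ₀ x + ρ₀ x) + t • lin c ρ x = σ₀ x + (ρ₀ x + t • lin c ρ x)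
  rw [add_assoc]

omit [IsManifold 𝓘(ℝ, ES d) ∞ X] in
theorem comb_smoothFam {Ω : P → Form (ES d) X 2} (h : SmoothFam Ω) {n : ℕ}
    {ρ : Fin n → Form (ES d) X 2} (hρ : ∀ i, IsSmooth (ρ i)) {φ : Fin n → P → ℝ}
    (hφ : ∀ i, Continuous (φ i)) :
    SmoothFam (fun q : ℝ × P => comb (Ω q.2) q.1 (lin (fun i => φ i q.2) ρ)) := by
  exact (sf_iff _).2 (SC.SF.comb (d := d) (X := X) ((sf_iff Ω).1 h)
    (fun i => (smooth_iff (ρ i)).1 (hρ i)) hφ)

variable [CompactSpace X] [T2Space X]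

theorem limit_tfae [MeasurableSpace X] [BorelSpace X] (hd : d = 2 * (m + 1))
    {vol : TopForm (ES d) X m} (hvol : IsVolume vol) {σ : Form (ES d) X 2} (hσ : IsClosed2 σ)
    (hnn : TopNonneg vol σ) :
    List.TFAE [
      ∀ μ : Measure X, ¬ Extremal vol σ μ,
      ∀ C : Set X, TestSet vol σ C → ∃ (α : Form (ES d) X 1) (ρ : Form (ES d) X 2),
        ExactPair α ρ ∧ SemiPos vol σ ρ C,
      ∃ (α : Form (ES d) X 1) (ρ : Form (ES d) X 2) (c : ℝ), ExactPair α ρ ∧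
        SymplecticUpTo vol σ ρ c] := by
  have h0 : ∀ μ : Measure X, ∫ x, density vol σ (zeroF (ES d) X) x ∂μ = 0 := by
    intro μ
    refine integral_eq_zero_of_ae (Eventually.of_forall fun x => ?_)
    exact R772.md_zero (d := d) (m := m) (X := X) hd (vol_of hvol) σ x
  have h1 := one_tfae hd hvol hσ hnn (zero_closed (d := d) (X := X))
  have h2 := tests hd vol hvol σ hσ hnn _ (zero_closed (d := d) (X := X))
  simp only [zero_add_form] at h2
  have h3 : Admissible vol σ (zeroF (ES d) X) ↔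
      ∃ (α : Form (ES d) X 1) (ρ : Form (ES d) X 2) (c : ℝ), ExactPair α ρ ∧
        SymplecticUpTo vol σ ρ c := by
    unfold Admissible
    simp only [zero_add_form]
  tfae_have 3 ↔ 2 := h2
  tfae_have 3 ↔ 1 := by
    rw [← h3]
    refine (h1.out 0 1).trans (forall_congr' fun μ => ?_)
    rw [h0]
    exact ⟨fun h h' => lt_irrefl _ (h h'), fun h h' => absurd h' h⟩
  tfae_finish

omit [IsManifold 𝓘(ℝ, ES d) ∞ X] [CompactSpace X] [T2Space X] in
theorem symp_limit [MeasurableSpace X] [BorelSpace X] (hd : d = 2 * (m + 1))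
    {vol : TopForm (ES d) X m} (hvol : IsVolume vol) (σ₀ : Form (ES d) X 2) :
    SympClass vol σ₀ ⊆ LimitClass vol σ₀ := by
  rintro τ ⟨h1, h2⟩
  have hnn : TopNonneg vol τ := fun x e he => (h2.pos x e he).le
  refine ⟨h1, hnn, fun μ hμ => ?_⟩
  have h3 : Deg m τ = ∅ := by
    rw [eq_empty_iff_forall_notMem]
    intro x hx
    exact (deg_iff hd hvol hnn x).1 hx (h2.pos x)
  have h4 := hμ.closed.carried
  rw [h3, compl_empty] at h4
  exact hμ.closed.ne (Measure.measure_univ_eq_zero.1 h4)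

theorem compress_class [MeasurableSpace X] [BorelSpace X] (hd : d = 2 * (m + 1))
    {vol : TopForm (ES d) X m} (hvol : IsVolume vol) (σ₀ : Form (ES d) X 2)
    [CompactSpace P] [T2Space P] {Q : Set P} (hQ : IsClosed Q) {Ω : P → Form (ES d) X 2}
    (hΩ : SmoothFam Ω) (hN : ∀ p, Ω p ∈ LimitClass vol σ₀)
    (hS : ∀ q ∈ Q, Ω q ∈ SympClass vol σ₀) :
    ∃ (n : ℕ) (α : Fin n → Form (ES d) X 1) (ρ : Fin n → Form (ES d) X 2)
      (φ : Fin n → P → ℝ), (∀ i, ExactPair (α i) (ρ i)) ∧ (∀ i, Continuous (φ i)) ∧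
      (∀ i p, 0 ≤ φ i p) ∧ (∀ i, ∀ q ∈ Q, φ i q = 0) ∧
      SmoothFam (fun q : ℝ × P => comb (Ω q.2) q.1 (lin (fun i => φ i q.2) ρ)) ∧
      ∀ t : ℝ, 0 < t → t ≤ 1 → ∀ p,
        comb (Ω p) t (lin (fun i => φ i p) ρ) ∈ SympClass vol σ₀ := by
  obtain ⟨n, α, ρ, φ, h⟩ := exists_compression hd hvol hQ (σ := Ω)
    (ζ := fun _ => zeroF (ES d) X) ⟨hΩ.contFamily, fun p => (hN p).1.closed, fun p => (hN p).2.1⟩
    zero_fam (fun q hq => (hS q hq).2) (fun p => by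
      refine ((one_tfae hd hvol (hN p).1.closed (hN p).2.1 zero_closed).out 0 1).2 ?_
      intro μ hμ
      exact absurd hμ ((hN p).2.2 μ))
  refine ⟨n, α, ρ, φ, h.exact, h.cont, h.nonneg, h.zero,
    comb_smoothFam hΩ (fun i => (h.exact i).smooth_d) h.cont, fun t h0 h1 p => ?_⟩
  have h2 := h.symp t h0 h1 p
  rw [mix_zero] at h2
  exact ⟨comb_class (hN p).1 h.exact _ _ h2.closed, h2⟩

theorem weakly_iff [MeasurableSpace X] [BorelSpace X] (hd : d = 2 * (m + 1))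
    {vol : TopForm (ES d) X m} (hvol : IsVolume vol) (σ₀ : Form (ES d) X 2) :
    WeaklyContractible (SympClass vol σ₀) ↔ WeaklyContractible (LimitClass vol σ₀) := by
  rw [wc_iff, wc_iff]
  have key : ∀ (P : Type) [TopologicalSpace P] [CompactSpace P] [T2Space P] (Q : Set P)
      (σ : P → SY.Form d X 2), IsClosed Q → SC.SF (d := d) (X := X) σ →
      (∀ p, σ p ∈ LimitClass vol σ₀) → (∀ q ∈ Q, σ q ∈ SympClass vol σ₀) →
      ∃ η : P → SY.Form d X 2, SC.SF (d := d) (X := X) η ∧ (∀ q ∈ Q, η q = 0) ∧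
        ∀ t : ℝ, 0 < t → t ≤ 1 → ∀ p, σ p + t • η p ∈ SympClass vol σ₀ := by
    intro P _ _ _ Q σ hQ hσ hN hS
    obtain ⟨n, α, ρ, φ, h1, h2, -, h4, -, h6⟩ := compress_class hd hvol σ₀ hQ ((sf_iff σ).2 hσ)
      hN hS
    refine ⟨fun p => lin (fun i => φ i p) ρ, ?_, fun q hq => ?_, fun t h7 h8 p => h6 t h7 h8 p⟩
    · exact SC.SF.lin (d := d) (X := X) (fun i => (smooth_iff (ρ i)).1 (h1 i).smooth_d) h2
    · funext x
      show ∑ i, φ i q • ρ i x = (0 : Cov (ES d) x)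
      refine Finset.sum_eq_zero fun i _ => ?_
      rw [h4 i q hq, zero_smul]
  constructor
  · refine SC.fill_up (d := d) (X := X) (symp_limit hd hvol σ₀) fun P _ _ _ σ hσ hN => ?_
    obtain ⟨η, h1, -, h3⟩ := key P ∅ σ isClosed_empty hσ hN (fun q hq => absurd hq (by simp))
    exact ⟨η, h1, h3⟩
  · exact SC.fill_down (d := d) (X := X) (symp_limit hd hvol σ₀) key

end

end Run7.h752.SYX
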