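import Pool.Agent.Run7.h752.SC.PubLW
import Pool.Agent.Run7.h752.SC.BridgeL
import Pool.Agent.Run7.h752.SC.BridgeW

/-!
Degenerate closed forms in a class without surfaces tangent to the kernel.
-/

set_option autoImplicit false

open Set Filter Topology MeasureTheory Metric
open scoped Manifold ContDiff NNReal

noncomputable section

namespace Run7.h752.SYX

open Pool.Agent.Y501.SYP
open Pool.Agent.Y501
open Pool.Agent.R772.SYK
open Pool.Agent.R772.SYG
open Pool.Agent.R772.SYF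
open Pool.Agent.R772.SYD
open Pool.Agent.R772.SYM
open Pool.Agent

section

variable {m d : ℕ} {X : Type} [TopologicalSpace X] [ChartedSpace (ES d) X]

attribute [local instance] Pool.Agent.Y501.SYP.cs
attribute [local instance] Pool.Agent.Y501.SYP.mf

theorem symp_discless (hd : d = 2 * (m + 1))
    {vol : TopForm (ES d) X m} (hvol : IsVolume vol) (σ₀ : Form (ES d) X 2) :
    SympClass vol σ₀ ⊆ DisclessClass vol σ₀ := by
  rintro τ ⟨h1, h2⟩
  have hnn : TopNonneg vol τ := fun x e he => (h2.pos x e he).le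
  exact ⟨h1, hnn, fun x hx => absurd h2.pos fun h3 => (deg_iff hd hvol hnn x).1 hx (h3 x)⟩

variable [IsManifold 𝓘(ℝ, ES d) ∞ X] [CompactSpace X] [T2Space X]

omit [CompactSpace X] [T2Space X] in
theorem discless_removable {vol : TopForm (ES d) X m} (σ₀ : Form (ES d) X 2) :
    DisclessClass vol σ₀ ⊆ RemovableClass vol σ₀ := by
  rintro τ ⟨h1, h2, h3⟩
  exact ⟨h1, h2, _, removable_of_noDisc h3⟩

theorem removable_limit [MeasurableSpace X] [BorelSpace X] (hd : d = 2 * (m + 1))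
    {vol : TopForm (ES d) X m} (hvol : IsVolume vol) (σ₀ : Form (ES d) X 2) :
    RemovableClass vol σ₀ ⊆ LimitClass vol σ₀ := by
  rintro τ ⟨h1, h2, F, h3⟩
  exact ⟨h1, h2, fun μ hμ => removable_none hd hvol h1.closed h2 h3 hμ⟩

theorem compressible_of [MeasurableSpace X] [BorelSpace X] (hd : d = 2 * (m + 1))
    {vol : TopForm (ES d) X m} (hvol : IsVolume vol) (σ₀ : Form (ES d) X 2)
    {T : Set (Form (ES d) X 2)} (h1 : SympClass vol σ₀ ⊆ T) (h2 : T ⊆ LimitClass vol σ₀) :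
    Compressible (SympClass vol σ₀) T := by
  refine ⟨h1, fun P _ _ _ Q Ω hQ hΩ hT hS => ?_⟩
  obtain ⟨n, α, ρ, φ, h3, h4, -, h6, h7, h8⟩ := compress_class hd hvol σ₀ hQ hΩ
    (fun p => h2 (hT p)) hS
  refine ⟨_, h7, fun p => ?_, fun t q hq => ?_, h8⟩
  · funext x
    show Ω p x + (0 : ℝ) • lin (fun i => φ i p) ρ x = Ω p x
    rw [zero_smul, add_zero]
  · funext x
    show Ω q x + t • ∑ i, φ i q • ρ i x = Ω q x
    rw [Finset.sum_eq_zero fun i _ => by rw [h6 i q hq, zero_smul], smul_zero, add_zero]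

theorem weakly_of [MeasurableSpace X] [BorelSpace X] (hd : d = 2 * (m + 1))
    {vol : TopForm (ES d) X m} (hvol : IsVolume vol) (σ₀ : Form (ES d) X 2)
    {T : Set (Form (ES d) X 2)} (hT : SympClass vol σ₀ ⊆ T) (hT2 : T ⊆ LimitClass vol σ₀) :
    WeaklyContractible (SympClass vol σ₀) ↔ WeaklyContractible T := by
  rw [wc_iff, wc_iff]
  have key : ∀ (P : Type) [TopologicalSpace P] [CompactSpace P] [T2Space P] (Q : Set P)
      (σ : P → SY.Form d X 2), IsClosed Q → SC.SF (d := d) (X := X) σ →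
      (∀ p, σ p ∈ T) → (∀ q ∈ Q, σ q ∈ SympClass vol σ₀) →
      ∃ η : P → SY.Form d X 2, SC.SF (d := d) (X := X) η ∧ (∀ q ∈ Q, η q = 0) ∧
        ∀ t : ℝ, 0 < t → t ≤ 1 → ∀ p, σ p + t • η p ∈ SympClass vol σ₀ := by
    intro P _ _ _ Q σ hQ hσ hN hS
    obtain ⟨n, α, ρ, φ, h1, h2, -, h4, -, h6⟩ := compress_class hd hvol σ₀ hQ ((sf_iff σ).2 hσ)
      (fun p => hT2 (hN p)) hS
    refine ⟨fun p => lin (fun i => φ i p) ρ, ?_, fun q hq => ?_, fun t h7 h8 p => h6 t h7 h8 p⟩
    · exact SC.SF.lin (d := d) (X := X) (fun i => (smooth_iff (ρ i)).1 (h1 i).smooth_d) h2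
    · funext x
      show ∑ i, φ i q • ρ i x = (0 : Cov (ES d) x)
      refine Finset.sum_eq_zero fun i _ => ?_
      rw [h4 i q hq, zero_smul]
  constructor
  · refine SC.fill_up (d := d) (X := X) hT fun P _ _ _ σ hσ hN => ?_
    obtain ⟨η, h1, -, h3⟩ := key P ∅ σ isClosed_empty hσ hN (fun q hq => absurd hq (by simp))
    exact ⟨η, h1, h3⟩
  · exact SC.fill_down (d := d) (X := X) hT key

end

end Run7.h752.SYX
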