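import Pool.Agent.Run7.h752.SC.PubLL
import Pool.Agent.Run7.h752.SC.BridgeL
import Pool.Agent.Run7.h752.LF.Lam5

/-!
Closed currents are integrals of discs tangent to the kernel.
-/

set_option autoImplicit false

open Set Filter Topology MeasureTheory
open scoped Manifold ContDiff NNReal

noncomputable section

namespace Run7.h752.SYX

open Pool.Agent.Y501.SYP
open Pool.Agent.Y501
open Pool.Agent.R772.SYK
open Pool.Agent.R772.SYF
open Pool.Agent.R772.SYD
open Pool.Agent.R772.SYM
open Pool.Agent

section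

variable {m d : ℕ} {X : Type} [TopologicalSpace X] [ChartedSpace (ES d) X]

attribute [local instance] Pool.Agent.Y501.SYP.cs
attribute [local instance] Pool.Agent.Y501.SYP.mf

variable [IsManifold 𝓘(ℝ, ES d) ∞ X] [CompactSpace X] [T2Space X]

/-- closed currents are laminated -/
theorem laminated_of_current [MeasurableSpace X] [BorelSpace X] (hd : d = 2 * (m + 1))
    {vol : TopForm (ES d) X m} (hvol : IsVolume vol) {σ : Form (ES d) X 2} (hσ : IsClosed2 σ)
    (hnn : TopNonneg vol σ) {μ : Measure X} (hμ : IsClosedCurrent vol σ μ) {z : X}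
    (hz : z ∈ μ.support) (hr : PowNe m σ z) : LaminatedAt vol σ μ z := by
  rw [SC.support_eq] at hz
  obtain ⟨g, ε, T, κ, h1, h2, h3, h4, h5, h6, h7, h8, h9, h10, h11, N, hN, h12⟩ :=
    LF.lam_forms (d := d) (m := m) (X := X) hd (vol := toTop vol) (vol_of hvol) (σ := σ)
    ((smooth_iff σ).1 hσ.smooth) (fun x e he => hnn x e he) ((curr_iff hd hvol hnn μ).1 hμ) hz hr
  rw [← SC.support_eq] at h9 h11
  exact ⟨g, ε, T, κ, h1, h2, h3, h4, h5, h6, h7, h8, h9, h10, h11, N, hN, fun η hη h0 =>
    h12 η ((smooth_iff η).1 hη) h0⟩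

end

end Run7.h752.SYX
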