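import Pool.Agent.Run7.h752.SC.MeanK

/-!
# Bounded one-forms on amenable coverings and top powers (helper752)

The averaging of the one-form follows `Pool.Agent.Y501.SY.amenU`.
-/

set_option autoImplicit false

open Set Filter Topology MeasureTheory
open scoped Manifold ContDiff

noncomputable section

namespace Run7.h752.SC

open Pool.Agent.Y501.SY hiding wedge
open Pool.Agent.R772 Pool.Agent.N763.SY

theorem wedge_bdd {P V : Type} [AddCommGroup V] [Module ℝ V] [TopologicalSpace V]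
    {mn : (P → ℝ) → ℝ} (hm : FMean mn) {m : ℕ}
    (s : V [⋀^Fin 2]→L[ℝ] ℝ) (w : P → V [⋀^Fin 2]→L[ℝ] ℝ)
    (h : ∀ u, Bdd (fun p => w p u)) (e : Fin (m + 1) × Fin 2 → V) :
    Bdd (fun p => wedge (Fin.cons (w p) (fun _ : Fin m => s)) e) := by
  have key : ∀ η : V [⋀^Fin 2]→L[ℝ] ℝ, wedge (Fin.cons η (fun _ : Fin m => s)) e =
      ∑ π : Equiv.Perm (Fin (m + 1) × Fin 2), (((Equiv.Perm.sign π : ℤ) : ℝ) *
        ∏ i : Fin m, s ![e (π (i.succ, 0)), e (π (i.succ, 1))]) *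
          η ![e (π (0, 0)), e (π (0, 1))] := by
    intro η
    unfold wedge
    refine Finset.sum_congr rfl fun π _ => ?_
    rw [Fin.prod_univ_succ]
    simp only [Fin.cons_zero, Fin.cons_succ]
    ring
  simp only [key]
  exact (m_sum hm Finset.univ (fun π : Equiv.Perm (Fin (m + 1) × Fin 2) =>
    ((Equiv.Perm.sign π : ℤ) : ℝ) * ∏ i : Fin m, s ![e (π (i.succ, 0)), e (π (i.succ, 1))])
    (fun π p => w p ![e (π (0, 0)), e (π (0, 1))]) (fun π => h _)).1

/-- means are monotone -/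
theorem m_ge {P : Type} {mn : (P → ℝ) → ℝ} (hm : FMean mn) {F : P → ℝ} (hF : Bdd F) {c : ℝ}
    (h : ∀ p, c ≤ F p) : c ≤ mn F := by
  have h1 := hm.nonneg (fun p => F p - c) (by
    obtain ⟨C, hC⟩ := hF
    exact ⟨C + |c|, fun p => (abs_sub _ _).trans (add_le_add (hC p) le_rfl)⟩)
    (fun p => sub_nonneg.2 (h p))
  have h2 : mn (fun p => F p - (fun _ : P => c) p) = mn F - mn (fun _ : P => c) :=
    m_sub hm hF ⟨|c|, fun _ => le_rfl⟩
  rw [m_const hm] at h2
  have h3 : mn (fun p => F p - c) = mn F - c := h2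
  rw [h3] at h1
  linarith

section

variable {d m : ℕ} {Z X : Type} [TopologicalSpace Z] [ChartedSpace (E d) Z]
  [IsManifold (𝓡 d) ∞ Z] [TopologicalSpace X] [ChartedSpace (E d) X]
  [IsManifold (𝓡 d) ∞ X] {Γ : Type} [Group Γ] [MulAction Γ Z]

theorem amen_descend {mn : (Γ → ℝ) → ℝ} (hm : IsMean mn)
    (hsm : ∀ γ : Γ, ContMDiff (𝓡 d) (𝓡 d) ∞ (fun z : Z => γ • z)) {pr : Z → X}
    (hpr : IsLocalDiffeomorph (𝓡 d) (𝓡 d) ∞ pr) (hsurj : Function.Surjective pr)
    (hfib : ∀ z z' : Z, pr z = pr z' ↔ ∃ γ : Γ, γ • z = z')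
    {β : Form d Z 1} {η : Form d Z 2} (hβ : IsSmooth β) (hη : IsSmooth η) (hβη : IsD β η)
    (hbt : BoundedTranslates1 (Γ := Γ) β) :
    ∃ (α₀ : Form d X 1) (ρ₀ : Form d X 2), IsSmooth α₀ ∧ IsSmooth ρ₀ ∧ IsD α₀ ρ₀ ∧
      ∀ (z : Z) (u : Fin 2 → TangentSpace (𝓡 d) z),
        Bdd (fun γ : Γ => pull (d := d) (fun z : Z => γ • z) η z u) ∧
        pull (d := d) pr ρ₀ z u =
          mn (fun γ : Γ => pull (d := d) (fun z : Z => γ • z) η z u) := by
  have hbt2 := Pool.Agent.Y903.SY.t_BT d Z Γ hsm β η hβ hη hβη hbt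
  obtain ⟨β', η', hβ', hη', hβη', hav1, hav2⟩ := Pool.Agent.Y455.SY.t_MEAN1
    Pool.Agent.Y153.SY.t_AVG d Z Γ mn hm hsm β η hβ hη hβη hbt hbt2
  have hcomp : ∀ (γ g : Γ), (fun z : Z => (γ * g) • z) =
      (fun z : Z => γ • z) ∘ (fun z : Z => g • z) := by
    intro γ g
    funext z; exact mul_smul γ g z
  have hinv1 : ∀ g : Γ, pull1 (d := d) (fun z : Z => g • z) β' = β' := by
    intro g
    funext z
    ext u
    have e1 := pull1_apply (fun z : Z => g • z) β' z u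
    rw [e1, (hav1 _ _).2, (hav1 _ _).2]
    have e2 : (fun γ : Γ => pull1 (d := d) (fun z : Z => γ • z) β (g • z)
        ![mfderiv (𝓡 d) (𝓡 d) (fun z : Z => g • z) z (u 0)]) =
        fun γ : Γ => (fun γ : Γ => pull1 (d := d) (fun z : Z => γ • z) β z u) (γ * g) := by
      funext γ
      have h2 : ∀ u : TangentSpace (𝓡 d) z,
          mfderiv (𝓡 d) (𝓡 d) ((fun z : Z => γ • z) ∘ (fun z : Z => g • z)) z u =
          mfderiv (𝓡 d) (𝓡 d) (fun z : Z => γ • z) (g • z)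
            (mfderiv (𝓡 d) (𝓡 d) (fun z : Z => g • z) z u) := by
        intro u
        rw [mfderiv_comp z ((hsm γ (g • z)).mdifferentiableAt (by simp))
          ((hsm g z).mdifferentiableAt (by simp))]
        rfl
      change _ = pull1 (d := d) (fun z : Z => (γ * g) • z) β z u
      rw [hcomp, pull1_apply, pull1_apply, h2]
      rfl
    rw [e2, hm.inv g _ (hav1 z u).1]
  have hinv2 : ∀ g : Γ, pull (d := d) (fun z : Z => g • z) η' = η' := by
    intro g
    funext z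
    ext u
    have hu : ![u 0, u 1] = u := by
      funext i; fin_cases i <;> rfl
    have e1 : pull (d := d) (fun z : Z => g • z) η' z u =
        η' (g • z) ![mfderiv (𝓡 d) (𝓡 d) (fun z : Z => g • z) z (u 0),
          mfderiv (𝓡 d) (𝓡 d) (fun z : Z => g • z) z (u 1)] := by
      rw [← pull_apply, hu]
    rw [e1, (hav2 _ _).2, (hav2 _ _).2]
    have e2 : (fun γ : Γ => pull (d := d) (fun z : Z => γ • z) η (g • z)
        ![mfderiv (𝓡 d) (𝓡 d) (fun z : Z => g • z) z (u 0),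
          mfderiv (𝓡 d) (𝓡 d) (fun z : Z => g • z) z (u 1)]) =
        fun γ : Γ => (fun γ : Γ => pull (d := d) (fun z : Z => γ • z) η z u) (γ * g) := by
      funext γ
      rw [pull_mul hsm, hu]
    rw [e2, hm.inv g _ (hav2 z u).1]
  obtain ⟨α₀, ρ₀, hα₀, hρ₀, hαρ₀, hpα, hpρ⟩ := Pool.Agent.Y945.SY.t_DESC1 d Z X Γ pr hsm hpr
    hsurj hfib β' η' hβ' hη' hβη' hinv1 hinv2
  refine ⟨α₀, ρ₀, hα₀, hρ₀, hαρ₀, fun z u => ⟨(hav2 z u).1, ?_⟩⟩
  rw [hpρ]
  exact (hav2 z u).2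

/-- the products of the translates with the power of `σ` -/
theorem amen_wedge {mn : (Γ → ℝ) → ℝ} (hm : IsMean mn)
    (hsm : ∀ γ : Γ, ContMDiff (𝓡 d) (𝓡 d) ∞ (fun z : Z => γ • z)) {pr : Z → X}
    (hpr : IsLocalDiffeomorph (𝓡 d) (𝓡 d) ∞ pr)
    (hfib : ∀ z z' : Z, pr z = pr z' ↔ ∃ γ : Γ, γ • z = z')
    {η : Form d Z 2} {ρ₀ : Form d X 2}
    (h : ∀ (z : Z) (u : Fin 2 → TangentSpace (𝓡 d) z),
        Bdd (fun γ : Γ => pull (d := d) (fun z : Z => γ • z) η z u) ∧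
        pull (d := d) pr ρ₀ z u =
          mn (fun γ : Γ => pull (d := d) (fun z : Z => γ • z) η z u))
    (θ σ : Form d X 2) (z : Z) (e : Fin (m + 1) × Fin 2 → TangentSpace (𝓡 d) z) {c : ℝ}
    (hc : ∀ γ : Γ, c ≤ wedge (Fin.cons (pull (d := d) (fun z : Z => γ • z)
      (pull (d := d) pr θ + η) z) (fun _ : Fin m => pull (d := d) pr σ z)) e) :
    c ≤ wedge (Fin.cons ((θ + ρ₀) (pr z)) (fun _ : Fin m => σ (pr z)))
      (fun k => mfderiv (𝓡 d) (𝓡 d) pr z (e k)) := by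
  have hF : FMean mn := ⟨hm.add, hm.smul, hm.nonneg, hm.one⟩
  have hprs : ContMDiff (𝓡 d) (𝓡 d) ∞ pr := hpr.contMDiff
  have hprγ : ∀ (γ : Γ) (z : Z), pr (γ • z) = pr z := fun γ z =>
    ((hfib z (γ • z)).2 ⟨γ, rfl⟩).symm
  have e2 : ∀ (γ : Γ) (u : Fin 2 → TangentSpace (𝓡 d) z),
      pull (d := d) (fun z : Z => γ • z) (pull (d := d) pr θ + η) z u =
      pull (d := d) (fun z : Z => γ • z) η z u + pull (d := d) pr θ z u := by
    intro γ u
    have h1 : pull (d := d) (fun z : Z => γ • z) (pull (d := d) pr θ + η) z u =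
      pull (d := d) (fun z : Z => γ • z) (pull (d := d) pr θ) z u +
        pull (d := d) (fun z : Z => γ • z) η z u := rfl
    rw [h1, pull_inv hsm hprs hprγ, add_comm]
  have hb : ∀ u : Fin 2 → TangentSpace (𝓡 d) z, Bdd (fun γ : Γ =>
      pull (d := d) (fun z : Z => γ • z) (pull (d := d) pr θ + η) z u) := by
    intro u
    obtain ⟨C, hC⟩ := (h z u).1
    refine ⟨C + |pull (d := d) pr θ z u|, fun γ => ?_⟩
    change |pull (d := d) (fun z : Z => γ • z) (pull (d := d) pr θ + η) z u| ≤ _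
    rw [e2]
    exact (abs_add_le _ _).trans (add_le_add (hC γ) le_rfl)
  rw [← wedge_pull_cons]
  have h5 := m_wedge hF (m := m) (pull (d := d) pr σ z) (fun γ : Γ =>
    pull (d := d) (fun z : Z => γ • z) (pull (d := d) pr θ + η) z)
    (pull (d := d) pr (θ + ρ₀) z) (fun u => ⟨hb u, by
      have e3 : pull (d := d) pr (θ + ρ₀) z u =
        pull (d := d) pr θ z u + pull (d := d) pr ρ₀ z u := rfl
      rw [e3, (h z u).2]
      simp only [e2]
      have e4 : mn (fun γ : Γ => pull (d := d) (fun z : Z => γ • z) η z u +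
          pull (d := d) pr θ z u) = mn (fun γ : Γ => pull (d := d) (fun z : Z => γ • z) η z u) +
            mn (fun _ : Γ => pull (d := d) pr θ z u) :=
        hF.add _ _ (h z u).1 ⟨_, fun _ => le_rfl⟩
      rw [e4, m_const hF, add_comm]⟩) e
  rw [h5]
  exact m_ge hF (wedge_bdd hF _ _ hb e) hc

end

end Run7.h752.SC
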