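import Pool.Agent.Run7.h752.SC.PubV
import Pool.Agent.Run7.h752.SC.BridgeX
import Pool.Agent.R772.BridgeU

/-!
Symplectic forms near a closed form with nonnegative top power, in a given homotopy class.
-/

set_option autoImplicit false

open Set Filter Topology MeasureTheory
open scoped Manifold ContDiff NNReal

noncomputable section

namespace Run7.h752.SYX

open Pool.Agent.Y501.SYP
open Pool.Agent.Y501
open Pool.Agent.R772.SYK
open Pool.Agent.R772.SYG
open Pool.Agent.R772.SYF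
open Pool.Agent.R772.SYD
open Pool.Agent.R772.SYM
open Pool.Agent.R772.SYU
open Pool.Agent

section

variable {m d : ℕ} {X : Type} [TopologicalSpace X] [ChartedSpace (ES d) X]

attribute [local instance] Pool.Agent.Y501.SYP.cs
attribute [local instance] Pool.Agent.Y501.SYP.mf

variable [IsManifold 𝓘(ℝ, ES d) ∞ X] [CompactSpace X] [T2Space X]

omit [CompactSpace X] [T2Space X] in
theorem posOnDeg_of (hd : d = 2 * (m + 1)) {vol : TopForm (ES d) X m} (hvol : IsVolume vol)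
    {σ θ : Form (ES d) X 2} (hnn : TopNonneg vol σ) {c : ℝ}
    (h : SymplecticUpTo vol σ θ c) : PosOnDeg vol σ θ := by
  intro x hx
  have hx' := (deg_iff hd hvol hnn x).1 hx
  refine (R772.linPos_iff (d := d) (m := m) (X := X) hd (vol_of hvol) σ θ x).2
    (R772.quant_conv (d := d) (m := m) (X := X) hd (vol_of hvol)
    (R772.td_zero (d := d) (m := m) (X := X) hd (vol_of hvol) (fun e he => hnn x e he) hx')
    h.pos (fun t h0 h1 => ?_))
  obtain ⟨f, hf⟩ := (vol_of hvol).frame x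
  have h5 := R772.td_spec (d := d) (m := m) (X := X) hd (vol_of hvol) (comb σ t θ) x f
  have h6 : c * t * vol x f ≤ R772.td (d := d) (m := m) (X := X) (toTop vol)
      (comb σ t θ) x * vol x f := (h.growth t h0 h1 x f hf).trans (le_of_eq h5)
  exact le_of_mul_le_mul_right h6 hf

omit [IsManifold 𝓘(ℝ, ES d) ∞ X] [CompactSpace X] [T2Space X] in
theorem upTo_mono {vol : TopForm (ES d) X m} {σ θ : Form (ES d) X 2} {c c' : ℝ}
    (h : SymplecticUpTo vol σ θ c) (h0 : 0 < c') (h1 : c' ≤ c) : SymplecticUpTo vol σ θ c' := by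
  refine ⟨h0, fun t ht0 ht1 => h.symp t ht0 (ht1.trans h1), fun t ht0 ht1 x e he => ?_⟩
  refine le_trans ?_ (h.growth t ht0 (ht1.trans h1) x e he)
  exact mul_le_mul_of_nonneg_right (mul_le_mul_of_nonneg_right h1 ht0.le) he.le

theorem near_iff (hd : d = 2 * (m + 1)) {vol : TopForm (ES d) X m} (hvol : IsVolume vol)
    {σ θ : Form (ES d) X 2} (hσ : IsClosed2 σ) (hnn : TopNonneg vol σ) (hθ : IsClosed2 θ)
    (τ : Form (ES d) X 2) :
    (∃ c : ℝ, SympHomotopicUpTo vol σ θ τ c) ↔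
      NearHomotopic vol σ τ ∧ ∃ c : ℝ, SymplecticUpTo vol σ θ c := by
  constructor
  · rintro ⟨c, h1, h2⟩
    exact ⟨(homotopy_class hd hvol hσ hnn hθ (posOnDeg_of hd hvol hnn h1)).1
      ⟨c, h1.pos, h2⟩, c, h1⟩
  · rintro ⟨h1, c, h2⟩
    obtain ⟨t₀, ht₀, h3⟩ := (homotopy_class hd hvol hσ hnn hθ
      (posOnDeg_of hd hvol hnn h2)).2 h1
    refine ⟨min c t₀, upTo_mono h2 (lt_min h2.pos ht₀) (min_le_left _ _), fun t h4 h5 =>
      h3 t h4 (h5.trans (min_le_right _ _))⟩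

theorem hom_tfae [MeasurableSpace X] [BorelSpace X] (hd : d = 2 * (m + 1))
    {vol : TopForm (ES d) X m} (hvol : IsVolume vol) {σ : Form (ES d) X 2} (hσ : IsClosed2 σ)
    (hnn : TopNonneg vol σ) (τ : Form (ES d) X 2) {ζ : Form (ES d) X 2} (hζ : IsClosed2 ζ) :
    List.TFAE [
      ∃ (α : Form (ES d) X 1) (ρ : Form (ES d) X 2) (c : ℝ), ExactPair α ρ ∧
        SympHomotopicUpTo vol σ (addF ζ ρ) τ c,
      NearHomotopic vol σ τ ∧
        ∀ μ : Measure X, Extremal vol σ μ → 0 < ∫ x, density vol σ ζ x ∂μ,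
      NearHomotopic vol σ τ ∧ ∀ μ : Measure X, Extremal vol σ μ →
        ∃ (α : Form (ES d) X 1) (ρ : Form (ES d) X 2), ExactPair α ρ ∧
          SemiPos vol σ (addF ζ ρ) μ.support] := by
  have h1 : (∃ (α : Form (ES d) X 1) (ρ : Form (ES d) X 2) (c : ℝ), ExactPair α ρ ∧
        SympHomotopicUpTo vol σ (addF ζ ρ) τ c) ↔
      NearHomotopic vol σ τ ∧ Admissible vol σ ζ := by
    constructor
    · rintro ⟨α, ρ, c, h1, h2⟩
      obtain ⟨h3, c', h4⟩ := (near_iff hd hvol hσ hnn (addF_closed hζ h1) τ).1 ⟨c, h2⟩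
      exact ⟨h3, α, ρ, c', h1, h4⟩
    · rintro ⟨h3, α, ρ, c', h1, h4⟩
      obtain ⟨c, h2⟩ := (near_iff hd hvol hσ hnn (addF_closed hζ h1) τ).2 ⟨h3, c', h4⟩
      exact ⟨α, ρ, c, h1, h2⟩
  have h2 := one_tfae hd hvol hσ hnn hζ
  rw [h1]
  tfae_have 1 ↔ 2 := and_congr_right fun _ => h2.out 0 1
  tfae_have 1 ↔ 3 := and_congr_right fun _ => h2.out 0 2
  tfae_finish

theorem hom_span [MeasurableSpace X] [BorelSpace X] (hd : d = 2 * (m + 1))
    {vol : TopForm (ES d) X m} (hvol : IsVolume vol) {σ : Form (ES d) X 2} (hσ : IsClosed2 σ)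
    (hnn : TopNonneg vol σ) (τ : Form (ES d) X 2) {n : ℕ} {ζ : Fin n → Form (ES d) X 2}
    (hζ : Spans ζ) :
    (∃ (η : Form (ES d) X 2) (c : ℝ), IsClosed2 η ∧ SympHomotopicUpTo vol σ η τ c) ↔
      NearHomotopic vol σ τ ∧ ¬ ∃ (r : ℕ) (μ : Fin r → Measure X), NullSum vol σ ζ r μ := by
  rw [← span_iff hd hvol hσ hnn hζ]
  constructor
  · rintro ⟨η, c, h1, h2⟩
    obtain ⟨h3, c', h4⟩ := (near_iff hd hvol hσ hnn h1 τ).1 ⟨c, h2⟩
    exact ⟨h3, η, c', h1, h4⟩
  · rintro ⟨h3, η, c', h1, h4⟩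
    obtain ⟨c, h2⟩ := (near_iff hd hvol hσ hnn h1 τ).2 ⟨h3, c', h4⟩
    exact ⟨η, c, h1, h2⟩

end

end Run7.h752.SYX
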