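import Pool.Agent.N763.SY.Mean
import Pool.Agent.Run7.h752.SC.FamZ2

/-!
# Means of closed two-forms on normal coverings and top powers (helper752)
-/

set_option autoImplicit false

open Set Filter Topology MeasureTheory
open scoped Manifold ContDiff

noncomputable section

namespace Run7.h752.SC

open Pool.Agent.Y501.SY hiding wedge
open Pool.Agent.R772 Pool.Agent.N763.SY

/-- means commute with the wedge product with a fixed power -/
theorem m_wedge {P V : Type} [AddCommGroup V] [Module ℝ V] [TopologicalSpace V]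
    {mn : (P → ℝ) → ℝ} (hm : FMean mn) {m : ℕ}
    (s : V [⋀^Fin 2]→L[ℝ] ℝ) (w : P → V [⋀^Fin 2]→L[ℝ] ℝ) (W : V [⋀^Fin 2]→L[ℝ] ℝ)
    (h : ∀ u, Bdd (fun p => w p u) ∧ W u = mn (fun p => w p u)) (e : Fin (m + 1) × Fin 2 → V) :
    wedge (Fin.cons W (fun _ : Fin m => s)) e =
      mn (fun p => wedge (Fin.cons (w p) (fun _ : Fin m => s)) e) := by
  have key : ∀ η : V [⋀^Fin 2]→L[ℝ] ℝ, wedge (Fin.cons η (fun _ : Fin m => s)) e =
      ∑ π : Equiv.Perm (Fin (m + 1) × Fin 2), (((Equiv.Perm.sign π : ℤ) : ℝ) *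
        ∏ i : Fin m, s ![e (π (i.succ, 0)), e (π (i.succ, 1))]) *
          η ![e (π (0, 0)), e (π (0, 1))] := by
    intro η
    unfold wedge
    refine Finset.sum_congr rfl fun π _ => ?_
    rw [Fin.prod_univ_succ]
    simp only [Fin.cons_zero, Fin.cons_succ]
    ring
  have h2 := (m_sum hm Finset.univ (fun π : Equiv.Perm (Fin (m + 1) × Fin 2) =>
    ((Equiv.Perm.sign π : ℤ) : ℝ) * ∏ i : Fin m, s ![e (π (i.succ, 0)), e (π (i.succ, 1))])
    (fun π p => w p ![e (π (0, 0)), e (π (0, 1))]) (fun π => (h _).1)).2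
  rw [key W]
  simp only [key]
  rw [h2]
  exact Finset.sum_congr rfl fun π _ => by rw [(h _).2]

section

variable {d m : ℕ} {Z X : Type} [TopologicalSpace Z] [ChartedSpace (E d) Z]
  [IsManifold (𝓡 d) ∞ Z] [TopologicalSpace X] [ChartedSpace (E d) X]
  [IsManifold (𝓡 d) ∞ X]

/-- pull-backs commute with the wedge product -/
theorem wedge_pull {n : ℕ} (pr : Z → X) (s : Fin n → Form d X 2) (z : Z)
    (e : Fin n × Fin 2 → TangentSpace (𝓡 d) z) :
    wedge (fun i => pull (d := d) pr (s i) z) e =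
      wedge (fun i => s i (pr z)) (fun k => mfderiv (𝓡 d) (𝓡 d) pr z (e k)) := by
  unfold wedge
  refine Finset.sum_congr rfl fun π _ => ?_
  congr 1
  refine Finset.prod_congr rfl fun i _ => ?_
  rw [pull_apply]

theorem wedge_pull_cons (pr : Z → X) (σ η : Form d X 2) (z : Z)
    (e : Fin (m + 1) × Fin 2 → TangentSpace (𝓡 d) z) :
    wedge (Fin.cons (pull (d := d) pr η z) (fun _ : Fin m => pull (d := d) pr σ z)) e =
      wedge (Fin.cons (η (pr z)) (fun _ : Fin m => σ (pr z)))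
        (fun k => mfderiv (𝓡 d) (𝓡 d) pr z (e k)) := by
  have h := wedge_pull (n := m + 1) pr (Fin.cons η (fun _ : Fin m => σ)) z e
  have h1 : (fun i => pull (d := d) pr ((Fin.cons η (fun _ : Fin m => σ) :
      Fin (m + 1) → Form d X 2) i) z) =
      Fin.cons (pull (d := d) pr η z) (fun _ : Fin m => pull (d := d) pr σ z) := by
    funext i
    refine Fin.cases ?_ (fun i => ?_) i <;> simp
  have h2 : (fun i => (Fin.cons η (fun _ : Fin m => σ) : Fin (m + 1) → Form d X 2) i (pr z)) =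
      Fin.cons (η (pr z)) (fun _ : Fin m => σ (pr z)) := by
    funext i
    refine Fin.cases ?_ (fun i => ?_) i <;> simp
  rw [h1, h2] at h
  exact h

end

section

variable {d m : ℕ} {Z X : Type} [TopologicalSpace Z] [ChartedSpace (E d) Z]
  [IsManifold (𝓡 d) ∞ Z] [TopologicalSpace X] [ChartedSpace (E d) X]
  [IsManifold (𝓡 d) ∞ X] {G P : Type} [Group G] [MulAction G Z] [MulAction G P]

omit [IsManifold (𝓡 d) ∞ Z] [IsManifold (𝓡 d) ∞ X] [MulAction G P] in
theorem mean_lin {mn : (P → ℝ) → ℝ} (hm : FMean mn) {pr : Z → X} {w : P → Form d Z 2}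
    {ζ ρ : Form d X 2} {z : Z} {u : Fin 2 → TangentSpace (𝓡 d) z}
    (hb : Bdd (fun p : P => w p z u)) (h : pull (d := d) pr ζ z u = mn (fun p : P => w p z u)) :
    Bdd (fun p => (w p + pull (d := d) pr ρ) z u) ∧
      pull (d := d) pr (ζ + ρ) z u = mn (fun p => (w p + pull (d := d) pr ρ) z u) := by
  obtain ⟨C, hC⟩ := hb
  have hb : Bdd (fun _ : P => pull (d := d) pr ρ z u) := ⟨_, fun _ => le_rfl⟩
  constructor
  · exact ⟨C + |pull (d := d) pr ρ z u|, fun p => (abs_add_le _ _).trans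
      (add_le_add (hC p) le_rfl)⟩
  · have e1 : pull (d := d) pr (ζ + ρ) z u =
        pull (d := d) pr ζ z u + pull (d := d) pr ρ z u := rfl
    have e2 : mn (fun p => w p z u + pull (d := d) pr ρ z u) =
        mn (fun p => w p z u) + mn (fun _ : P => pull (d := d) pr ρ z u) :=
      hm.add _ _ ⟨C, hC⟩ hb
    rw [e1, h]
    refine Eq.trans ?_ e2.symm
    rw [m_const hm]

/-- the mean of the family descends, together with the products with powers -/
theorem descend2 {mn : (P → ℝ) → ℝ} (hm : FMean mn)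
    (hinv : ∀ (g : G) (F : P → ℝ), Bdd F → mn (fun p => F (g • p)) = mn F)
    (hsm : ∀ g : G, ContMDiff (𝓡 d) (𝓡 d) ∞ (fun z : Z => g • z)) {pr : Z → X}
    (hpr : IsLocalDiffeomorph (𝓡 d) (𝓡 d) ∞ pr) (hsurj : Function.Surjective pr)
    (hfib : ∀ z z' : Z, pr z = pr z' ↔ ∃ g : G, g • z = z')
    {w : P → Form d Z 2} (hw : ∀ p, IsSmooth (w p)) (hwc : ∀ p, IsClosedForm (w p))
    (heq : ∀ (g : G) (p : P), pull (d := d) (fun z : Z => g • z) (w (g • p)) = w p)
    (hbd : UBF w) :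
    ∃ ζ : Form d X 2, IsSmooth ζ ∧ IsClosedForm ζ ∧
      (∀ (z : Z) (u : Fin 2 → TangentSpace (𝓡 d) z),
        pull (d := d) pr ζ z u = mn (fun p : P => w p z u)) ∧
      ∀ (ρ : Form d X 2) (σ : Form d X 2) (z : Z)
        (e : Fin (m + 1) × Fin 2 → TangentSpace (𝓡 d) z),
        wedge (Fin.cons ((ζ + ρ) (pr z)) (fun _ : Fin m => σ (pr z)))
          (fun k => mfderiv (𝓡 d) (𝓡 d) pr z (e k)) =
        mn (fun p => wedge (Fin.cons ((w p + pull (d := d) pr ρ) z)
          (fun _ : Fin m => pull (d := d) pr σ z)) e) := by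
  obtain ⟨ζ, h1, h2, h3⟩ := descend hm hinv hsm hpr hsurj hfib hw hwc heq hbd
  obtain ⟨w', -, -, hav⟩ := mean_family hm w hw hwc hbd
  refine ⟨ζ, h1, h2, h3, fun ρ σ z e => ?_⟩
  rw [← wedge_pull_cons]
  exact m_wedge hm (pull (d := d) pr σ z) (fun p => (w p + pull (d := d) pr ρ) z)
    (pull (d := d) pr (ζ + ρ) z) (fun u => mean_lin hm (hav z u).1 (h3 z u)) e

/-- forms with the same pull-back are equal -/
theorem pull_inj {pr : Z → X} (hpr : IsLocalDiffeomorph (𝓡 d) (𝓡 d) ∞ pr)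
    (hsurj : Function.Surjective pr) {σ τ : Form d X 2}
    (h : ∀ (z : Z) (u : Fin 2 → TangentSpace (𝓡 d) z),
      pull (d := d) pr σ z u = pull (d := d) pr τ z u) : σ = τ := by
  funext x
  obtain ⟨z, rfl⟩ := hsurj x
  refine form_ext fun v w => ?_
  obtain ⟨a, ha⟩ := (bij_of hpr z).2 v
  obtain ⟨b, hb⟩ := (bij_of hpr z).2 w
  have h1 := h z ![a, b]
  rw [pull_apply, pull_apply, ha, hb] at h1
  exact h1

omit [MulAction G P] in
/-- the constant family of the lift of a closed form -/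
theorem const_fam [Nonempty P]
    (hsm : ∀ g : G, ContMDiff (𝓡 d) (𝓡 d) ∞ (fun z : Z => g • z)) {pr : Z → X}
    (hpr : IsLocalDiffeomorph (𝓡 d) (𝓡 d) ∞ pr)
    (hfib : ∀ z z' : Z, pr z = pr z' ↔ ∃ g : G, g • z = z')
    {τ : Form d X 2} (h1 : IsSmooth τ) (h2 : IsClosedForm τ) :
    IsSmooth (pull (d := d) (X := Z) pr τ) ∧ IsClosedForm (pull (d := d) (X := Z) pr τ) ∧
      (∀ g : G, pull (d := d) (fun z : Z => g • z) (pull (d := d) pr τ) = pull (d := d) pr τ) ∧
      UBF (fun _ : P => pull (d := d) (X := Z) pr τ) := by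
  have hprs : ContMDiff (𝓡 d) (𝓡 d) ∞ pr := hpr.contMDiff
  obtain ⟨e1, e2⟩ := Pool.Agent.Y604.SY.t_PULL d d Z X pr τ hprs h1 h2
  refine ⟨e1, e2, fun g => pull_inv hsm hprs
    (fun γ z => ((hfib z (γ • z)).2 ⟨γ, rfl⟩).symm) τ g, ?_⟩
  intro U φ hU hφ
  have hs := e1 U φ hU hφ
  refine ⟨fun _ => hs, fun n p hp => ?_⟩
  have hc : ContinuousOn (iteratedFDeriv ℝ n (pb φ (pull (d := d) (X := Z) pr τ))) U := by
    intro q hq
    have h1 : ContDiffAt ℝ ∞ (pb φ (pull (d := d) (X := Z) pr τ)) q :=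
      (hs q hq).contDiffAt (hU.mem_nhds hq)
    exact (h1.iteratedFDeriv_right (m := 0) (i := n)
      (by rw [zero_add]; exact_mod_cast le_top)).continuousAt.continuousWithinAt
  have h2 : ContinuousAt
      (fun q => ‖iteratedFDeriv ℝ n (pb φ (pull (d := d) (X := Z) pr τ)) q‖) p :=
    (hc.continuousAt (hU.mem_nhds hp)).norm
  exact ⟨_, h2.eventually (gt_mem_nhds (lt_add_one _)), _, fun q hq _ => le_of_lt hq⟩

end

end Run7.h752.SC
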