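import Pool.Agent.Run7.h752.SC.PubZ
import Pool.Agent.Run7.h752.SC.MeanK
import Pool.Agent.Run7.h752.SC.BridgeX
import Pool.Agent.N763.SY.Bridge

/-!
Means of closed two-forms on normal coverings, and top powers, in terms of the public definitions.
-/

set_option autoImplicit false

open Set Filter Topology MeasureTheory
open scoped Manifold ContDiff NNReal

noncomputable section

namespace Run7.h752.SYX

open Pool.Agent.Y501.SYP
open Pool.Agent.Y501
open Pool.Agent.R772.SYK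
open Pool.Agent.R772.SYF
open Pool.Agent.R772.SYD
open Pool.Agent.R772.SYM
open Pool.Agent.N763.SYM
open Pool.Agent

section

variable {m d : ℕ} {Z X : Type} [TopologicalSpace Z] [ChartedSpace (ES d) Z]
  [TopologicalSpace X] [ChartedSpace (ES d) X]

attribute [local instance] Pool.Agent.Y501.SYP.cs
attribute [local instance] Pool.Agent.Y501.SYP.mf

variable [IsManifold 𝓘(ℝ, ES d) ∞ Z] [IsManifold 𝓘(ℝ, ES d) ∞ X]
  {G P : Type} [Group G] [MulAction G Z] [MulAction G P]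

/-- the mean form on `X` -/
structure IsMeanForm (mn : (P → ℝ) → ℝ) (pr : Z → X) (w : P → Form (ES d) Z 2) (m : ℕ)
    (ζ : Form (ES d) X 2) : Prop where
  closed : IsClosed2 ζ
  lift : ∀ (z : Z) (u : Fin 2 → TangentSpace 𝓘(ℝ, ES d) z),
    lift pr ζ z u = mn (fun p : P => w p z u)
  mixed : ∀ (ρ σ : Form (ES d) X 2) (z : Z) (e : Fam (ES d) m z),
    mixed m σ (pr z) (addF ζ ρ (pr z)) (push pr z e) =
      mn (fun p => mixed m (Pool.Agent.Y501.SYP.lift pr σ) z
        (addF (w p) (Pool.Agent.Y501.SYP.lift pr ρ) z) e)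

theorem exists_mean {mn : (P → ℝ) → ℝ} (hm : InvariantMean G mn) {pr : Z → X}
    (hpr : NormalCovering (ES d) G pr) {w : P → Form (ES d) Z 2} (hw : ClosedFamily G w) :
    ∃ ζ : Form (ES d) X 2, IsMeanForm mn pr w m ζ := by
  obtain ⟨ζ, h1, h2, h3, h4⟩ := SC.descend2 (d := d) (m := m) (Z := Z) (X := X) (G := G) (P := P)
    (fmean_of hm) hm.inv hpr.smooth (pr := pr) hpr.diffeo hpr.surj hpr.orbits
    (w := w) (fun p => (smooth_iff (w p)).1 (hw.smooth p))
    (fun p => (closed_iff (w p)).1 (hw.closed p)) hw.equivariant ((ubf_iff w).1 hw.bounded)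
  exact ⟨ζ, ⟨(smooth_iff ζ).2 h1, (closed_iff ζ).2 h2⟩, h3, h4⟩

omit [IsManifold 𝓘(ℝ, ES d) ∞ Z] [IsManifold 𝓘(ℝ, ES d) ∞ X] [MulAction G P] in
theorem semi_iff {mn : (P → ℝ) → ℝ} {pr : Z → X}
    (hpr : NormalCovering (ES d) G pr) {w : P → Form (ES d) Z 2} {ζ : Form (ES d) X 2}
    (h : IsMeanForm mn pr w m ζ) (vol : TopForm (ES d) X m) (σ ρ : Form (ES d) X 2)
    (C : Set X) : SemiPos vol σ (addF ζ ρ) C ↔
      MeanSemiPos mn pr vol σ (fun p => addF (w p) (lift pr ρ)) C := by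
  have hlift : ∀ (z : Z) (e : Fam (ES d) m (pr z)), ∃ e' : Fam (ES d) m z, push pr z e' = e := by
    intro z e
    choose f hf using fun k => (N763.SY.bij_of (d := d) (X := X) (Z := Z) hpr.diffeo z).2 (e k)
    exact ⟨f, funext hf⟩
  constructor
  · rintro ⟨h1, x, hx, h2⟩
    refine ⟨fun z hz e he => ?_, ?_⟩
    · rw [← h.mixed]
      exact h1 _ hz _ he
    · obtain ⟨z, rfl⟩ := hpr.surj x
      refine ⟨z, hx, fun e he => ?_⟩
      rw [← h.mixed]
      exact h2 _ he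
  · rintro ⟨h1, z, hz, h2⟩
    refine ⟨fun x hx e he => ?_, pr z, hz, fun e he => ?_⟩
    · obtain ⟨z, rfl⟩ := hpr.surj x
      obtain ⟨e', rfl⟩ := hlift z e
      rw [h.mixed]
      exact h1 z hx e' he
    · obtain ⟨e', rfl⟩ := hlift z e
      rw [h.mixed]
      exact h2 e' he

omit [MulAction G P] in
theorem class_iff {mn : (P → ℝ) → ℝ} {pr : Z → X}
    (hpr : NormalCovering (ES d) G pr) {w : P → Form (ES d) Z 2} {ζ : Form (ES d) X 2}
    (h : IsMeanForm mn pr w m ζ) (τ : Form (ES d) X 2) :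
    InMeanClass mn pr w τ ↔ ∃ (α : Form (ES d) X 1) (ρ : Form (ES d) X 2), ExactPair α ρ ∧
      τ = addF ζ ρ := by
  constructor
  · rintro ⟨α, ρ, h1, h2, h3, h4⟩
    refine ⟨α, ρ, ⟨h1, h2, h3⟩, ?_⟩
    refine SC.pull_inj (d := d) (Z := Z) (X := X) hpr.diffeo hpr.surj fun z u => ?_
    have h5 := h4 z u
    rw [← h.lift z u] at h5
    exact h5
  · rintro ⟨α, ρ, ⟨h1, h2, h3⟩, rfl⟩
    refine ⟨α, ρ, h1, h2, h3, fun z u => ?_⟩
    rw [← h.lift z u]
    rfl

theorem mean_tfae [CompactSpace X] [T2Space X] [MeasurableSpace X] [BorelSpace X]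
    (hd : d = 2 * (m + 1)) {vol : TopForm (ES d) X m} (hvol : IsVolume vol)
    {σ : Form (ES d) X 2} (hσ : IsClosed2 σ) (hnn : TopNonneg vol σ)
    {mn : (P → ℝ) → ℝ} (hm : InvariantMean G mn) {pr : Z → X}
    (hpr : NormalCovering (ES d) G pr) {w : P → Form (ES d) Z 2} (hw : ClosedFamily G w) :
    List.TFAE [
      ∃ (τ : Form (ES d) X 2) (c : ℝ), IsClosed2 τ ∧ SymplecticUpTo vol σ τ c ∧
        InMeanClass mn pr w τ,
      ∀ C : Set X, TestSet vol σ C → ∃ (α : Form (ES d) X 1) (ρ : Form (ES d) X 2),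
        ExactPair α ρ ∧ MeanSemiPos mn pr vol σ (fun p => addF (w p) (lift pr ρ)) C,
      ∀ μ : Measure X, Extremal vol σ μ → ∃ (α : Form (ES d) X 1) (ρ : Form (ES d) X 2),
        ExactPair α ρ ∧ MeanSemiPos mn pr vol σ (fun p => addF (w p) (lift pr ρ)) μ.support] := by
  obtain ⟨ζ, hζ⟩ := exists_mean (m := m) hm hpr hw
  have h0 : (∃ (τ : Form (ES d) X 2) (c : ℝ), IsClosed2 τ ∧ SymplecticUpTo vol σ τ c ∧
      InMeanClass mn pr w τ) ↔ Admissible vol σ ζ := by
    constructor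
    · rintro ⟨τ, c, -, h2, h3⟩
      obtain ⟨α, ρ, hα, rfl⟩ := (class_iff hpr hζ τ).1 h3
      exact ⟨α, ρ, c, hα, h2⟩
    · rintro ⟨α, ρ, c, hα, h2⟩
      exact ⟨addF ζ ρ, c, addF_closed hζ.closed hα, h2, (class_iff hpr hζ _).2 ⟨α, ρ, hα, rfl⟩⟩
  rw [h0]
  tfae_have 1 ↔ 2 := by
    rw [show Admissible vol σ ζ ↔ _ from tests hd vol hvol σ hσ hnn ζ hζ.closed]
    refine forall_congr' fun C => forall_congr' fun _ => exists_congr fun α =>
      exists_congr fun ρ => and_congr_right fun _ => semi_iff hpr hζ vol σ ρ C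
  tfae_have 1 ↔ 3 := by
    refine ((one_tfae hd hvol hσ hnn hζ.closed).out 0 2).trans ?_
    refine forall_congr' fun μ => forall_congr' fun _ => exists_congr fun α =>
      exists_congr fun ρ => and_congr_right fun _ => semi_iff hpr hζ vol σ ρ _
  tfae_finish

omit [IsManifold 𝓘(ℝ, ES d) ∞ X] in
theorem exact_zero : ∃ α : Form (ES d) X 1, ExactPair α (zeroF (ES d) X) :=
  (exactF_iff (zeroF (ES d) X)).1 (SC.exactF_zero (d := d) (X := X))

omit [IsManifold 𝓘(ℝ, ES d) ∞ Z] [IsManifold 𝓘(ℝ, ES d) ∞ X] in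
theorem add_lift_zero (pr : Z → X) (w : Form (ES d) Z 2) :
    addF w (lift pr (zeroF (ES d) X)) = w := by
  funext z
  ext u
  show w z u + 0 = w z u
  rw [add_zero]

omit [IsManifold 𝓘(ℝ, ES d) ∞ X] in
theorem add_zeroF (w : Form (ES d) X 2) : addF w (zeroF (ES d) X) = w := by
  funext z
  show w z + 0 = w z
  rw [add_zero]

theorem const_closedFamily [Nonempty P] {pr : Z → X} (hpr : NormalCovering (ES d) G pr)
    {τ : Form (ES d) X 2} (h : IsClosed2 τ) : ClosedFamily G (fun _ : P => lift pr τ) := by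
  obtain ⟨h1, h2, h3, h4⟩ := SC.const_fam (d := d) (Z := Z) (X := X) (G := G) (P := P)
    hpr.smooth (pr := pr) hpr.diffeo hpr.orbits (τ := τ)
    ((smooth_iff τ).1 h.smooth) ((closed_iff τ).1 h.closed)
  exact ⟨fun _ => (smooth_iff _).2 h1, fun _ => (closed_iff _).2 h2, (ubf_iff _).2 h4,
    fun g _ => h3 g⟩

theorem mean_exists [CompactSpace X] [T2Space X]
    (hd : d = 2 * (m + 1)) {vol : TopForm (ES d) X m} (hvol : IsVolume vol)
    {σ : Form (ES d) X 2} (hσ : IsClosed2 σ) (hnn : TopNonneg vol σ)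
    {mn : (P → ℝ) → ℝ} (hm : InvariantMean G mn) {pr : Z → X}
    (hpr : NormalCovering (ES d) G pr) :
    (∃ (τ : Form (ES d) X 2) (c : ℝ), IsClosed2 τ ∧ SymplecticUpTo vol σ τ c) ↔
      ∃ w : P → Form (ES d) Z 2, ClosedFamily G w ∧
        ∀ C : Set X, TestSet vol σ C → MeanSemiPos mn pr vol σ w C := by
  constructor
  · rintro ⟨τ, c, hτ, hs⟩
    obtain ⟨α₀, hα₀⟩ := exact_zero (d := d) (X := X)
    have h1 : Admissible vol σ τ := ⟨α₀, zeroF (ES d) X, c, hα₀, by rw [add_zeroF]; exact hs⟩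
    obtain ⟨α, ρ, hα, hp⟩ := (posOnDeg_sympl hd hvol hσ hτ hnn).1 h1
    have hne := mean_nonempty hm
    refine ⟨fun _ => lift pr (addF τ ρ), const_closedFamily hpr (addF_closed hτ hα),
      fun C hC => ?_⟩
    have key : ∀ (z : Z) (e : Fam (ES d) m z),
        mn (fun _ : P => mixed m (lift pr σ) z (lift pr (addF τ ρ) z) e) =
          mixed m σ (pr z) (addF τ ρ (pr z)) (push pr z e) := by
      intro z e
      rw [N763.SY.m_const (fmean_of hm)]
      exact SC.wedge_pull_cons (d := d) (m := m) (Z := Z) (X := X) pr σ (addF τ ρ) z e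
    refine ⟨fun z hz e he => ?_, ?_⟩
    · rw [key]
      exact (hp _ (hC.deg hz) _ he).le
    · obtain ⟨x, hx⟩ := hC.nonempty
      obtain ⟨z, rfl⟩ := hpr.surj x
      refine ⟨z, hx, fun e he => ?_⟩
      rw [key]
      exact hp _ (hC.deg hx) _ he
  · rintro ⟨w, hw, h⟩
    obtain ⟨ζ, hζ⟩ := exists_mean (m := m) hm hpr hw
    obtain ⟨α₀, hα₀⟩ := exact_zero (d := d) (X := X)
    have h1 : Admissible vol σ ζ := by
      refine (tests hd vol hvol σ hσ hnn ζ hζ.closed).2 fun C hC => ⟨α₀, _, hα₀, ?_⟩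
      rw [semi_iff hpr hζ]
      have h2 : (fun p => addF (w p) (lift pr (zeroF (ES d) X))) = w := by
        funext p
        exact add_lift_zero pr (w p)
      rw [h2]
      exact h C hC
    obtain ⟨α, ρ, c, hα, hs⟩ := h1
    exact ⟨addF ζ ρ, c, addF_closed hζ.closed hα, hs⟩

end

end Run7.h752.SYX
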