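import Pool.Agent.Run7.h752.SC.PubA
import Pool.Agent.Run7.h752.SC.AmenK
import Pool.Agent.Run7.h752.SC.BridgeZ
import Pool.Agent.Run7.h752.SC.BridgeV

/-!
Bounded one-forms on amenable coverings, and top powers.
-/

set_option autoImplicit false

open Set Filter Topology MeasureTheory
open scoped Manifold ContDiff NNReal

noncomputable section

namespace Run7.h752.SYX

open Pool.Agent.Y501.SYP
open Pool.Agent.Y501
open Pool.Agent.R772.SYK
open Pool.Agent.R772.SYF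
open Pool.Agent.R772.SYD
open Pool.Agent.R772.SYM
open Pool.Agent.R772.SYU
open Pool.Agent

section

variable {m d : ℕ} {Z X : Type} [TopologicalSpace Z] [ChartedSpace (ES d) Z]
  [TopologicalSpace X] [ChartedSpace (ES d) X]

attribute [local instance] Pool.Agent.Y501.SYP.cs
attribute [local instance] Pool.Agent.Y501.SYP.mf

variable [IsManifold 𝓘(ℝ, ES d) ∞ Z] [IsManifold 𝓘(ℝ, ES d) ∞ X]
  {Γ : Type} [Group Γ] [MulAction Γ Z]

omit [IsManifold 𝓘(ℝ, ES d) ∞ Z] [IsManifold 𝓘(ℝ, ES d) ∞ X] in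
theorem add_three (pr : Z → X) (ζ ρ : Form (ES d) X 2) (η : Form (ES d) Z 2) :
    addF (addF (lift pr ζ) η) (lift pr ρ) = addF (lift pr (addF ζ ρ)) η := by
  funext z
  ext u
  show lift pr ζ z u + η z u + lift pr ρ z u = lift pr (addF ζ ρ) z u + η z u
  have h1 : lift pr (addF ζ ρ) z u = lift pr ζ z u + lift pr ρ z u := rfl
  rw [h1]
  ring

/-- a bounded primitive on the covering gives an exact form on the base -/
theorem amen_semi {vol : TopForm (ES d) X m} (hΓ : Amenable Γ) {pr : Z → X} (hpr : NormalCovering (ES d) Γ pr)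
    {β : Form (ES d) Z 1} {η : Form (ES d) Z 2} (h : ExactPair β η)
    (hbt : BoundedTranslates1 Γ β) :
    ∃ (α₀ : Form (ES d) X 1) (ρ₀ : Form (ES d) X 2), ExactPair α₀ ρ₀ ∧
      ∀ (σ ζ ρ : Form (ES d) X 2) (C : Set X),
        UnifSemiPos Γ pr vol σ (addF (addF (lift pr ζ) η) (lift pr ρ)) C →
          SemiPos vol σ (addF (addF ζ ρ₀) ρ) C := by
  obtain ⟨mn, hm⟩ := hΓ
  obtain ⟨α₀, ρ₀, h1, h2, h3, h4⟩ := SC.amen_descend (d := d) (Z := Z) (X := X) (Γ := Γ)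
    (mean_of hm) hpr.smooth (pr := pr) hpr.diffeo hpr.surj hpr.orbits
    ((smooth_iff β).1 h.smooth) ((smooth_iff η).1 h.smooth_d) ((isD_iff β η).1 h.isD)
    (fun U φ hU hφ => by
      have := hbt U φ ⟨hU, hφ⟩
      exact ⟨this.smooth, this.bound⟩)
  refine ⟨α₀, ρ₀, ⟨(smooth_iff _).2 h1, (smooth_iff _).2 h2, (isD_iff _ _).2 h3⟩, ?_⟩
  intro σ ζ ρ C hC
  rw [add_three] at hC
  have key : ∀ (z : Z) (e : Fam (ES d) m z) (c : ℝ),
      (∀ γ : Γ, c ≤ mixed m (lift pr σ) z (translate γ (addF (lift pr (addF ζ ρ)) η) z) e) →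
      c ≤ mixed m σ (pr z) (addF (addF ζ ρ₀) ρ (pr z)) (push pr z e) := by
    intro z e c hc
    have h5 := SC.amen_wedge (d := d) (m := m) (Z := Z) (X := X) (Γ := Γ) (mean_of hm)
      hpr.smooth (pr := pr) hpr.diffeo hpr.orbits h4 (addF ζ ρ) σ z e hc
    have h6 : ∀ θ : Form (ES d) X 2,
        addF (addF ζ θ) ρ (pr z) = addF (addF ζ ρ) θ (pr z) := by
      intro θ
      show ζ (pr z) + θ (pr z) + ρ (pr z) = ζ (pr z) + ρ (pr z) + θ (pr z)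
      rw [add_right_comm]
    have h7 := h6 ρ₀
    rw [h7]
    exact h5
  have hlift : ∀ (z : Z) (e : Fam (ES d) m (pr z)), ∃ e' : Fam (ES d) m z, push pr z e' = e := by
    intro z e
    choose f hf using fun k => (N763.SY.bij_of (d := d) (X := X) (Z := Z) hpr.diffeo z).2 (e k)
    exact ⟨f, funext hf⟩
  refine ⟨fun x hx e he => ?_, ?_⟩
  · obtain ⟨z, rfl⟩ := hpr.surj x
    obtain ⟨e', rfl⟩ := hlift z e
    exact key z e' 0 fun γ => hC.nonneg z hx γ e' he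
  · obtain ⟨z, hz, c, hc, hp⟩ := hC.pos
    refine ⟨pr z, hz, fun e he => ?_⟩
    obtain ⟨e', rfl⟩ := hlift z e
    exact lt_of_lt_of_le (mul_pos hc he) (key z e' _ fun γ => hp γ e' he)

omit [IsManifold 𝓘(ℝ, ES d) ∞ X] in
theorem exact_add {α α' : Form (ES d) X 1} {ρ ρ' : Form (ES d) X 2} (h : ExactPair α ρ)
    (h' : ExactPair α' ρ') : ∃ α'' : Form (ES d) X 1, ExactPair α'' (addF ρ ρ') := by
  have h1 := (smooth_iff α).1 h.smooth
  have h2 := (smooth_iff α').1 h'.smooth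
  have h3 := (smooth_iff ρ).1 h.smooth_d
  have h4 := (smooth_iff ρ').1 h'.smooth_d
  exact (exactF_iff (addF ρ ρ')).1 ⟨_, h1.add h2, h3.add h4,
    ((isD_iff α ρ).1 h.isD).add ((isD_iff α' ρ').1 h'.isD) h1 h2⟩

variable [CompactSpace X] [T2Space X]

theorem amen_adm (hd : d = 2 * (m + 1)) {vol : TopForm (ES d) X m} (hvol : IsVolume vol)
    {σ : Form (ES d) X 2} (hσ : IsClosed2 σ) (hnn : TopNonneg vol σ)
    (hΓ : Amenable Γ) {pr : Z → X} (hpr : NormalCovering (ES d) Γ pr)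
    {ζ : Form (ES d) X 2} (hζ : IsClosed2 ζ)
    {β : Form (ES d) Z 1} {η : Form (ES d) Z 2} (h : ExactPair β η)
    (hbt : BoundedTranslates1 Γ β)
    (hC : ∀ C : Set X, TestSet vol σ C → ∃ (α : Form (ES d) X 1) (ρ : Form (ES d) X 2),
      ExactPair α ρ ∧ UnifSemiPos Γ pr vol σ (addF (addF (lift pr ζ) η) (lift pr ρ)) C) :
    Admissible vol σ ζ := by
  obtain ⟨α₀, ρ₀, h1, h2⟩ := amen_semi (vol := vol) hΓ hpr h hbt
  obtain ⟨α, ρ, c, h3, h4⟩ := (tests hd vol hvol σ hσ hnn (addF ζ ρ₀) (addF_closed hζ h1)).2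
    (fun C hC' => by
      obtain ⟨α, ρ, h3, h4⟩ := hC C hC'
      exact ⟨α, ρ, h3, h2 σ ζ ρ C h4⟩)
  obtain ⟨α', h5⟩ := exact_add h1 h3
  refine ⟨α', addF ρ₀ ρ, c, h5, ?_⟩
  have h6 : addF ζ (addF ρ₀ ρ) = addF (addF ζ ρ₀) ρ := by
    funext x
    show ζ x + (ρ₀ x + ρ x) = ζ x + ρ₀ x + ρ x
    rw [add_assoc]
  rw [h6]
  exact h4

omit [IsManifold 𝓘(ℝ, ES d) ∞ Z] [IsManifold 𝓘(ℝ, ES d) ∞ X] [CompactSpace X] [T2Space X] in
theorem zero_bounded : BoundedTranslates1 Γ (V := ES d) (Z := Z) (fun _ => 0) := by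
  intro U φ _
  have h1 : ∀ γ : Γ, pb (V := ES d) (fun p => γ • φ p) (fun z : Z =>
      (0 : (TangentSpace 𝓘(ℝ, ES d) z) [⋀^Fin 1]→L[ℝ] ℝ)) = fun _ => 0 := by
    intro γ
    funext p
    ext u
    rfl
  refine ⟨fun γ => ?_, fun n p _ => ⟨univ, univ_mem, 0, fun q _ γ => ?_⟩⟩
  · show ContDiffOn ℝ ∞ (pb (V := ES d) (fun p => γ • φ p) (fun z : Z =>
      (0 : (TangentSpace 𝓘(ℝ, ES d) z) [⋀^Fin 1]→L[ℝ] ℝ))) U
    rw [h1]
    exact contDiffOn_const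
  · show ‖iteratedFDeriv ℝ n (pb (V := ES d) (fun p => γ • φ p) (fun z : Z =>
      (0 : (TangentSpace 𝓘(ℝ, ES d) z) [⋀^Fin 1]→L[ℝ] ℝ))) q‖ ≤ 0
    rw [h1]
    have h2 := congrFun (iteratedFDeriv_fun_zero (𝕜 := ℝ) (E := ES d)
      (F := (ES d) [⋀^Fin 1]→L[ℝ] ℝ) (n := n)) q
    rw [h2]
    simp

omit [IsManifold 𝓘(ℝ, ES d) ∞ Z] [IsManifold 𝓘(ℝ, ES d) ∞ X] [CompactSpace X] [T2Space X] in
theorem zero_pair : ExactPair (V := ES d) (X := Z) (fun _ => 0) (zeroF (ES d) Z) := by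
  refine ⟨(smooth_iff _).2 ?_, (smooth_iff _).2 ?_, (isD_iff _ _).2 ?_⟩
  · exact SY.IsSmooth.zero (d := d) (X := Z) (k := 1)
  · exact SY.IsSmooth.zero (d := d) (X := Z) (k := 2)
  · exact SY.IsD.zero (d := d) (X := Z)

theorem amen_conv (hd : d = 2 * (m + 1)) {vol : TopForm (ES d) X m} (hvol : IsVolume vol)
    {σ : Form (ES d) X 2} (hσ : IsClosed2 σ) (hnn : TopNonneg vol σ)
    {pr : Z → X} (hpr : NormalCovering (ES d) Γ pr)
    {ζ : Form (ES d) X 2} (hζ : IsClosed2 ζ) (h : Admissible vol σ ζ) (C : Set X)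
    (hC : TestSet vol σ C) : ∃ (α : Form (ES d) X 1) (ρ : Form (ES d) X 2),
      ExactPair α ρ ∧ UnifSemiPos Γ pr vol σ
        (addF (addF (lift pr ζ) (zeroF (ES d) Z)) (lift pr ρ)) C := by
  obtain ⟨α, ρ, hα, hp⟩ := (posOnDeg_sympl hd hvol hσ hζ hnn).1 h
  refine ⟨α, ρ, hα, ?_⟩
  have h1 : addF (addF (lift pr ζ) (zeroF (ES d) Z)) (lift pr ρ) = lift pr (addF ζ ρ) := by
    funext z
    ext u
    show lift pr ζ z u + 0 + lift pr ρ z u = lift pr (addF ζ ρ) z u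
    rw [add_zero]
    rfl
  have hprs : ContMDiff 𝓘(ℝ, ES d) 𝓘(ℝ, ES d) ∞ pr := hpr.diffeo.contMDiff
  have h2 : ∀ γ : Γ, translate γ (lift pr (addF ζ ρ)) = lift pr (addF ζ ρ) := fun γ =>
    SY.pull_inv (d := d) (Z := Z) (X := X) hpr.smooth hprs
      (fun γ z => ((hpr.orbits z (γ • z)).2 ⟨γ, rfl⟩).symm) (addF ζ ρ) γ
  have h3 : ∀ (z : Z) (e : Fam (ES d) m z), mixed m (lift pr σ) z (lift pr (addF ζ ρ) z) e =
      mixed m σ (pr z) (addF ζ ρ (pr z)) (push pr z e) := fun z e =>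
    SC.wedge_pull_cons (d := d) (m := m) (Z := Z) (X := X) pr σ (addF ζ ρ) z e
  rw [h1]
  refine ⟨fun z hz γ e he => ?_, ?_⟩
  · rw [h2, h3]
    exact (hp _ (hC.deg hz) _ he).le
  · obtain ⟨x, hx⟩ := hC.nonempty
    obtain ⟨z, rfl⟩ := hpr.surj x
    refine ⟨z, hx, R772.md (d := d) (m := m) (X := X) (toTop vol) σ (addF ζ ρ) (pr z), ?_,
      fun γ e he => ?_⟩
    · exact (R772.linPos_iff (d := d) (m := m) (X := X) hd (vol_of hvol) σ _ _).1
        (fun e he => hp _ (hC.deg hx) e he)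
    · rw [h2, h3]
      exact (R772.md_spec (d := d) (m := m) (X := X) hd (vol_of hvol) σ (addF ζ ρ) (pr z)
        (push pr z e)).ge

theorem amen_iff (hd : d = 2 * (m + 1)) {vol : TopForm (ES d) X m} (hvol : IsVolume vol)
    {σ : Form (ES d) X 2} (hσ : IsClosed2 σ) (hnn : TopNonneg vol σ)
    (hΓ : Amenable Γ) {pr : Z → X} (hpr : NormalCovering (ES d) Γ pr)
    {ζ : Form (ES d) X 2} (hζ : IsClosed2 ζ) :
    Admissible vol σ ζ ↔ ∃ (β : Form (ES d) Z 1) (η : Form (ES d) Z 2), ExactPair β η ∧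
      BoundedTranslates1 Γ β ∧ ∀ C : Set X, TestSet vol σ C →
        ∃ (α : Form (ES d) X 1) (ρ : Form (ES d) X 2), ExactPair α ρ ∧
          UnifSemiPos Γ pr vol σ (addF (addF (lift pr ζ) η) (lift pr ρ)) C := by
  constructor
  · intro h
    exact ⟨_, _, zero_pair, zero_bounded, fun C hC => amen_conv hd hvol hσ hnn hpr hζ h C hC⟩
  · rintro ⟨β, η, h1, h2, h3⟩
    exact amen_adm hd hvol hσ hnn hΓ hpr hζ h1 h2 h3

theorem amen_hom (hd : d = 2 * (m + 1)) {vol : TopForm (ES d) X m} (hvol : IsVolume vol)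
    {σ : Form (ES d) X 2} (hσ : IsClosed2 σ) (hnn : TopNonneg vol σ)
    (hΓ : Amenable Γ) {pr : Z → X} (hpr : NormalCovering (ES d) Γ pr)
    {ζ : Form (ES d) X 2} (hζ : IsClosed2 ζ) (τ : Form (ES d) X 2) :
    (∃ (α : Form (ES d) X 1) (ρ : Form (ES d) X 2) (c : ℝ), ExactPair α ρ ∧
        SympHomotopicUpTo vol σ (addF ζ ρ) τ c) ↔
      NearHomotopic vol σ τ ∧ ∃ (β : Form (ES d) Z 1) (η : Form (ES d) Z 2), ExactPair β η ∧
        BoundedTranslates1 Γ β ∧ ∀ C : Set X, TestSet vol σ C →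
          ∃ (α : Form (ES d) X 1) (ρ : Form (ES d) X 2), ExactPair α ρ ∧
            UnifSemiPos Γ pr vol σ (addF (addF (lift pr ζ) η) (lift pr ρ)) C := by
  rw [← amen_iff hd hvol hσ hnn hΓ hpr hζ]
  constructor
  · rintro ⟨α, ρ, c, h1, h2⟩
    obtain ⟨h3, c', h4⟩ := (near_iff hd hvol hσ hnn (addF_closed hζ h1) τ).1 ⟨c, h2⟩
    exact ⟨h3, α, ρ, c', h1, h4⟩
  · rintro ⟨h3, α, ρ, c', h1, h4⟩
    obtain ⟨c, h2⟩ := (near_iff hd hvol hσ hnn (addF_closed hζ h1) τ).2 ⟨h3, c', h4⟩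
    exact ⟨α, ρ, c, h1, h2⟩

end

end Run7.h752.SYX
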