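import Pool.Agent.Run7.h752.SC.BridgeT
import Pool.Agent.Run7.h752.SC.BridgeW

/-!
Paths of closed forms with nonnegative top power and homotopy classes.
-/

set_option autoImplicit false

open Set Filter Topology MeasureTheory
open scoped Manifold ContDiff NNReal

noncomputable section

namespace Run7.h752.SYX

open Pool.Agent.Y501.SYP
open Pool.Agent.Y501
open Pool.Agent.R772.SYK
open Pool.Agent.R772.SYG
open Pool.Agent.R772.SYF
open Pool.Agent.R772.SYD
open Pool.Agent.R772.SYM
open Pool.Agent.R772.SYU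
open Pool.Agent

section

variable {m d : ℕ} {X : Type} [TopologicalSpace X] [ChartedSpace (ES d) X]

attribute [local instance] Pool.Agent.Y501.SYP.cs
attribute [local instance] Pool.Agent.Y501.SYP.mf

variable [IsManifold 𝓘(ℝ, ES d) ∞ X] [CompactSpace X] [T2Space X]

omit [IsManifold 𝓘(ℝ, ES d) ∞ X] [CompactSpace X] [T2Space X] in
theorem exact_zero' : ∃ α : Form (ES d) X 1, ExactPair α (zeroF (ES d) X) :=
  (exactF_iff (zeroF (ES d) X)).1 (SC.exactF_zero (d := d) (X := X))

theorem path_hom [MeasurableSpace X] [BorelSpace X] (hd : d = 2 * (m + 1))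
    {vol : TopForm (ES d) X m} (hvol : IsVolume vol) {σ : unitInterval → Form (ES d) X 2}
    (hσ : IsFamily vol σ) (h0 : IsPosSymplectic vol (σ 0))
    (h : ∀ (s : unitInterval) (μ : Measure X), ¬ Extremal vol (σ s) μ) :
    ∃ (α : Form (ES d) X 1) (ρ : Form (ES d) X 2), ExactPair α ρ ∧
      IsPosSymplectic vol (addF (σ 1) ρ) ∧ SympJoined vol (σ 0) (addF (σ 1) ρ) := by
  obtain ⟨n, α, ρ, φ, h1⟩ := exists_compression hd hvol (Q := {(0 : unitInterval)}) isClosed_singleton
    (σ := σ) (ζ := fun _ => zeroF (ES d) X) hσ zero_fam (fun q hq => by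
      rw [mem_singleton_iff] at hq
      rw [hq]
      exact h0) (fun p => by
      refine ((one_tfae hd hvol (hσ.closed p) (hσ.nonneg p) zero_closed).out 0 1).2 ?_
      intro μ hμ
      exact absurd hμ (h p μ))
  have h2 : comb (σ 1) 1 (mixF (fun i => φ i 1) (zeroF (ES d) X) ρ) =
      addF (σ 1) (lin (fun i => φ i 1) ρ) := by
    rw [mix_zero]
    funext x
    show σ 1 x + (1 : ℝ) • lin (fun i => φ i 1) ρ x = σ 1 x + lin (fun i => φ i 1) ρ x
    rw [one_smul]
  obtain ⟨α₀, hα₀⟩ := exact_zero' (d := d) (X := X)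
  obtain ⟨α', h3⟩ := lin_exact h1.exact (fun i => φ i 1) 1 hα₀
  have h4 : comb (zeroF (ES d) X) 1 (lin (fun i => φ i 1) ρ) = lin (fun i => φ i 1) ρ := by
    funext x
    show (0 : Cov (ES d) x) + (1 : ℝ) • lin (fun i => φ i 1) ρ x = lin (fun i => φ i 1) ρ x
    rw [one_smul, zero_add]
  rw [h4] at h3
  refine ⟨α', _, h3, ?_, ?_⟩
  · have h5 := h1.symp 1 one_pos le_rfl 1
    rwa [h2] at h5
  · have h5 := joined_of hσ zero_fam h1 (mem_singleton (0 : unitInterval)) one_pos le_rfl
      (p := (1 : unitInterval)) ⟨⟨⟨id, continuous_id⟩, rfl, rfl⟩⟩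
    rwa [h2] at h5

end

end Run7.h752.SYX
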