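import Pool.Agent.Run7.h752.SC.BridgeL
import Pool.Agent.Run7.h752.SC.BridgeV

/-!
Discs tangent to the kernel and homotopy classes of nondegenerate forms.
-/

set_option autoImplicit false

open Set Filter Topology MeasureTheory
open scoped Manifold ContDiff NNReal

noncomputable section

namespace Run7.h752.SYX

open Pool.Agent.Y501.SYP
open Pool.Agent.Y501
open Pool.Agent.R772.SYK
open Pool.Agent.R772.SYG
open Pool.Agent.R772.SYF
open Pool.Agent.R772.SYD
open Pool.Agent.R772.SYM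
open Pool.Agent.R772.SYU
open Pool.Agent

section

variable {m d : ℕ} {X : Type} [TopologicalSpace X] [ChartedSpace (ES d) X]

attribute [local instance] Pool.Agent.Y501.SYP.cs
attribute [local instance] Pool.Agent.Y501.SYP.mf

variable [IsManifold 𝓘(ℝ, ES d) ∞ X] [CompactSpace X] [T2Space X]

theorem good_iff (hd : d = 2 * (m + 1))
    {vol : TopForm (ES d) X m} (hvol : IsVolume vol) {σ : Form (ES d) X 2} (hσ : IsClosed2 σ)
    (hnn : TopNonneg vol σ) (τ : Form (ES d) X 2) {ζ : Form (ES d) X 2} (hζ : IsClosed2 ζ) :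
    (∃ (α : Form (ES d) X 1) (ρ : Form (ES d) X 2) (c : ℝ), ExactPair α ρ ∧
        SympHomotopicUpTo vol σ (addF ζ ρ) τ c) ↔
      NearHomotopic vol σ τ ∧ Admissible vol σ ζ := by
  constructor
  · rintro ⟨α, ρ, c, h1, h2⟩
    obtain ⟨h3, c', h4⟩ := (near_iff hd hvol hσ hnn (addF_closed hζ h1) τ).1 ⟨c, h2⟩
    exact ⟨h3, α, ρ, c', h1, h4⟩
  · rintro ⟨h3, α, ρ, c', h1, h4⟩
    obtain ⟨c, h2⟩ := (near_iff hd hvol hσ hnn (addF_closed hζ h1) τ).2 ⟨h3, c', h4⟩
    exact ⟨α, ρ, c, h1, h2⟩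

theorem good_lam (hd : d = 2 * (m + 1))
    {vol : TopForm (ES d) X m} (hvol : IsVolume vol) {σ : Form (ES d) X 2} (hσ : IsClosed2 σ)
    (hnn : TopNonneg vol σ) (τ : Form (ES d) X 2) {ζ : Form (ES d) X 2} (hζ : IsClosed2 ζ) :
    (∃ (α : Form (ES d) X 1) (ρ : Form (ES d) X 2) (c : ℝ), ExactPair α ρ ∧
        SympHomotopicUpTo vol σ (addF ζ ρ) τ c) ↔
      NearHomotopic vol σ τ ∧ ∀ C : Set X, LamTest vol σ C →
        ∃ (α : Form (ES d) X 1) (ρ : Form (ES d) X 2),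
          ExactPair α ρ ∧ SemiPos vol σ (addF ζ ρ) C := by
  rw [good_iff hd hvol hσ hnn τ hζ, lam_tfae hd hvol hσ hnn hζ]

theorem good_rem (hd : d = 2 * (m + 1))
    {vol : TopForm (ES d) X m} (hvol : IsVolume vol) {σ : Form (ES d) X 2} (hσ : IsClosed2 σ)
    (hnn : TopNonneg vol σ) (τ : Form (ES d) X 2) {F : ℕ → Set X} (hF : Removable vol σ F)
    {ζ : Form (ES d) X 2} (hζ : IsClosed2 ζ) :
    (∃ (α : Form (ES d) X 1) (ρ : Form (ES d) X 2) (c : ℝ), ExactPair α ρ ∧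
        SympHomotopicUpTo vol σ (addF ζ ρ) τ c) ↔ NearHomotopic vol σ τ := by
  rw [good_iff hd hvol hσ hnn τ hζ]
  exact and_iff_left (removable_all hd hvol hσ hnn hF hζ)

end

end Run7.h752.SYX
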