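import Pool.Agent.Run7.h752.SC.PubN
import Pool.Agent.Run7.h752.SC.BridgeL
import Pool.Agent.Run7.h752.SC.BridgeV
import Pool.Agent.Run7.h752.LF.Area

/-!
Closed surfaces tangent to the kernel, in terms of the public definitions.
-/

set_option autoImplicit false

open Set Filter Topology MeasureTheory
open scoped Manifold ContDiff NNReal

noncomputable section

namespace Run7.h752.SYX

open Pool.Agent.Y501.SYP
open Pool.Agent.Y501
open Pool.Agent.R772.SYK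
open Pool.Agent.R772.SYF
open Pool.Agent.R772.SYD
open Pool.Agent.R772.SYM
open Pool.Agent

section

variable {m d : ℕ} {X : Type} [TopologicalSpace X] [ChartedSpace (ES d) X]

attribute [local instance] Pool.Agent.Y501.SYP.cs
attribute [local instance] Pool.Agent.Y501.SYP.mf

theorem FiniteArea.mono {C C' : Set X} {z : X} (h : FiniteArea (ES d) C z) (hsub : C' ⊆ C) :
    FiniteArea (ES d) C' z := by
  obtain ⟨N, hN, h1⟩ := h
  exact ⟨N, hN, ne_top_of_le_ne_top h1 (measure_mono (image_mono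
    (inter_subset_inter_left _ (inter_subset_inter_left _ hsub))))⟩

variable [IsManifold 𝓘(ℝ, ES d) ∞ X] [CompactSpace X] [T2Space X]

theorem surface_of_current [MeasurableSpace X] [BorelSpace X] (hd : d = 2 * (m + 1))
    {vol : TopForm (ES d) X m} (hvol : IsVolume vol) {σ : Form (ES d) X 2} (hσ : IsClosed2 σ)
    (hnn : TopNonneg vol σ) {μ : Measure X} (hμ : IsClosedCurrent vol σ μ) {z : X}
    (hz : z ∈ μ.support) (hr : PowNe m σ z) (hf : FiniteArea (ES d) μ.support z) :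
    SurfaceAt σ μ.support z := by
  rw [SC.support_eq] at hz hf ⊢
  obtain ⟨a, b, N, W₁, W₂, φ₁, φ₂, P⟩ := LF.exists_pack (d := d) (m := m) (X := X) hd
    (vol := toTop vol) (vol_of hvol) (σ := σ) ((smooth_iff σ).1 hσ.smooth)
    (fun x e he => hnn x e he) (z := z) hr
  obtain ⟨ε, hε, h1, h2, h3⟩ := LF.surf_of_pack P ((curr_iff hd hvol hnn μ).1 hμ) hz hf
  have hg1 : ContMDiff 𝓘(ℝ, ℝ × ℝ) 𝓘(ℝ, ES d) ∞ (fun p : ℝ × ℝ => φ₁ p.1 z) :=
    P.f₁.cmp (contDiff_fst : ContDiff ℝ ∞ (fun p : ℝ × ℝ => p.1)) contMDiff_const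
  have hg : ContMDiff 𝓘(ℝ, ℝ × ℝ) 𝓘(ℝ, ES d) ∞ (fun p : ℝ × ℝ => φ₂ p.2 (φ₁ p.1 z)) :=
    P.f₂.cmp (contDiff_snd : ContDiff ℝ ∞ (fun p : ℝ × ℝ => p.2)) hg1
  exact ⟨_, ε, hε, hg, by
    show φ₂ 0 (φ₁ 0 z) = z
    rw [P.f₁.zero, P.f₂.zero], h1, h2, h3⟩

omit [CompactSpace X] in
/-- test sets are connected -/
theorem conn_of_test [CompactSpace X] {vol : TopForm (ES d) X m} {σ : Form (ES d) X 2}
    {C : Set X} (hC : TestSet vol σ C) : IsConnected C := by
  have hfd : FiniteDimensional ℝ (ES d) :=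
    (inferInstance : FiniteDimensional ℝ (EuclideanSpace ℝ (Fin d)))
  refine ⟨hC.nonempty, isPreconnected_closed_iff.2 fun t t' ht ht' hsub hn hn' => ?_⟩
  by_contra hcon
  have hcl := hC.compact.isClosed
  have hdis : Disjoint (C ∩ t) (C ∩ t') := by
    rw [Set.disjoint_left]
    rintro x ⟨hx1, hx2⟩ ⟨-, hx3⟩
    exact hcon ⟨x, hx1, hx2, hx3⟩
  obtain ⟨f, hf0, hf1, -⟩ := exists_contMDiffMap_zero_one_nhds_of_isClosed 𝓘(ℝ, ES d)
    (n := (⊤ : ℕ∞))
    (hcl.inter ht) (hcl.inter ht') hdis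
  have hfs : SmoothFun (V := ES d) (fun x => f x) := f.contMDiff
  obtain ⟨x, hx⟩ := hn
  obtain ⟨y, hy⟩ := hn'
  have h1 := hC.indec (fun x => f x) ⟨hfs, fun w hw v _ => by
    have key : ∀ c : ℝ, (∀ᶠ x in 𝓝 w, f x = c) → dd (V := ES d) (fun x => f x) w v = 0 := by
      intro c hc
      have e1 : (fun x => f x) =ᶠ[𝓝 w] fun _ => c := hc
      unfold dd
      rw [Filter.EventuallyEq.mfderiv_eq (I := 𝓘(ℝ, ES d)) (I' := 𝓘(ℝ, ℝ)) e1, mfderiv_const]
      rfl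
    rcases hsub hw with h | h
    · have hwt : w ∈ C ∩ t := ⟨hw, h⟩
      exact key 0 (hf0.filter_mono (nhds_le_nhdsSet hwt))
    · have hwt : w ∈ C ∩ t' := ⟨hw, h⟩
      exact key 1 (hf1.filter_mono (nhds_le_nhdsSet hwt))⟩ x hx.1 y hy.1
  have h2 : f x = 0 := hf0.self_of_nhdsSet x hx
  have h3 : f y = 1 := hf1.self_of_nhdsSet y hy
  rw [h2, h3] at h1
  exact zero_ne_one h1

theorem surface_of_extremal [MeasurableSpace X] [BorelSpace X] (hd : d = 2 * (m + 1))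
    {vol : TopForm (ES d) X m} (hvol : IsVolume vol) {σ : Form (ES d) X 2} (hσ : IsClosed2 σ)
    (hnn : TopNonneg vol σ) {μ : Measure X} (hμ : Extremal vol σ μ)
    (hr : ∀ z ∈ Deg m σ, PowNe m σ z) (hf : ∀ z ∈ Deg m σ, FiniteArea (ES d) (Deg m σ) z) :
    KernelSurface m σ μ.support := by
  have ht := test_of_extremal hd hvol hσ hnn hμ
  exact ⟨ht.compact, conn_of_test ht, ht.deg, fun z hz =>
    surface_of_current hd hvol hσ hnn hμ.closed hz (hr z (ht.deg hz))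
      ((hf z (ht.deg hz)).mono ht.deg)⟩

omit [IsManifold 𝓘(ℝ, ES d) ∞ X] [CompactSpace X] [T2Space X] in
theorem powNe_of_pos {vol : TopForm (ES d) X m} (hvol : IsVolume vol) {σ η : Form (ES d) X 2}
    (h : PosOnDeg vol σ η) : ∀ z ∈ Deg m σ, PowNe m σ z := by
  intro z hz
  obtain ⟨e, he⟩ := (vol_of hvol).frame z
  exact ⟨η z, e, (h z hz e he).ne'⟩

/-- **closed surfaces decide** -/
theorem area_iff (hd : d = 2 * (m + 1))
    {vol : TopForm (ES d) X m} (hvol : IsVolume vol) {σ : Form (ES d) X 2} (hσ : IsClosed2 σ)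
    (hnn : TopNonneg vol σ) (hf : ∀ z ∈ Deg m σ, FiniteArea (ES d) (Deg m σ) z)
    {ζ : Form (ES d) X 2} (hζ : IsClosed2 ζ) :
    Admissible vol σ ζ ↔ (∀ z ∈ Deg m σ, PowNe m σ z) ∧
      ∀ C : Set X, KernelSurface m σ C → ∃ (α : Form (ES d) X 1) (ρ : Form (ES d) X 2),
        ExactPair α ρ ∧ SemiPos vol σ (addF ζ ρ) C := by
  let _ : MeasurableSpace X := borel X
  have : BorelSpace X := ⟨rfl⟩
  constructor
  · intro h
    obtain ⟨α, ρ, hα, hp⟩ := (posOnDeg_sympl hd hvol hσ hζ hnn).1 h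
    refine ⟨powNe_of_pos hvol hp, fun C hC => ?_⟩
    obtain ⟨x, hx⟩ := hC.connected.nonempty
    exact ⟨α, ρ, hα, fun x hx e he => (hp x (hC.deg hx) e he).le, x, hx,
      fun e he => hp x (hC.deg hx) e he⟩
  · rintro ⟨hr, h⟩
    exact ((one_tfae hd hvol hσ hnn hζ).out 2 0).1 fun μ hμ =>
      h _ (surface_of_extremal hd hvol hσ hnn hμ hr hf)

end

end Run7.h752.SYX
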