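import Pool.Agent.Run7.h752.SC.BridgeN
import Pool.Agent.Run7.h752.LF.Uniq

/-!
Closed currents on a degenerate set of locally finite area, in terms of the public definitions.
-/

set_option autoImplicit false

open Set Filter Topology MeasureTheory
open scoped Manifold ContDiff NNReal ENNReal

noncomputable section

namespace Run7.h752.SYX

open Pool.Agent.Y501.SYP
open Pool.Agent.Y501
open Pool.Agent.R772.SYK
open Pool.Agent.R772.SYF
open Pool.Agent.R772.SYD
open Pool.Agent.R772.SYM
open Pool.Agent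

section

variable {m d : ℕ} {X : Type} [TopologicalSpace X] [ChartedSpace (ES d) X]

attribute [local instance] Pool.Agent.Y501.SYP.cs
attribute [local instance] Pool.Agent.Y501.SYP.mf

variable [IsManifold 𝓘(ℝ, ES d) ∞ X] [CompactSpace X] [T2Space X] [MeasurableSpace X]
  [BorelSpace X]

theorem support_mono {μ ν : Measure X} (h : ν ≤ μ) : ν.support ⊆ μ.support := by
  rw [SC.support_eq, SC.support_eq]
  intro x hx U hU hxU h0
  exact hx U hU hxU (le_antisymm ((h U).trans_eq h0) bot_le)

/-- **uniqueness of the closed current on a surface** -/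
theorem uniq_current (hd : d = 2 * (m + 1))
    {vol : TopForm (ES d) X m} (hvol : IsVolume vol) {σ : Form (ES d) X 2} (hσ : IsClosed2 σ)
    (hnn : TopNonneg vol σ) {μ ν : Measure X} (hμ : IsClosedCurrent vol σ μ)
    (hν : IsClosedCurrent vol σ ν) (hsub : ν.support ⊆ μ.support)
    (hconn : IsPreconnected μ.support) (hr : ∀ z ∈ μ.support, PowNe m σ z)
    (hf : ∀ z ∈ μ.support, FiniteArea (ES d) μ.support z) : ∃ c : ℝ≥0, ν = c • μ := by
  rw [SC.support_eq] at hconn hr hf
  rw [SC.support_eq, SC.support_eq] at hsub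
  exact LF.curr_eq (d := d) (m := m) (X := X) hd (vol := toTop vol) (vol_of hvol) (σ := σ)
    ((smooth_iff σ).1 hσ.smooth) (fun x e he => hnn x e he) ((curr_iff hd hvol hnn μ).1 hμ)
    ((curr_iff hd hvol hnn ν).1 hν) hsub hconn hr hf

theorem extremal_of_conn (hd : d = 2 * (m + 1))
    {vol : TopForm (ES d) X m} (hvol : IsVolume vol) {σ : Form (ES d) X 2} (hσ : IsClosed2 σ)
    (hnn : TopNonneg vol σ) {μ : Measure X} (hμ : IsClosedCurrent vol σ μ)
    (hconn : IsPreconnected μ.support) (hr : ∀ z ∈ μ.support, PowNe m σ z)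
    (hf : ∀ z ∈ μ.support, FiniteArea (ES d) μ.support z) : Extremal vol σ μ :=
  ⟨hμ, fun _ hν hle => uniq_current hd hvol hσ hnn hμ hν (support_mono hle) hconn hr hf⟩

/-- the supports of the extremal closed currents are equal or disjoint, and there are finitely
many of them -/
theorem finite_supports (hd : d = 2 * (m + 1))
    {vol : TopForm (ES d) X m} (hvol : IsVolume vol) {σ : Form (ES d) X 2} (hσ : IsClosed2 σ)
    (hnn : TopNonneg vol σ) (hr : ∀ z ∈ Deg m σ, PowNe m σ z)
    (hf : ∀ z ∈ Deg m σ, FiniteArea (ES d) (Deg m σ) z) :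
    {C : Set X | ∃ μ : Measure X, Extremal vol σ μ ∧ μ.support = C}.Finite := by
  have hcl : IsClosed (Deg m σ) := by
    have h1 : Deg m σ = {x | ¬ R772.PosTop (toTop vol) σ x} := by
      ext x
      exact deg_iff hd hvol hnn x
    rw [h1]
    exact (R772.isOpen_posTop (d := d) (m := m) (X := X) hd (vol_of hvol)
      ((smooth_iff σ).1 hσ.smooth)).isClosed_compl
  refine LF.finite_supp (d := d) (m := m) (X := X) hd (vol := toTop vol) (vol_of hvol) (σ := σ)
    ((smooth_iff σ).1 hσ.smooth) (fun x e he => hnn x e he) hcl.isCompact hr hf ?_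
  rintro C ⟨μ, hμ, rfl⟩
  have ht := test_of_extremal hd hvol hσ hnn hμ
  exact ⟨ht.nonempty, ht.deg, (conn_of_test ht).isPreconnected, μ,
    (curr_iff hd hvol hnn μ).1 hμ.closed, (SC.support_eq μ).symm⟩

theorem disj_supports (hd : d = 2 * (m + 1))
    {vol : TopForm (ES d) X m} (hvol : IsVolume vol) {σ : Form (ES d) X 2} (hσ : IsClosed2 σ)
    (hnn : TopNonneg vol σ) (hr : ∀ z ∈ Deg m σ, PowNe m σ z)
    (hf : ∀ z ∈ Deg m σ, FiniteArea (ES d) (Deg m σ) z) {μ ν : Measure X}
    (hμ : Extremal vol σ μ) (hν : Extremal vol σ ν) (hne : (μ.support ∩ ν.support).Nonempty) :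
    μ.support = ν.support := by
  have key : ∀ {μ ν : Measure X}, Extremal vol σ μ → Extremal vol σ ν →
      (μ.support ∩ ν.support).Nonempty → μ.support ⊆ ν.support := by
    intro μ ν hμ hν hne
    have ht := test_of_extremal hd hvol hσ hnn hμ
    have hc := (conn_of_test ht).isPreconnected
    have h1 : ∀ z ∈ μ.support, PowNe m σ z := fun z hz => hr z (ht.deg hz)
    have h2 : ∀ z ∈ μ.support, FiniteArea (ES d) μ.support z := fun z hz =>
      (hf z (ht.deg hz)).mono ht.deg
    rw [SC.support_eq] at hc h1 h2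
    rw [SC.support_eq, SC.support_eq] at hne ⊢
    exact LF.sub_of_meet (d := d) (m := m) (X := X) hd (vol := toTop vol) (vol_of hvol) (σ := σ)
      ((smooth_iff σ).1 hσ.smooth) (fun x e he => hnn x e he)
      ((curr_iff hd hvol hnn μ).1 hμ.closed) ((curr_iff hd hvol hnn ν).1 hν.closed) hc h1 h2 hne
  exact Subset.antisymm (key hμ hν hne) (key hν hμ (by rwa [inter_comm]))

/-- a finite list of extremal closed currents -/
theorem exists_list (hd : d = 2 * (m + 1))
    {vol : TopForm (ES d) X m} (hvol : IsVolume vol) {σ : Form (ES d) X 2} (hσ : IsClosed2 σ)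
    (hnn : TopNonneg vol σ) (hr : ∀ z ∈ Deg m σ, PowNe m σ z)
    (hf : ∀ z ∈ Deg m σ, FiniteArea (ES d) (Deg m σ) z) :
    ∃ (r : ℕ) (μ : Fin r → Measure X), (∀ i, Extremal vol σ (μ i)) ∧
      (∀ i, KernelSurface m σ (μ i).support) ∧
      (∀ i j, i ≠ j → Disjoint (μ i).support (μ j).support) ∧
      ∀ ν : Measure X, Extremal vol σ ν → ∃ (i : Fin r) (c : ℝ≥0), c ≠ 0 ∧ ν = c • μ i := by
  have hfin := finite_supports hd hvol hσ hnn hr hf
  obtain ⟨r, e, hinj, hrange⟩ := hfin.fin_param
  have hmem : ∀ i, ∃ μ : Measure X, Extremal vol σ μ ∧ μ.support = e i := fun i => by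
    have : e i ∈ range e := mem_range_self i
    rw [hrange] at this
    exact this
  choose μ hμ hsupp using hmem
  refine ⟨r, μ, hμ, fun i => surface_of_extremal hd hvol hσ hnn (hμ i) hr hf,
    fun i j hij => ?_, fun ν hν => ?_⟩
  · rw [Set.disjoint_iff_inter_eq_empty]
    by_contra hne
    have h1 := disj_supports hd hvol hσ hnn hr hf (hμ i) (hμ j)
      (nonempty_iff_ne_empty.2 hne)
    rw [hsupp, hsupp] at h1
    exact hij (hinj h1)
  · have h1 : ν.support ∈ range e := by
      rw [hrange]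
      exact ⟨ν, hν, rfl⟩
    obtain ⟨i, hi⟩ := h1
    have ht := test_of_extremal hd hvol hσ hnn (hμ i)
    obtain ⟨c, hc⟩ := uniq_current hd hvol hσ hnn (hμ i).closed hν.closed
      (by rw [hsupp, hi]) (conn_of_test ht).isPreconnected (fun z hz => hr z (ht.deg hz))
      (fun z hz => (hf z (ht.deg hz)).mono ht.deg)
    refine ⟨i, c, ?_, hc⟩
    rintro rfl
    rw [zero_smul] at hc
    exact hν.closed.ne hc

end

end Run7.h752.SYX
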