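import Pool.Agent.Run7.h752.SC.PubT
import Pool.Agent.Run7.h752.SC.BridgeY
import Pool.Agent.Run7.h752.SC.BridgeV

/-!
Families of closed forms with nonnegative top power and homotopy classes.
-/

set_option autoImplicit false

open Set Filter Topology MeasureTheory
open scoped Manifold ContDiff NNReal

noncomputable section

namespace Run7.h752.SYX

open Pool.Agent.Y501.SYP
open Pool.Agent.Y501
open Pool.Agent.R772.SYK
open Pool.Agent.R772.SYG
open Pool.Agent.R772.SYF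
open Pool.Agent.R772.SYD
open Pool.Agent.R772.SYM
open Pool.Agent.R772.SYU
open Pool.Agent

section

variable {m d : ℕ} {X : Type} [TopologicalSpace X] [ChartedSpace (ES d) X]

attribute [local instance] Pool.Agent.Y501.SYP.cs
attribute [local instance] Pool.Agent.Y501.SYP.mf

theorem SympJoined.homotopic {vol : TopForm (ES d) X m} {w w' : Form (ES d) X 2}
    (h : SympJoined vol w w') : Homotopic w w' := by
  obtain ⟨γ, h1, h2, h3, h4⟩ := h
  exact ⟨γ, h1, h2, h3, fun s h5 h6 => ⟨(h4 s h5 h6).closed.smooth,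
    fun x => (h4 s h5 h6).nondeg x⟩⟩

variable [IsManifold 𝓘(ℝ, ES d) ∞ X] [CompactSpace X] [T2Space X]
  {P : Type} [TopologicalSpace P]

omit [CompactSpace X] [T2Space X] in
theorem joined_of {vol : TopForm (ES d) X m}
    {Q : Set P} {σ ζ : P → Form (ES d) X 2} (hσ : IsFamily vol σ) (hζ : ClosedFam ζ)
    {n : ℕ} {α : Fin n → Form (ES d) X 1} {ρ : Fin n → Form (ES d) X 2} {φ : Fin n → P → ℝ}
    (h : CompressionTo vol Q σ ζ α ρ φ)
    {q₀ : P} (hq : q₀ ∈ Q) {t : ℝ} (h0 : 0 < t) (h1 : t ≤ 1) {p : P} (hp : Joined q₀ p) :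
    SympJoined vol (σ q₀) (comb (σ p) t (mixF (fun i => φ i p) (ζ p) ρ)) := by
  let F : P → Form (ES d) X 2 := fun p => comb (σ p) t (mixF (fun i => φ i p) (ζ p) ρ)
  have hF : R772.ContFam (d := d) (X := X) F :=
    R772.ContFam.add (d := d) (X := X) hσ.cont ((mix_fam hζ (fun i => (h.exact i).smooth_d)
      h.cont).smul (continuous_const : Continuous fun _ : P => t))
  have hF0 : F q₀ = σ q₀ := by
    funext x
    show σ q₀ x + t • ∑ i, φ i q₀ • (ζ q₀ x + ρ i x) = σ q₀ x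
    have h2 : ∑ i, φ i q₀ • (ζ q₀ x + ρ i x) = 0 :=
      Finset.sum_eq_zero fun i _ => by rw [h.zero i q₀ hq, zero_smul]
    rw [h2, smul_zero, add_zero]
  let c : Path q₀ p := hp.somePath
  refine ⟨fun s => F (c.extend s), ?_, ?_, ?_, fun s _ _ => h.symp t h0 h1 _⟩
  · exact R772.ContFam.comp (d := d) (X := X) (P := P) (Q := ℝ) (σ := F) hF c.continuous_extend
  · show F (c.extend 0) = σ q₀
    rw [c.extend_zero, hF0]
  · show F (c.extend 1) = F p
    rw [c.extend_one]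

theorem family_hom [MeasurableSpace X] [BorelSpace X] (hd : d = 2 * (m + 1))
    {vol : TopForm (ES d) X m} (hvol : IsVolume vol) [CompactSpace P] [T2Space P]
    {Q : Set P} (hQ : IsClosed Q) {σ ζ : P → Form (ES d) X 2}
    (hσ : IsFamily vol σ) (hζ : ClosedFam ζ) (hpos : ∀ q ∈ Q, IsPosSymplectic vol (σ q))
    {τ : Form (ES d) X 2} {q₀ : P} (hq : q₀ ∈ Q) (hτ : Homotopic τ (σ q₀)) :
    List.TFAE [
      ∀ (p : P) (μ : Measure X), Extremal vol (σ p) μ → 0 < ∫ x, density vol (σ p) (ζ p) x ∂μ,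
      ∀ (p : P) (C : Set X), TestSet vol (σ p) C →
        ∃ (α : Form (ES d) X 1) (ρ : Form (ES d) X 2), ExactPair α ρ ∧
          SemiPos vol (σ p) (addF (ζ p) ρ) C,
      ∃ (n : ℕ) (α : Fin n → Form (ES d) X 1) (ρ : Fin n → Form (ES d) X 2)
        (φ : Fin n → P → ℝ), CompressionTo vol Q σ ζ α ρ φ ∧
        ∀ t : ℝ, 0 < t → t ≤ 1 → ∀ p, Joined q₀ p →
          SympJoined vol (σ q₀) (comb (σ p) t (mixF (fun i => φ i p) (ζ p) ρ)) ∧
          Homotopic τ (comb (σ p) t (mixF (fun i => φ i p) (ζ p) ρ))] := by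
  have h1 := family_tfae hd hvol hQ hσ hζ hpos
  tfae_have 1 ↔ 2 := h1.out 1 2
  tfae_have 1 → 3 := by
    intro h
    obtain ⟨n, α, ρ, φ, h2⟩ := (h1.out 1 3).1 h
    exact ⟨n, α, ρ, φ, h2, fun t ht0 ht1 p hp =>
      ⟨joined_of hσ hζ h2 hq ht0 ht1 hp,
        hτ.trans (joined_of hσ hζ h2 hq ht0 ht1 hp).homotopic⟩⟩
  tfae_have 3 → 1 := by
    rintro ⟨n, α, ρ, φ, h2, -⟩
    have h3 := h1.out 1 3
    exact h3.2 ⟨n, α, ρ, φ, h2⟩
  tfae_finish

end

end Run7.h752.SYX
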