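import Pool.Agent.R772.FamK

/-!
# Continuous families of closed two-forms with nonnegative top power: compression (helper752)
-/

set_option autoImplicit false

open Set Filter Topology MeasureTheory
open scoped Manifold ContDiff

noncomputable section

namespace Run7.h752.SC

open Pool.Agent.Y501.SY Pool.Agent.R772

section

variable {d m : ℕ} {X : Type} [TopologicalSpace X] [ChartedSpace (E d) X]
  {P : Type} [TopologicalSpace P]

variable [IsManifold (𝓡 d) ∞ X]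

/-- the positivity is uniform over a compact family -/
theorem unifFam [CompactSpace X] [CompactSpace P] (hd : d = 2 * (m + 1)) {vol : Top d m X}
    (hvol : IsVol vol) {σ η : P → Form d X 2} (hσf : ContFam σ) (hηf : ContFam η)
    (hnn : ∀ p x, NonnegTop vol (σ p) x)
    (hpos : ∀ p x, ¬ PosTop vol (σ p) x → LinPos vol (σ p) (η p) x) :
    ∃ t₀ : ℝ, 0 < t₀ ∧ ∀ p x, ∀ t : ℝ, 0 < t → t ≤ t₀ → PosTop vol (σ p + t • η p) x := by
  obtain ⟨t₀, ht₀, ht⟩ := unif (X := P × X) isCompact_univ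
    (fun ε y => ∀ t : ℝ, 0 < t → t ≤ ε → PosTop vol (σ y.1 + t • η y.1) y.2)
    (fun ε ε' y hle hp t h0 h1 => hp t h0 (h1.trans hle))
    (by
      rintro ⟨p, x⟩ _
      by_cases hx : PosTop vol (σ p) x
      · obtain ⟨ε, hε, he⟩ := PosTop.fam hd hvol hσf hηf hx
        exact ⟨ε, hε, he.mono fun y hy t h0 h1 => hy t (by rw [abs_of_pos h0]; exact h1)⟩
      · exact LinPos.topFam hd hvol hσf hηf hnn (hpos p x hx))
  exact ⟨t₀, ht₀, fun p x t h0 h1 => ht (p, x) (mem_univ _) t h0 h1⟩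

/-- the form `∑ c_i (ζ + ρ_i)` -/
def csum {n : ℕ} (c : Fin n → ℝ) (ζ : Form d X 2) (ρ : Fin n → Form d X 2) : Form d X 2 :=
  ∑ i, c i • (ζ + ρ i)

omit [IsManifold (𝓡 d) ∞ X] in
theorem csum_apply {n : ℕ} (c : Fin n → ℝ) (ζ : Form d X 2) (ρ : Fin n → Form d X 2) (x : X) :
    csum c ζ ρ x = ∑ i, c i • (ζ x + ρ i x) := by
  unfold csum
  rw [Finset.sum_apply]
  rfl

theorem csum_closed {n : ℕ} (c : Fin n → ℝ) {ζ : Form d X 2} (hζ : IsSmooth ζ)
    (hζc : IsClosedForm ζ) {β : Fin n → Form d X 1} {ρ : Fin n → Form d X 2}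
    (h : ∀ i, IsSmooth (β i) ∧ IsSmooth (ρ i) ∧ IsD (β i) (ρ i)) :
    IsSmooth (csum c ζ ρ) ∧ IsClosedForm (csum c ζ ρ) := by
  classical
  have hs : ∀ s : Finset (Fin n), IsSmooth (∑ i ∈ s, c i • (ζ + ρ i)) ∧
      IsClosedForm (∑ i ∈ s, c i • (ζ + ρ i)) := by
    intro s
    induction s using Finset.induction_on with
    | empty =>
      rw [Finset.sum_empty]
      exact ⟨IsSmooth.zero, IsD.zero⟩
    | insert a s ha ih =>
      rw [Finset.sum_insert ha]
      have h4 : IsClosedForm (ζ + ρ a) := by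
        have h3 := hζc.add (prod_closed (h a).1 (h a).2.1 (h a).2.2) hζ (h a).2.1
        rwa [add_zero] at h3
      have h5 := (h4.smul (c a)).add ih.2 ((hζ.add (h a).2.1).smul (c a)) ih.1
      refine ⟨((hζ.add (h a).2.1).smul (c a)).add ih.1, ?_⟩
      have h6 : c a • (0 : Form d X 3) + (0 : Form d X 3) = 0 := by rw [smul_zero, add_zero]
      rw [h6] at h5
      exact h5
  exact hs Finset.univ

theorem csum_fam {n : ℕ} {c : Fin n → P → ℝ} (hc : ∀ i, Continuous (c i)) {ζ : P → Form d X 2}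
    (hζ : ContFam ζ) {ρ : Fin n → Form d X 2} (hρ : ∀ i, IsSmooth (ρ i)) :
    ContFam (fun p => csum (fun i => c i p) (ζ p) ρ) := by
  refine ContFam.sum Finset.univ (σ := fun i p => c i p • (ζ p + ρ i)) fun i => ?_
  exact ContFam.smul (hζ.add (IsSmooth.contFam (P := P) (hρ i))) (hc i)

/-- **the compression** -/
theorem famZ [CompactSpace X] [T2Space X] [CompactSpace P] [T2Space P]
    (hd : d = 2 * (m + 1)) {vol : Top d m X}
    (hvol : IsVol vol) {σ ζ : P → Form d X 2} (hσf : ContFam σ) (hζf : ContFam ζ)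
    (hnn : ∀ p x, NonnegTop vol (σ p) x)
    (hloc : ∀ p, (∃ x, ¬ PosTop vol (σ p) x) → ∃ (β : Form d X 1) (ρ : Form d X 2),
      IsSmooth β ∧ IsSmooth ρ ∧ IsD β ρ ∧
        ∀ x, ¬ PosTop vol (σ p) x → LinPos vol (σ p) (ζ p + ρ) x)
    {Q : Set P} (hQ : IsClosed Q) (hpos : ∀ q ∈ Q, ∀ x, PosTop vol (σ q) x) :
    ∃ (n : ℕ) (β : Fin n → Form d X 1) (ρ : Fin n → Form d X 2) (φ : Fin n → C(P, ℝ)),
      (∀ i, IsSmooth (β i) ∧ IsSmooth (ρ i) ∧ IsD (β i) (ρ i)) ∧
      (∀ i p, 0 ≤ φ i p) ∧ (∀ i, ∀ q ∈ Q, φ i q = 0) ∧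
      (∀ p x, ¬ PosTop vol (σ p) x → LinPos vol (σ p) (csum (fun i => φ i p) (ζ p) ρ) x) ∧
      ∀ t : ℝ, 0 < t → t ≤ 1 → ∀ p x,
        PosTop vol (σ p + t • csum (fun i => φ i p) (ζ p) ρ) x := by
  classical
  -- local exact forms and bump functions
  have hbump : ∀ p₀, (∃ x, ¬ PosTop vol (σ p₀) x) → ∃ (β : Form d X 1) (ρ : Form d X 2)
      (b : C(P, ℝ)), (IsSmooth β ∧ IsSmooth ρ ∧ IsD β ρ) ∧ (∀ p, 0 ≤ b p) ∧
        (∀ q ∈ Q, b q = 0) ∧ 0 < b p₀ ∧
        ∀ p, 0 < b p → ∀ x, ¬ PosTop vol (σ p) x → LinPos vol (σ p) (ζ p + ρ) x := by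
    intro p₀ hp₀
    obtain ⟨β, ρ, h1, h2, h3, h4⟩ := hloc p₀ hp₀
    have hp₀Q : p₀ ∉ Q := by
      intro h
      obtain ⟨x, hx⟩ := hp₀
      exact hx (hpos p₀ h x)
    have hU1 := isCompact_univ.eventually_forall_of_forall_eventually (X := P) (x₀ := p₀)
      (K := (univ : Set X))
      (P := fun p x => ¬ PosTop vol (σ p) x → LinPos vol (σ p) (ζ p + ρ) x) (by
        intro x _
        by_cases hx : PosTop vol (σ p₀) x
        · obtain ⟨ε, hε, he⟩ := PosTop.fam hd hvol hσf (ContFam.zero (P := P)) hx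
          filter_upwards [he] with y hy hn
          have := hy 0 (by rw [abs_zero]; exact hε.le)
          exact absurd (by simpa using this) hn
        · have := LinPos.fam (P := P) hd hvol hσf (hζf.add (IsSmooth.contFam (P := P) h2))
            (p₀ := p₀) (x := x) (h4 x hx)
          filter_upwards [this] with y hy _
          exact hy)
    have hU : {p | p ∉ Q ∧ ∀ x, ¬ PosTop vol (σ p) x → LinPos vol (σ p) (ζ p + ρ) x} ∈ 𝓝 p₀ := by
      filter_upwards [hU1, hQ.isOpen_compl.mem_nhds hp₀Q] with p hp hpQ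
      exact ⟨hpQ, fun x => hp x (mem_univ x)⟩
    obtain ⟨b, hb0, hb1, hb⟩ := exists_continuous_zero_one_of_isClosed
      (s := (interior {p | p ∉ Q ∧ ∀ x, ¬ PosTop vol (σ p) x →
        LinPos vol (σ p) (ζ p + ρ) x})ᶜ)
      (t := {p₀}) isOpen_interior.isClosed_compl isClosed_singleton (by
        rw [disjoint_singleton_right]
        intro h
        exact h (mem_interior_iff_mem_nhds.2 hU))
    refine ⟨β, ρ, b, ⟨h1, h2, h3⟩, fun p => (hb p).1, fun q hq => ?_, ?_, ?_⟩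
    · exact hb0 (fun h => (interior_subset h).1 hq)
    · rw [hb1 (mem_singleton p₀)]; exact one_pos
    · intro p hp
      by_contra hcon
      have h5 : p ∈ (interior {p | p ∉ Q ∧ ∀ x, ¬ PosTop vol (σ p) x →
          LinPos vol (σ p) (ζ p + ρ) x})ᶜ := fun h => hcon (interior_subset h).2
      rw [hb0 h5] at hp
      exact lt_irrefl _ hp
  choose! β ρ b hβρ hb0 hbQ hbp hb using hbump
  have hK : IsCompact {p | ∃ x, ¬ PosTop vol (σ p) x} := by
    have h1 := (isOpen_pos hd hvol hσf).isClosed_compl.isCompact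
    have h2 : {p | ∀ x, PosTop vol (σ p) x}ᶜ = {p | ∃ x, ¬ PosTop vol (σ p) x} := by
      ext p
      simp only [mem_compl_iff, mem_ofPred_eq, not_forall]
    rwa [h2] at h1
  obtain ⟨T, hTK, hT⟩ := hK.elim_nhds_subcover (fun p₀ => {p | 0 < b p₀ p}) (by
    intro p₀ hp₀
    exact (isOpen_lt continuous_const (b p₀).continuous).mem_nhds (hbp p₀ hp₀))
  let e := T.equivFin.symm
  let β' : Fin T.card → Form d X 1 := fun i => β (e i).1
  let ρ' : Fin T.card → Form d X 2 := fun i => ρ (e i).1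
  let b' : Fin T.card → C(P, ℝ) := fun i => b (e i).1
  have hβρ' : ∀ i, IsSmooth (β' i) ∧ IsSmooth (ρ' i) ∧ IsD (β' i) (ρ' i) := fun i =>
    hβρ _ (hTK _ (e i).2)
  have hηf : ContFam (fun p => csum (fun i => b' i p) (ζ p) ρ') :=
    csum_fam (fun i => (b' i).continuous) hζf fun i => (hβρ' i).2.1
  have hηpos : ∀ p x, ¬ PosTop vol (σ p) x →
      LinPos vol (σ p) (csum (fun i => b' i p) (ζ p) ρ') x := by
    intro p x hx
    refine linPos_sum (fun i => b' i p) (fun i => ζ p + ρ' i)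
      (fun i => hb0 _ (hTK _ (e i).2) p)
      (fun i hi => hb _ (hTK _ (e i).2) p hi x hx) ?_
    have hp : p ∈ ⋃ p₀ ∈ T, {p | 0 < b p₀ p} := hT ⟨x, hx⟩
    simp only [mem_iUnion, mem_ofPred_eq] at hp
    obtain ⟨p₀, hp₀, hpp⟩ := hp
    refine ⟨T.equivFin ⟨p₀, hp₀⟩, ?_⟩
    change 0 < b (e (T.equivFin ⟨p₀, hp₀⟩)).1 p
    have : e (T.equivFin ⟨p₀, hp₀⟩) = ⟨p₀, hp₀⟩ := T.equivFin.symm_apply_apply _
    rw [this]
    exact hpp
  obtain ⟨t₀, ht₀, ht⟩ := unifFam hd hvol hσf hηf hnn hηpos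
  have hsc : ∀ p, csum (fun i => (t₀ • b' i) p) (ζ p) ρ' =
      t₀ • csum (fun i => b' i p) (ζ p) ρ' := by
    intro p
    unfold csum
    rw [Finset.smul_sum]
    refine Finset.sum_congr rfl fun i _ => ?_
    rw [smul_smul]
    rfl
  refine ⟨T.card, β', ρ', fun i => t₀ • b' i, hβρ', fun i p => ?_, fun i q hq => ?_, ?_, ?_⟩
  · exact mul_nonneg ht₀.le (hb0 _ (hTK _ (e i).2) p)
  · change t₀ * b' i q = 0
    rw [hbQ _ (hTK _ (e i).2) q hq, mul_zero]
  · intro p x hx e he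
    rw [hsc]
    change 0 < wedge (Fin.cons (t₀ • csum (fun i => b' i p) (ζ p) ρ' x)
      (fun _ : Fin m => σ p x)) e
    rw [wedge_cons_smul]
    exact mul_pos ht₀ (hηpos p x hx e he)
  · intro t h0 h1 p x
    rw [hsc, smul_smul]
    refine ht p x (t * t₀) (mul_pos h0 ht₀) ?_
    calc t * t₀ ≤ 1 * t₀ := by gcongr
      _ = t₀ := one_mul _

/-- two directions of compression are joined -/
theorem famU [CompactSpace X] [CompactSpace P] (hd : d = 2 * (m + 1)) {vol : Top d m X}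
    (hvol : IsVol vol) {σ η₁ η₂ : P → Form d X 2} (hσf : ContFam σ) (h₁ : ContFam η₁)
    (h₂ : ContFam η₂) (hnn : ∀ p x, NonnegTop vol (σ p) x)
    (hp₁ : ∀ p x, ¬ PosTop vol (σ p) x → LinPos vol (σ p) (η₁ p) x)
    (hp₂ : ∀ p x, ¬ PosTop vol (σ p) x → LinPos vol (σ p) (η₂ p) x) :
    ∃ t₀ : ℝ, 0 < t₀ ∧ ∀ t : ℝ, 0 < t → t ≤ t₀ → ∀ s : ℝ, 0 ≤ s → s ≤ 1 → ∀ p x,
      PosTop vol (σ p + t • ((1 - s) • η₁ p + s • η₂ p)) x := by
  have k1 : ContFam (fun q : P × (Icc (0 : ℝ) 1) => σ q.1) := by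
    intro z
    exact (hσf z).comp ((continuous_fst.comp continuous_fst).prodMk continuous_snd).continuousOn
      (fun q hq => ⟨trivial, hq.2⟩)
  have k2 : ContFam (fun q : P × (Icc (0 : ℝ) 1) => η₁ q.1) := by
    intro z
    exact (h₁ z).comp ((continuous_fst.comp continuous_fst).prodMk continuous_snd).continuousOn
      (fun q hq => ⟨trivial, hq.2⟩)
  have k3 : ContFam (fun q : P × (Icc (0 : ℝ) 1) => η₂ q.1) := by
    intro z
    exact (h₂ z).comp ((continuous_fst.comp continuous_fst).prodMk continuous_snd).continuousOn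
      (fun q hq => ⟨trivial, hq.2⟩)
  have hs : Continuous fun q : P × (Icc (0 : ℝ) 1) => (q.2 : ℝ) :=
    continuous_subtype_val.comp continuous_snd
  have k4 := (k2.smul (continuous_const.sub hs : Continuous fun q : P × (Icc (0 : ℝ) 1) =>
    1 - (q.2 : ℝ))).add (k3.smul hs)
  obtain ⟨t₀, ht₀, ht⟩ := unifFam hd hvol k1 k4 (fun q x => hnn q.1 x) (by
    rintro ⟨p, s, hs0, hs1⟩ x hx e he
    change 0 < wedge (Fin.cons ((1 - s) • η₁ p x + s • η₂ p x) (fun _ : Fin m => σ p x)) e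
    rw [wedge_cons_add, wedge_cons_smul, wedge_cons_smul]
    have e1 := hp₁ p x hx e he
    have e2 := hp₂ p x hx e he
    rcases hs0.eq_or_lt with h | h
    · rw [← h]
      simpa using e1
    · have := mul_pos h e2
      have := mul_nonneg (sub_nonneg.2 hs1) e1.le
      linarith)
  exact ⟨t₀, ht₀, fun t h0 h1 s hs0 hs1 p x => ht (p, ⟨s, hs0, hs1⟩) x t h0 h1⟩

end

end Run7.h752.SC
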