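import Mathlib

/-!
# Extreme points of compact sets and finitely many linear functionals (helper752)

For a compact set `M` in a locally convex space and finitely many continuous linear functionals
which have a common zero in `M`, the origin is in the convex hull of the values of the functionals
at the extreme points of `M`.
-/

set_option autoImplicit false

open Set Topology

namespace Run7.h752.SC

/-- weak separation of the origin from a finite dimensional convex hull -/
theorem weak_sep {n : ℕ} {A : Set (Fin n → ℝ)} (hA : A.Nonempty)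
    (h : (0 : Fin n → ℝ) ∉ convexHull ℝ A) :
    ∃ c : Fin n → ℝ, c ≠ 0 ∧ ∀ a ∈ A, 0 ≤ ∑ i, c i * a i := by
  classical
  let S : Set (Fin n → ℝ) := {c | ∑ i, c i ^ 2 = 1}
  have hcont : Continuous fun c : Fin n → ℝ => ∑ i, c i ^ 2 :=
    continuous_finsetSum _ fun i _ => (continuous_apply i).pow 2
  have hS : IsCompact S := by
    refine Metric.isCompact_of_isClosed_isBounded (isClosed_eq hcont continuous_const) ?_
    refine (Metric.isBounded_closedBall (x := (0 : Fin n → ℝ)) (r := 1)).subset fun c hc => ?_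
    rw [mem_closedBall_zero_iff, pi_norm_le_iff_of_nonneg zero_le_one]
    intro i
    have h1 : c i ^ 2 ≤ ∑ j, c j ^ 2 :=
      Finset.single_le_sum (f := fun j => c j ^ 2) (fun j _ => sq_nonneg _) (Finset.mem_univ i)
    have h2 : ∑ j, c j ^ 2 = 1 := hc
    rw [h2] at h1
    rw [Real.norm_eq_abs]
    exact abs_le_one_iff_mul_self_le_one.2 (by nlinarith)
  have key : (S ∩ ⋂ a : A, {c : Fin n → ℝ | 0 ≤ ∑ i, c i * (a : Fin n → ℝ) i}).Nonempty := by
    refine hS.inter_iInter_nonempty _ (fun a => ?_) fun u => ?_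
    · exact isClosed_le continuous_const
        (continuous_finsetSum _ fun i _ => (continuous_apply i).mul continuous_const)
    · obtain ⟨a₀, ha₀⟩ := hA
      let F : Set (Fin n → ℝ) := ((insert ⟨a₀, ha₀⟩ u : Finset A) : Set A).image Subtype.val
      have hF : F.Finite := (Finset.finite_toSet _).image _
      have hFA : F ⊆ A := by
        rintro _ ⟨a, -, rfl⟩
        exact a.2
      have h0 : (0 : Fin n → ℝ) ∉ convexHull ℝ F := fun h1 => h (convexHull_mono hFA h1)
      obtain ⟨f, v, hf0, hf⟩ := geometric_hahn_banach_point_closed (convex_convexHull ℝ F)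
        (hF.isCompact_convexHull (𝕜 := ℝ)).isClosed h0
      rw [map_zero] at hf0
      have hpos : ∀ a ∈ F, 0 < f a := fun a ha => hf0.trans (hf a (subset_convexHull ℝ F ha))
      let c : Fin n → ℝ := fun i => f (Pi.single i 1)
      have hfc : ∀ a : Fin n → ℝ, f a = ∑ i, c i * a i := by
        intro a
        have h1 : a = ∑ i, a i • (Pi.single i (1 : ℝ) : Fin n → ℝ) := by
          ext j
          rw [Finset.sum_apply]
          simp [Pi.single_apply]
        conv_lhs => rw [h1]
        rw [map_sum]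
        refine Finset.sum_congr rfl fun i _ => ?_
        rw [map_smul, smul_eq_mul, mul_comm]
      have hmem0 : a₀ ∈ F := ⟨⟨a₀, ha₀⟩, by simp, rfl⟩
      have hN : 0 < ∑ i, c i ^ 2 := by
        have h1 : 0 ≤ ∑ i, c i ^ 2 := Finset.sum_nonneg fun i _ => sq_nonneg _
        refine lt_of_le_of_ne h1 fun h2 => ?_
        have h3 : ∀ i, c i = 0 := by
          intro i
          have := (Finset.sum_eq_zero_iff_of_nonneg (fun i _ => sq_nonneg (c i))).1 h2.symm i
            (Finset.mem_univ i)
          exact pow_eq_zero_iff (two_ne_zero) |>.1 this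
        have h4 := hpos a₀ hmem0
        rw [hfc] at h4
        simp [h3] at h4
      set N := ∑ i, c i ^ 2 with hNdef
      refine ⟨fun i => c i / Real.sqrt N, ?_, ?_⟩
      · change ∑ i, (c i / Real.sqrt N) ^ 2 = 1
        have h1 : ∀ i, (c i / Real.sqrt N) ^ 2 = c i ^ 2 / N := by
          intro i
          rw [div_pow, Real.sq_sqrt hN.le]
        rw [Finset.sum_congr rfl fun i _ => h1 i, ← Finset.sum_div, ← hNdef, div_self hN.ne']
      · rw [mem_iInter₂]
        intro a ha
        change 0 ≤ ∑ i, c i / Real.sqrt N * (a : Fin n → ℝ) i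
        have h1 : ∑ i, c i / Real.sqrt N * (a : Fin n → ℝ) i =
            (∑ i, c i * (a : Fin n → ℝ) i) / Real.sqrt N := by
          rw [Finset.sum_div]
          refine Finset.sum_congr rfl fun i _ => ?_
          ring
        rw [h1, ← hfc]
        exact div_nonneg (hpos _ ⟨a, by simp [ha], rfl⟩).le (Real.sqrt_nonneg _)
  obtain ⟨c, hc, hc2⟩ := key
  refine ⟨c, ?_, fun a ha => ?_⟩
  · rintro rfl
    have h1 : ∑ i : Fin n, (0 : Fin n → ℝ) i ^ 2 = 1 := hc
    simp at h1
  · rw [mem_iInter] at hc2
    exact hc2 ⟨a, ha⟩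

section

variable {E : Type} [AddCommGroup E] [Module ℝ E] [TopologicalSpace E] [T2Space E]
  [IsTopologicalAddGroup E] [ContinuousSMul ℝ E] [LocallyConvexSpace ℝ E]

/-- the face of a compact set on which a functional is minimal -/
theorem face {M : Set E} (hM : IsCompact M) (hne : M.Nonempty) (f : E →L[ℝ] ℝ) :
    ∃ x₀ ∈ M, (∀ x ∈ M, f x₀ ≤ f x) ∧ IsCompact {x ∈ M | f x = f x₀} ∧
      ({x ∈ M | f x = f x₀}).extremePoints ℝ ⊆ M.extremePoints ℝ := by
  obtain ⟨x₀, hx₀, hmin⟩ := hM.exists_isMinOn hne f.continuous.continuousOn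
  refine ⟨x₀, hx₀, fun x hx => hmin hx, ?_, ?_⟩
  · exact hM.inter_right (isClosed_eq f.continuous continuous_const)
  · have hE : IsExtreme ℝ M {x ∈ M | f x = f x₀} := by
      refine ⟨fun x hx => hx.1, ?_⟩
      rintro a ha b hb x ⟨hx, hfx⟩ ⟨s, t, hs, ht, hst, rfl⟩
      have h1 := hmin ha
      have h2 := hmin hb
      simp only [mem_setOf_eq] at h1 h2
      rw [map_add, map_smul, map_smul, smul_eq_mul, smul_eq_mul] at hfx
      have h3 : f a = f x₀ := by
        by_contra hne
        have h4 : f x₀ < f a := lt_of_le_of_ne h1 (Ne.symm hne)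
        have h5 : f x₀ < s * f a + t * f b := by
          calc f x₀ = s * f x₀ + t * f x₀ := by rw [← add_mul, hst, one_mul]
            _ < s * f a + t * f b := add_lt_add_of_lt_of_le (mul_lt_mul_of_pos_left h4 hs)
              (mul_le_mul_of_nonneg_left h2 ht.le)
        exact absurd hfx h5.ne'
      exact ⟨ha, h3⟩
    exact hE.extremePoints_subset_extremePoints

/-- a functional attains its minimum at an extreme point -/
theorem exists_min_extreme {M : Set E} (hM : IsCompact M) (hne : M.Nonempty) (f : E →L[ℝ] ℝ) :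
    ∃ e ∈ M.extremePoints ℝ, ∀ x ∈ M, f e ≤ f x := by
  obtain ⟨x₀, hx₀, h1, h2, h3⟩ := face hM hne f
  obtain ⟨e, he⟩ := h2.extremePoints_nonempty ⟨x₀, hx₀, rfl⟩
  refine ⟨e, h3 he, fun x hx => ?_⟩
  have h4 : f e = f x₀ := he.1.2
  rw [h4]
  exact h1 x hx

/-- a common zero of finitely many functionals is a convex combination of their values at extreme
points -/
theorem conv_ext (n : ℕ) : ∀ {M : Set E} (_ : IsCompact M) (z : Fin n → E →L[ℝ] ℝ)
    (_ : ∃ x ∈ M, ∀ i, z i x = 0),
    (0 : Fin n → ℝ) ∈ convexHull ℝ ((fun (x : E) (i : Fin n) => z i x) '' M.extremePoints ℝ) := by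
  induction n with
  | zero =>
    rintro M hM z ⟨x, hx, -⟩
    obtain ⟨e, he⟩ := hM.extremePoints_nonempty ⟨x, hx⟩
    refine subset_convexHull ℝ _ ⟨e, he, ?_⟩
    exact Subsingleton.elim _ _
  | succ n ih =>
    rintro M hM z ⟨x, hx, hz⟩
    by_contra hcon
    obtain ⟨e, he⟩ := hM.extremePoints_nonempty ⟨x, hx⟩
    obtain ⟨c, hc, hpos⟩ := weak_sep (Set.Nonempty.image _ ⟨e, he⟩) hcon
    let f : E →L[ℝ] ℝ := ∑ i, c i • z i
    have hf : ∀ y, f y = ∑ i, c i * z i y := by
      intro y
      change (∑ i, c i • z i : E →L[ℝ] ℝ) y = _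
      rw [ContinuousLinearMap.sum_apply]
      rfl
    obtain ⟨x₀, hx₀, h1, h2, h3⟩ := face hM ⟨x, hx⟩ f
    obtain ⟨e', he'⟩ := h2.extremePoints_nonempty ⟨x₀, hx₀, rfl⟩
    have h4 : f x₀ = 0 := by
      refine le_antisymm ?_ ?_
      · have := h1 x hx
        rw [hf x] at this
        simpa [hz] using this
      · have h5 : f e' = f x₀ := he'.1.2
        rw [← h5, hf]
        exact hpos _ ⟨e', h3 he', rfl⟩
    obtain ⟨j, hj⟩ := Function.ne_iff.1 hc
    simp only [Pi.zero_apply] at hj
    have h5 := ih h2 (fun i => z (j.succAbove i)) ⟨x, ⟨hx, by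
      rw [h4, hf]
      simp [hz]⟩, fun i => hz _⟩
    -- the missing coordinate
    let L : (Fin n → ℝ) →ₗ[ℝ] (Fin (n + 1) → ℝ) :=
      { toFun := fun a => j.insertNth (-(∑ i, c (j.succAbove i) * a i) / c j) a
        map_add' := by
          intro a b
          ext k
          refine Fin.succAboveCases j ?_ (fun k => ?_) k
          · simp only [Fin.insertNth_apply_same, Pi.add_apply]
            rw [← add_div, ← neg_add, ← Finset.sum_add_distrib]
            simp only [mul_add]
          · simp only [Fin.insertNth_apply_succAbove, Pi.add_apply]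
        map_smul' := by
          intro r a
          ext k
          refine Fin.succAboveCases j ?_ (fun k => ?_) k
          · simp only [Fin.insertNth_apply_same, Pi.smul_apply, smul_eq_mul, RingHom.id_apply]
            rw [← mul_div_assoc, mul_neg, Finset.mul_sum]
            congr 2
            exact Finset.sum_congr rfl fun i _ => by ring
          · simp only [Fin.insertNth_apply_succAbove, Pi.smul_apply, RingHom.id_apply] }
    have hL : ∀ y ∈ {y ∈ M | f y = f x₀}, L (fun i => z (j.succAbove i) y) = fun i => z i y := by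
      rintro y ⟨-, hy⟩
      ext k
      refine Fin.succAboveCases j ?_ (fun k => ?_) k
      · change (j.insertNth (-(∑ i, c (j.succAbove i) * z (j.succAbove i) y) / c j)
          (fun i => z (j.succAbove i) y) : Fin (n + 1) → ℝ) j = z j y
        rw [Fin.insertNth_apply_same]
        rw [h4, hf, Fin.sum_univ_succAbove _ j] at hy
        rw [div_eq_iff hj]
        linarith
      · change (j.insertNth (-(∑ i, c (j.succAbove i) * z (j.succAbove i) y) / c j)
          (fun i => z (j.succAbove i) y) : Fin (n + 1) → ℝ) (j.succAbove k) = z (j.succAbove k) y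
        rw [Fin.insertNth_apply_succAbove]
    have h6 : L 0 ∈ convexHull ℝ (L '' ((fun (x : E) (i : Fin n) => z (j.succAbove i) x) ''
        ({y ∈ M | f y = f x₀}).extremePoints ℝ)) := by
      rw [← L.image_convexHull]
      exact ⟨0, h5, rfl⟩
    rw [map_zero] at h6
    apply hcon
    refine convexHull_mono ?_ h6
    rintro _ ⟨_, ⟨y, hy, rfl⟩, rfl⟩
    exact ⟨y, h3 hy, (hL y hy.1).symm⟩

/-- Caratheodory's form -/
theorem conv_ext_fin {n : ℕ} {M : Set E} (hM : IsCompact M) (z : Fin n → E →L[ℝ] ℝ)
    (h : ∃ x ∈ M, ∀ i, z i x = 0) :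
    ∃ (r : ℕ) (e : Fin r → E) (w : Fin r → ℝ), 0 < r ∧ r ≤ n + 1 ∧
      (∀ k, e k ∈ M.extremePoints ℝ) ∧ (∀ k, 0 < w k) ∧ ∀ i, ∑ k, w k * z i (e k) = 0 := by
  classical
  obtain ⟨ι, _, p, w, h1, h2, h3, h4, h5⟩ :=
    eq_pos_convex_span_of_mem_convexHull (conv_ext n hM z h)
  have hcard : Fintype.card ι ≤ n + 1 := by
    have := h2.card_le_finrank_succ
    refine this.trans ?_
    refine Nat.succ_le_succ ?_
    exact (Submodule.finrank_le _).trans (by simp)
  have hne : Nonempty ι := by
    by_contra hcon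
    rw [not_nonempty_iff] at hcon
    simp at h4
  choose e he using fun k : ι => h1 ⟨k, rfl⟩
  refine ⟨Fintype.card ι, fun k => e ((Fintype.equivFin ι).symm k),
    fun k => w ((Fintype.equivFin ι).symm k), Fintype.card_pos, hcard, fun k => (he _).1,
    fun k => h3 _, fun i => ?_⟩
  rw [(Fintype.equivFin ι).symm.sum_comp (fun k => w k * z i (e k))]
  have h6 := congrFun h5 i
  rw [Finset.sum_apply] at h6
  rw [Pi.zero_apply] at h6
  rw [← h6]
  refine Finset.sum_congr rfl fun k _ => ?_
  have h7 : z i (e k) = p k i := congrFun (he k).2 i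
  rw [h7]
  rfl

end

end Run7.h752.SC
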