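import Pool.Agent.Run7.h752.SC.PubX
import Pool.Agent.R772.PubU

/-!
Symplectic forms near a closed form with nonnegative top power, in a given homotopy class: the
definitions used in the statement.
-/

set_option autoImplicit false

open Set Filter Topology MeasureTheory
open scoped Manifold ContDiff NNReal

noncomputable section

namespace Run7.h752.SYX

open Pool.Agent.Y501.SYP
open Pool.Agent.R772.SYK
open Pool.Agent.R772.SYG
open Pool.Agent.R772.SYF
open Pool.Agent.R772.SYD
open Pool.Agent.R772.SYM
open Pool.Agent.R772.SYU

section

variable {V : Type} [NormedAddCommGroup V] [NormedSpace ℝ V]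
  {X : Type} [TopologicalSpace X] [ChartedSpace V X] {m : ℕ}

/-- The forms `σ + t θ`, `0 < t ≤ c`, are positive symplectic forms with top power at least
`c t vol`, and they are homotopic to `τ` through nondegenerate two-forms. -/
structure SympHomotopicUpTo (vol : TopForm V X m) (σ θ τ : Form V X 2) (c : ℝ) : Prop where
  symp : SymplecticUpTo vol σ θ c
  homotopic : ∀ t : ℝ, 0 < t → t ≤ c → Homotopic τ (comb σ t θ)

/-- `τ` is homotopic through nondegenerate two-forms to a form `τ'` such that `τ' ∧ σ ^ m` is
positive over the set where `σ ^ (m + 1)` vanishes and the segment from `τ'` to `σ` is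
nondegenerate, except for its endpoint `σ` over this set. -/
def NearHomotopic (vol : TopForm V X m) (σ τ : Form V X 2) : Prop :=
  ∃ τ' : Form V X 2, Homotopic τ τ' ∧ Adjacent vol σ τ'

end

end Run7.h752.SYX
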