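import Pool.Agent.Run7.h752.SC.PubZ
import Pool.Agent.Run7.h752.SC.PubV

/-!
Bounded one-forms on amenable coverings, and top powers: the definitions used in the statement.
-/

set_option autoImplicit false

open Set Filter Topology MeasureTheory
open scoped Manifold ContDiff NNReal

noncomputable section

namespace Run7.h752.SYX

open Pool.Agent.Y501.SYP
open Pool.Agent.R772.SYK
open Pool.Agent.R772.SYF
open Pool.Agent.R772.SYD
open Pool.Agent.R772.SYM

section

variable {V : Type} [NormedAddCommGroup V] [NormedSpace ℝ V]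
  {Z X : Type} [TopologicalSpace Z] [ChartedSpace V Z]
  [TopologicalSpace X] [ChartedSpace V X] {m : ℕ}

/-- The forms `(γ^* w) ∧ (pr^* σ) ^ m`, `γ ∈ Γ`, are nonnegative over `C`, and at some point over
`C` they are at least `c pr^* vol` for some `c > 0` which does not depend on `γ`. -/
structure UnifSemiPos (Γ : Type) [Group Γ] [MulAction Γ Z] (pr : Z → X) (vol : TopForm V X m)
    (σ : Form V X 2) (w : Form V Z 2) (C : Set X) : Prop where
  nonneg : ∀ z, pr z ∈ C → ∀ (γ : Γ) (e : Fam V m z), 0 < vol (pr z) (push pr z e) →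
    0 ≤ mixed m (lift pr σ) z (translate γ w z) e
  pos : ∃ z, pr z ∈ C ∧ ∃ c : ℝ, 0 < c ∧ ∀ (γ : Γ) (e : Fam V m z),
    0 < vol (pr z) (push pr z e) →
      c * vol (pr z) (push pr z e) ≤ mixed m (lift pr σ) z (translate γ w z) e

end

end Run7.h752.SYX
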