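import Pool.Agent.Run7.h752.SC.PubX

/-!
Discs tangent to the kernel of a closed two-form with nonnegative top power: the definitions used
in the statement.
-/

set_option autoImplicit false

open Set Filter Topology MeasureTheory
open scoped Manifold ContDiff NNReal

noncomputable section

namespace Run7.h752.SYX

open Pool.Agent.Y501.SYP
open Pool.Agent.R772.SYK
open Pool.Agent.R772.SYF
open Pool.Agent.R772.SYD
open Pool.Agent.R772.SYM

section

variable {V : Type} [NormedAddCommGroup V] [NormedSpace ℝ V]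
  {X : Type} [TopologicalSpace X] [ChartedSpace V X] {m : ℕ}

/-- `C` contains a disc through `z` which is tangent to the kernel of `σ`: there is a smooth map
`g` from the plane to `X` with `g 0 = z` which, on the square `|s| < ε`, `|t| < ε`, is an immersion
into `C`, and whose differential takes its values in the kernel of `σ` there. -/
def TangentDisc (σ : Form V X 2) (C : Set X) (z : X) : Prop :=
  ∃ (g : ℝ × ℝ → X) (ε : ℝ), 0 < ε ∧ ContMDiff 𝓘(ℝ, ℝ × ℝ) 𝓘(ℝ, V) ∞ g ∧ g (0, 0) = z ∧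
    ∀ p : ℝ × ℝ, |p.1| < ε → |p.2| < ε → g p ∈ C ∧
      (∀ v : TangentSpace 𝓘(ℝ, ℝ × ℝ) p, mfderiv 𝓘(ℝ, ℝ × ℝ) 𝓘(ℝ, V) g p v = 0 → v = 0) ∧
      ∀ (v : TangentSpace 𝓘(ℝ, ℝ × ℝ) p) (w : TangentSpace 𝓘(ℝ, V) (g p)),
        σ (g p) ![mfderiv 𝓘(ℝ, ℝ × ℝ) 𝓘(ℝ, V) g p v, w] = 0

variable [IsManifold 𝓘(ℝ, V) ∞ X]

/-- `Y` is a smooth vector field on `X` which, over `C`, is tangent to the kernel of `σ`, and
which vanishes at the points of `C` where `σ ^ m` vanishes. -/
structure KernelField (m : ℕ) (σ : Form V X 2) (C : Set X)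
    (Y : (x : X) → TangentSpace 𝓘(ℝ, V) x) : Prop where
  smooth : ContMDiff 𝓘(ℝ, V) 𝓘(ℝ, V).tangent ∞ (fun x => (⟨x, Y x⟩ : TangentBundle 𝓘(ℝ, V) X))
  ker : ∀ x ∈ C, ∀ w : TangentSpace 𝓘(ℝ, V) x, σ x ![Y x, w] = 0
  zero : ∀ x ∈ C, ¬ PowNe m σ x → Y x = 0

/-- A laminated test set: a test set which contains a disc tangent to the kernel of `σ` through
each of its points where `σ ^ m` does not vanish, and which contains every integral curve, starting
at one of its points, of the vector fields tangent to the kernel of `σ` over it. -/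
structure LamTest [MeasurableSpace V] [BorelSpace V] (vol : TopForm V X m) (σ : Form V X 2)
    (C : Set X) : Prop where
  test : TestSet vol σ C
  disc : ∀ z ∈ C, PowNe m σ z → TangentDisc σ C z
  inv : ∀ Y : (x : X) → TangentSpace 𝓘(ℝ, V) x, KernelField m σ C Y →
    ∀ γ : ℝ → X, IsMIntegralCurve (I := 𝓘(ℝ, V)) γ Y → γ 0 ∈ C → ∀ t, γ t ∈ C

/-- From `z` one can leave the set where `σ ^ (m + 1)` vanishes along an integral curve of a vector
field tangent to the kernel of `σ` over this set. -/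
def Escapes (m : ℕ) (σ : Form V X 2) (z : X) : Prop :=
  ∃ (Y : (x : X) → TangentSpace 𝓘(ℝ, V) x) (γ : ℝ → X), KernelField m σ (Deg m σ) Y ∧
    IsMIntegralCurve (I := 𝓘(ℝ, V)) γ Y ∧ γ 0 = z ∧ ∃ t, γ t ∉ Deg m σ

/-- The closed sets `F k` cover the set `Deg m σ` where `σ ^ (m + 1)` vanishes. For all `k` and all
points `z` of `F k ∩ Deg m σ`, this set is small at `z`, or `σ ^ m` does not vanish at `z` and the
set contains no disc through `z` which is tangent to the kernel of `σ`, or `z` escapes. -/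
structure Removable [MeasurableSpace V] [BorelSpace V] (vol : TopForm V X m) (σ : Form V X 2)
    (F : ℕ → Set X) : Prop where
  closed : ∀ k, IsClosed (F k)
  cover : Deg m σ ⊆ ⋃ k, F k
  free : ∀ k, ∀ z ∈ F k ∩ Deg m σ, SmallAt vol σ (F k ∩ Deg m σ) z ∨
    (PowNe m σ z ∧ ¬ TangentDisc σ (F k ∩ Deg m σ) z) ∨ Escapes m σ z

end

end Run7.h752.SYX
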