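import Pool.Agent.Run7.h752.SC.PubL

/-!
Currents which are integrals of discs tangent to the kernel of a two-form: the definitions used in
the statement.
-/

set_option autoImplicit false

open Set Filter Topology MeasureTheory
open scoped Manifold ContDiff NNReal

noncomputable section

namespace Run7.h752.SYX

open Pool.Agent.Y501.SYP
open Pool.Agent.R772.SYK
open Pool.Agent.R772.SYF
open Pool.Agent.R772.SYD
open Pool.Agent.R772.SYM

section

variable {V : Type} [NormedAddCommGroup V] [NormedSpace ℝ V]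
  {X : Type} [TopologicalSpace X] [ChartedSpace V X] {m : ℕ}

/-- the closed square `|s| ≤ ε`, `|t| ≤ ε` -/
def square (ε : ℝ) : Set (ℝ × ℝ) := Icc (-ε) ε ×ˢ Icc (-ε) ε

/-- Near `z` the current `η ↦ ∫ (η ∧ σ ^ m / vol) dμ` is an integral of the currents of integration
over disjoint discs tangent to the kernel of `σ`: there are a compact set `T` which contains `z`, a
finite measure `κ` carried by `T`, and discs `g y : square ε → X`, `y ∈ T`, which are smooth, depend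
continuously on `y`, and satisfy `g y 0 = y`, such that

* the discs are immersed in the support of `μ` and tangent to the kernel of `σ`;
* they are injective, and disjoint;
* they cover the support of `μ` near `z`;
* the current of `μ` is `η ↦ ∫ (∫ g y ^ * η) dκ(y)` on the smooth two-forms which vanish outside
  some neighbourhood `N` of `z`. -/
def LaminatedAt [MeasurableSpace X] (vol : TopForm V X m) (σ : Form V X 2) (μ : Measure X)
    (z : X) : Prop :=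
  ∃ (g : X → ℝ × ℝ → X) (ε : ℝ) (T : Set X) (κ : Measure X), 0 < ε ∧ IsCompact T ∧ z ∈ T ∧
    IsFiniteMeasure κ ∧ κ Tᶜ = 0 ∧ Continuous (fun q : X × (ℝ × ℝ) => g q.1 q.2) ∧
    (∀ y, ContMDiff 𝓘(ℝ, ℝ × ℝ) 𝓘(ℝ, V) ∞ (g y)) ∧ (∀ y, g y (0, 0) = y) ∧
    (∀ y ∈ T, ∀ p ∈ square ε, g y p ∈ μ.support ∧
      (∀ v : TangentSpace 𝓘(ℝ, ℝ × ℝ) p, mfderiv 𝓘(ℝ, ℝ × ℝ) 𝓘(ℝ, V) (g y) p v = 0 → v = 0) ∧
      ∀ (v : TangentSpace 𝓘(ℝ, ℝ × ℝ) p) (w : TangentSpace 𝓘(ℝ, V) (g y p)),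
        σ (g y p) ![mfderiv 𝓘(ℝ, ℝ × ℝ) 𝓘(ℝ, V) (g y) p v, w] = 0) ∧
    (∀ y ∈ T, ∀ y' ∈ T, ∀ p ∈ square ε, ∀ p' ∈ square ε, g y p = g y' p' → y = y' ∧ p = p') ∧
    (∀ᶠ x in 𝓝 z, x ∈ μ.support → ∃ y ∈ T, ∃ p ∈ square ε, g y p = x) ∧
    ∃ N ∈ 𝓝 z, ∀ η : Form V X 2, IsSmooth η → (∀ x, x ∉ N → η x = 0) →
      ∫ x, density vol σ η x ∂μ = ∫ y, (∫ p in square ε, η (g y p)
        ![mfderiv 𝓘(ℝ, ℝ × ℝ) 𝓘(ℝ, V) (g y) p ((1, 0) : ℝ × ℝ),
          mfderiv 𝓘(ℝ, ℝ × ℝ) 𝓘(ℝ, V) (g y) p ((0, 1) : ℝ × ℝ)]) ∂κ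

end

end Run7.h752.SYX
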