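import Pool.Agent.Run7.h752.SC.PubX
import Pool.Agent.Q186.FL.Defs

/-!
Closed two-forms with values in a flat line bundle and nonnegative top power: the definitions used
in the statement.
-/

set_option autoImplicit false

open Set Filter Topology MeasureTheory
open scoped Manifold ContDiff NNReal

noncomputable section

namespace Run7.h752.SYX

open Pool.Agent.Y501.SYP
open Pool.Agent.R772.SYK
open Pool.Agent.R772.SYF
open Pool.Agent.R772.SYD
open Pool.Agent.R772.SYM
open Pool.Agent.Q186.FLP

section

variable {V : Type} [NormedAddCommGroup V] [NormedSpace ℝ V]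
  {X : Type} [TopologicalSpace X] [ChartedSpace V X] {m : ℕ} {ι : Type}

/-- the top powers of the local forms are nonnegative -/
def TwNonneg (vol : TopForm V X m) (S : TwistedForm V (∅ : Set X) ι) : Prop :=
  ∀ i, ∀ x ∈ S.U i, ∀ e : Fam V m x, 0 < vol x e → 0 ≤ top m (S.σ i) x e

/-- the set where the top powers of the local forms vanish -/
def TwDeg (m : ℕ) (S : TwistedForm V (∅ : Set X) ι) : Set X :=
  {x | ∃ i, x ∈ S.U i ∧ ∀ e : Fam V m x, top m (S.σ i) x e = 0}

/-- The set where the top powers vanish is contained in the union of the closed sets `F k`, and its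
intersection with each of them is small at all its points. -/
structure TwCountablySmall [MeasurableSpace V] [BorelSpace V] (vol : TopForm V X m)
    (S : TwistedForm V (∅ : Set X) ι) (F : ℕ → Set X) : Prop where
  closed : ∀ k, IsClosed (F k)
  cover : TwDeg m S ⊆ ⋃ k, F k
  small : ∀ k, ∀ z ∈ F k ∩ TwDeg m S, ∃ i, z ∈ S.U i ∧
    SmallAt vol (S.σ i) (F k ∩ TwDeg m S) z

/-- The closed form `σ` with nonnegative top power is a global form of the twisted form `S`: it is
equal to `g i • S.σ i` on `S.U i`, with positive locally constant functions `g i`. -/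
structure IsGlobal (vol : TopForm V X m) (S : TwistedForm V (∅ : Set X) ι)
    (g : ι → X → ℝ) (σ : Form V X 2) : Prop where
  pos : ∀ i, ∀ x ∈ S.U i, 0 < g i x
  const : ∀ i, ∀ x ∈ S.U i, ∀ᶠ y in 𝓝 x, g i y = g i x
  eq : ∀ i, ∀ x ∈ S.U i, σ x = g i x • S.σ i x
  closed : IsClosed2 σ
  nonneg : TopNonneg vol σ
  deg : Deg m σ = TwDeg m S

end

end Run7.h752.SYX
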