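import Pool.Agent.Run7.h752.SC.PubL
import Pool.Agent.Run7.h752.SC.PubS

/-!
Discs tangent to the kernel of a closed two-form with values in a flat line bundle: the definitions
used in the statement.
-/

set_option autoImplicit false

open Set Filter Topology MeasureTheory
open scoped Manifold ContDiff NNReal

noncomputable section

namespace Run7.h752.SYX

open Pool.Agent.Y501.SYP
open Pool.Agent.R772.SYK
open Pool.Agent.R772.SYF
open Pool.Agent.R772.SYD
open Pool.Agent.R772.SYM
open Pool.Agent.Q186.FLP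

section

variable {V : Type} [NormedAddCommGroup V] [NormedSpace ℝ V]
  {X : Type} [TopologicalSpace X] [ChartedSpace V X] {m : ℕ} {ι : Type}

/-- `C` contains a disc through `z` which is tangent to the kernels of the local forms of `S`:
there is a smooth map `g` from the plane to `X` with `g 0 = z` which, on the square `|s| < ε`,
`|t| < ε`, is an immersion into `C`, and whose differential takes its values in the kernels of the
local forms there. -/
def TwDisc (S : TwistedForm V (∅ : Set X) ι) (C : Set X) (z : X) : Prop :=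
  ∃ (g : ℝ × ℝ → X) (ε : ℝ), 0 < ε ∧ ContMDiff 𝓘(ℝ, ℝ × ℝ) 𝓘(ℝ, V) ∞ g ∧ g (0, 0) = z ∧
    ∀ p : ℝ × ℝ, |p.1| < ε → |p.2| < ε → g p ∈ C ∧
      (∀ v : TangentSpace 𝓘(ℝ, ℝ × ℝ) p, mfderiv 𝓘(ℝ, ℝ × ℝ) 𝓘(ℝ, V) g p v = 0 → v = 0) ∧
      ∀ i, g p ∈ S.U i → ∀ (v : TangentSpace 𝓘(ℝ, ℝ × ℝ) p) (w : TangentSpace 𝓘(ℝ, V) (g p)),
        S.σ i (g p) ![mfderiv 𝓘(ℝ, ℝ × ℝ) 𝓘(ℝ, V) g p v, w] = 0

variable [IsManifold 𝓘(ℝ, V) ∞ X]

/-- `Y` is a smooth vector field on `X` which, over `C`, is tangent to the kernels of the local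
forms of `S`, and which vanishes at the points of `C` where their `m`-th powers vanish. -/
structure TwKernelField (m : ℕ) (S : TwistedForm V (∅ : Set X) ι) (C : Set X)
    (Y : (x : X) → TangentSpace 𝓘(ℝ, V) x) : Prop where
  smooth : ContMDiff 𝓘(ℝ, V) 𝓘(ℝ, V).tangent ∞ (fun x => (⟨x, Y x⟩ : TangentBundle 𝓘(ℝ, V) X))
  ker : ∀ x ∈ C, ∀ i, x ∈ S.U i → ∀ w : TangentSpace 𝓘(ℝ, V) x, S.σ i x ![Y x, w] = 0
  zero : ∀ x ∈ C, ∀ i, x ∈ S.U i → ¬ PowNe m (S.σ i) x → Y x = 0

/-- From `z` one can leave the set where the top powers vanish along an integral curve of a vector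
field tangent to the kernels of the local forms over this set. -/
def TwEscapes (m : ℕ) (S : TwistedForm V (∅ : Set X) ι) (z : X) : Prop :=
  ∃ (Y : (x : X) → TangentSpace 𝓘(ℝ, V) x) (γ : ℝ → X), TwKernelField m S (TwDeg m S) Y ∧
    IsMIntegralCurve (I := 𝓘(ℝ, V)) γ Y ∧ γ 0 = z ∧ ∃ t, γ t ∉ TwDeg m S

/-- The closed sets `F k` cover the set `TwDeg m S` where the top powers vanish. For all `k` and all
points `z` of `F k ∩ TwDeg m S`, this set is small at `z` (with respect to a local form), or the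
`m`-th power of a local form does not vanish at `z` and the set contains no disc through `z` which
is tangent to the kernels of the local forms, or `z` escapes. -/
structure TwRemovable [MeasurableSpace V] [BorelSpace V] (vol : TopForm V X m)
    (S : TwistedForm V (∅ : Set X) ι) (F : ℕ → Set X) : Prop where
  closed : ∀ k, IsClosed (F k)
  cover : TwDeg m S ⊆ ⋃ k, F k
  free : ∀ k, ∀ z ∈ F k ∩ TwDeg m S,
    (∃ i, z ∈ S.U i ∧ SmallAt vol (S.σ i) (F k ∩ TwDeg m S) z) ∨
    ((∃ i, z ∈ S.U i ∧ PowNe m (S.σ i) z) ∧ ¬ TwDisc S (F k ∩ TwDeg m S) z) ∨ TwEscapes m S z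

end

end Run7.h752.SYX
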