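import Pool.Agent.Run7.h752.SC.PubW
import Pool.Agent.Run7.h752.SC.PubL

/-!
Degenerate closed forms in a class without surfaces tangent to the kernel: the definitions used in
the statement.
-/

set_option autoImplicit false

open Set Filter Topology MeasureTheory Metric
open scoped Manifold ContDiff NNReal

noncomputable section

namespace Run7.h752.SYX

open Pool.Agent.Y501.SYP
open Pool.Agent.R772.SYK
open Pool.Agent.R772.SYF
open Pool.Agent.R772.SYD
open Pool.Agent.R772.SYM

section

variable {V : Type} [NormedAddCommGroup V] [NormedSpace ℝ V]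
  {X : Type} [TopologicalSpace X] [ChartedSpace V X] {m : ℕ}

/-- The closed forms `τ` in the class of `σ₀` with `τ ^ (m + 1)` nonnegative, such that `τ ^ m` does
not vanish on the set where `τ ^ (m + 1)` vanishes, and this set contains no disc tangent to the
kernel of `τ`. -/
def DisclessClass (vol : TopForm V X m) (σ₀ : Form V X 2) : Set (Form V X 2) :=
  {τ | InClass σ₀ τ ∧ TopNonneg vol τ ∧
    ∀ z ∈ Deg m τ, PowNe m τ z ∧ ¬ TangentDisc τ (Deg m τ) z}

/-- the closed forms `τ` in the class of `σ₀` with `τ ^ (m + 1)` nonnegative whose degenerate set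
is removable -/
def RemovableClass [IsManifold 𝓘(ℝ, V) ∞ X] [MeasurableSpace V] [BorelSpace V]
    (vol : TopForm V X m) (σ₀ : Form V X 2) : Set (Form V X 2) :=
  {τ | InClass σ₀ τ ∧ TopNonneg vol τ ∧ ∃ F : ℕ → Set X, Removable vol τ F}

/-- The families in `T`, with values in `S` over a closed set `Q`, are homotopic relative to `Q` to
families in `S`, and all positive times of the homotopy are in `S`; all families are parametrised by
compact Hausdorff spaces and continuous in the `C^∞` topology. -/
def Compressible (S T : Set (Form V X 2)) : Prop :=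
  S ⊆ T ∧ ∀ (P : Type) [TopologicalSpace P] [CompactSpace P] [T2Space P] (Q : Set P)
    (Ω : P → Form V X 2), IsClosed Q → SmoothFam Ω → (∀ p, Ω p ∈ T) → (∀ q ∈ Q, Ω q ∈ S) →
    ∃ H : ℝ × P → Form V X 2, SmoothFam H ∧ (∀ p, H (0, p) = Ω p) ∧
      (∀ t : ℝ, ∀ q ∈ Q, H (t, q) = Ω q) ∧ ∀ t : ℝ, 0 < t → t ≤ 1 → ∀ p, H (t, p) ∈ S

end

end Run7.h752.SYX
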