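import Pool.Agent.Run7.h752.SC.PubL

/-!
Closed surfaces tangent to the kernel of a closed two-form with nonnegative top power: the
definitions used in the statement.
-/

set_option autoImplicit false

open Set Filter Topology MeasureTheory
open scoped Manifold ContDiff NNReal

noncomputable section

namespace Run7.h752.SYX

open Pool.Agent.Y501.SYP
open Pool.Agent.R772.SYK
open Pool.Agent.R772.SYF
open Pool.Agent.R772.SYD
open Pool.Agent.R772.SYM

section

variable {V : Type} [NormedAddCommGroup V] [NormedSpace ℝ V]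
  {X : Type} [TopologicalSpace X] [ChartedSpace V X] {m : ℕ}

/-- `C` has finite area near `z`: in the chart at `z`, the two-dimensional Hausdorff measure of `C`
is finite near `z`. -/
def FiniteArea (V : Type) [NormedAddCommGroup V] [NormedSpace ℝ V] {X : Type} [TopologicalSpace X]
    [ChartedSpace V X] [MeasurableSpace V] [BorelSpace V] (C : Set X) (z : X) : Prop :=
  ∃ N ∈ 𝓝 z, μH[2] (chartAt V z '' (C ∩ N ∩ (chartAt V z).source)) ≠ ⊤

/-- Near `z` the set `C` is a disc which is tangent to the kernel of `σ`: there is a smooth map `g`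
from the plane to `X` with `g 0 = z` which, on the square `|s| < ε`, `|t| < ε`, is an injective
immersion into `C`, and whose differential takes its values in the kernel of `σ` there; and a
neighbourhood of `z` in `C` is contained in the image of this square. -/
def SurfaceAt (σ : Form V X 2) (C : Set X) (z : X) : Prop :=
  ∃ (g : ℝ × ℝ → X) (ε : ℝ), 0 < ε ∧ ContMDiff 𝓘(ℝ, ℝ × ℝ) 𝓘(ℝ, V) ∞ g ∧ g (0, 0) = z ∧
    (∀ p : ℝ × ℝ, |p.1| < ε → |p.2| < ε → g p ∈ C ∧
      (∀ v : TangentSpace 𝓘(ℝ, ℝ × ℝ) p, mfderiv 𝓘(ℝ, ℝ × ℝ) 𝓘(ℝ, V) g p v = 0 → v = 0) ∧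
      ∀ (v : TangentSpace 𝓘(ℝ, ℝ × ℝ) p) (w : TangentSpace 𝓘(ℝ, V) (g p)),
        σ (g p) ![mfderiv 𝓘(ℝ, ℝ × ℝ) 𝓘(ℝ, V) g p v, w] = 0) ∧
    (∀ p q : ℝ × ℝ, |p.1| < ε → |p.2| < ε → |q.1| < ε → |q.2| < ε → g p = g q → p = q) ∧
    ∀ᶠ x in 𝓝 z, x ∈ C → ∃ p : ℝ × ℝ, |p.1| < ε ∧ |p.2| < ε ∧ g p = x

/-- `C` is a compact connected smooth surface, contained in the set where `σ ^ (m + 1)` vanishes and
tangent to the kernel of `σ`. -/
structure KernelSurface (m : ℕ) (σ : Form V X 2) (C : Set X) : Prop where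
  compact : IsCompact C
  connected : IsConnected C
  deg : C ⊆ Deg m σ
  surface : ∀ z ∈ C, SurfaceAt σ C z

end

end Run7.h752.SYX
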