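import Pool.Agent.Run7.h752.SC.PubY

/-!
Paths of symplectic forms: the definitions used in the statement.
-/

set_option autoImplicit false

open Set Filter Topology MeasureTheory
open scoped Manifold ContDiff NNReal

noncomputable section

namespace Run7.h752.SYX

open Pool.Agent.Y501.SYP
open Pool.Agent.R772.SYK
open Pool.Agent.R772.SYG
open Pool.Agent.R772.SYF
open Pool.Agent.R772.SYD
open Pool.Agent.R772.SYM
open Pool.Agent.R772.SYU

section

variable {V : Type} [NormedAddCommGroup V] [NormedSpace ℝ V]
  {X : Type} [TopologicalSpace X] [ChartedSpace V X] {m : ℕ}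

/-- `w` and `w'` are joined by a continuous path of positive symplectic forms. -/
def SympJoined (vol : TopForm V X m) (w w' : Form V X 2) : Prop :=
  ∃ γ : ℝ → Form V X 2, ContFamily γ ∧ γ 0 = w ∧ γ 1 = w' ∧
    ∀ s : ℝ, 0 ≤ s → s ≤ 1 → IsPosSymplectic vol (γ s)

end

end Run7.h752.SYX
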