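import Pool.Agent.Run7.h752.SC.PubX

/-!
Spheres in the space of symplectic forms in a class, and in the larger space of closed forms in
the class with nonnegative top power without closed currents: the definitions used in the statement.
-/

set_option autoImplicit false

open Set Filter Topology MeasureTheory Metric
open scoped Manifold ContDiff NNReal

noncomputable section

namespace Run7.h752.SYX

open Pool.Agent.Y501.SYP
open Pool.Agent.R772.SYK
open Pool.Agent.R772.SYF
open Pool.Agent.R772.SYD
open Pool.Agent.R772.SYM

section

variable {V : Type} [NormedAddCommGroup V] [NormedSpace ℝ V]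
  {X : Type} [TopologicalSpace X] [ChartedSpace V X] {m : ℕ} {P : Type} [TopologicalSpace P]

/-- A family of smooth forms, continuous in the `C^∞` topology: in charts all the derivatives are
jointly continuous in the parameter and the point. -/
structure SmoothFam {k : ℕ} (Ω : P → Form V X k) : Prop where
  smooth : ∀ p, IsSmooth (Ω p)
  cont : ∀ (U : Set V) (φ : V → X), SmoothParam U φ → ∀ j : ℕ,
    ContinuousOn (fun q : P × V => iteratedFDeriv ℝ j (pb φ (Ω q.1)) q.2) (univ ×ˢ U)

/-- `τ` is closed and cohomologous to `σ₀` -/
structure InClass (σ₀ τ : Form V X 2) : Prop where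
  closed : IsClosed2 τ
  coh : ∃ (α : Form V X 1) (ρ : Form V X 2), ExactPair α ρ ∧ τ = addF σ₀ ρ

/-- the positive symplectic forms in the class of `σ₀` -/
def SympClass (vol : TopForm V X m) (σ₀ : Form V X 2) : Set (Form V X 2) :=
  {τ | InClass σ₀ τ ∧ IsPosSymplectic vol τ}

/-- The closed forms `τ` in the class of `σ₀` with `τ ^ (m + 1)` nonnegative, for which there are no
extremal closed currents on the set where `τ ^ (m + 1)` vanishes. -/
def LimitClass [MeasurableSpace X] (vol : TopForm V X m) (σ₀ : Form V X 2) :
    Set (Form V X 2) :=
  {τ | InClass σ₀ τ ∧ TopNonneg vol τ ∧ ∀ μ : Measure X, ¬ Extremal vol τ μ}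

/-- Weak contractibility: every map from the unit sphere of a Euclidean space to `S`, continuous in
the `C^∞` topology, is the restriction of such a map from the unit ball to `S` (for the sphere of
dimension `-1`, which is empty, this says that `S` is not empty). -/
def WeaklyContractible (S : Set (Form V X 2)) : Prop :=
  ∀ (k : ℕ) (f : sphere (0 : EuclideanSpace ℝ (Fin k)) 1 → Form V X 2), SmoothFam f →
    (∀ q, f q ∈ S) → ∃ F : closedBall (0 : EuclideanSpace ℝ (Fin k)) 1 → Form V X 2,
      SmoothFam F ∧ (∀ p, F p ∈ S) ∧ ∀ q : sphere (0 : EuclideanSpace ℝ (Fin k)) 1,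
        F ⟨q.1, sphere_subset_closedBall q.2⟩ = f q

end

end Run7.h752.SYX
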