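import Pool.Agent.R772.PubM

/-!
Extremal closed currents on the degenerate set: the definitions used in the statement.
-/

set_option autoImplicit false

open Set Filter Topology MeasureTheory
open scoped Manifold ContDiff NNReal

noncomputable section

namespace Run7.h752.SYX

open Pool.Agent.Y501.SYP
open Pool.Agent.R772.SYK
open Pool.Agent.R772.SYF
open Pool.Agent.R772.SYD
open Pool.Agent.R772.SYM

section

variable {V : Type} [NormedAddCommGroup V] [NormedSpace ℝ V]
  {X : Type} [TopologicalSpace X] [ChartedSpace V X] {m : ℕ}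

/-- the form `∑ c_i ζ_i` -/
def lin {n : ℕ} (c : Fin n → ℝ) (ζ : Fin n → Form V X 2) : Form V X 2 :=
  fun x => ∑ i, c i • ζ i x

/-- For some one-form `α` and some `c > 0` the forms `σ + t (ζ + dα)`, `0 < t ≤ c`, are positive
symplectic forms with top power at least `c t vol`. -/
def Admissible (vol : TopForm V X m) (σ ζ : Form V X 2) : Prop :=
  ∃ (α : Form V X 1) (ρ : Form V X 2) (c : ℝ), ExactPair α ρ ∧ SymplecticUpTo vol σ (addF ζ ρ) c

/-- `μ` is an extremal closed current: the closed currents `ν ≤ μ` are the multiples of `μ`. -/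
structure Extremal [MeasurableSpace X] (vol : TopForm V X m) (σ : Form V X 2)
    (μ : Measure X) : Prop where
  closed : IsClosedCurrent vol σ μ
  extr : ∀ ν : Measure X, IsClosedCurrent vol σ ν → ν ≤ μ → ∃ c : ℝ≥0, ν = c • μ

/-- `μ 0, …, μ (r - 1)` are extremal closed currents, `0 < r ≤ n + 1`, and the sum of these
currents vanishes on `ζ 0, …, ζ (n - 1)`. -/
structure NullSum [MeasurableSpace X] (vol : TopForm V X m) (σ : Form V X 2) {n : ℕ}
    (ζ : Fin n → Form V X 2) (r : ℕ) (μ : Fin r → Measure X) : Prop where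
  pos : 0 < r
  le : r ≤ n + 1
  extremal : ∀ k, Extremal vol σ (μ k)
  zero : ∀ i, ∑ k, ∫ x, density vol σ (ζ i) x ∂(μ k) = 0

/-- the classes of the closed forms `ζ 0, …, ζ (n - 1)` span the second cohomology -/
structure Spans {n : ℕ} (ζ : Fin n → Form V X 2) : Prop where
  closed : ∀ i, IsClosed2 (ζ i)
  span : ∀ η : Form V X 2, IsClosed2 η → ∃ (c : Fin n → ℝ) (α : Form V X 1) (ρ : Form V X 2),
    ExactPair α ρ ∧ η = addF (lin c ζ) ρ

end

end Run7.h752.SYX
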