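import Pool.Agent.Run7.h752.SC.PubX
import Pool.Agent.R772.PubU

/-!
Compression of families of closed two-forms: the definitions used in the statement.
-/

set_option autoImplicit false

open Set Filter Topology MeasureTheory
open scoped Manifold ContDiff NNReal

noncomputable section

namespace Run7.h752.SYX

open Pool.Agent.Y501.SYP
open Pool.Agent.R772.SYK
open Pool.Agent.R772.SYG
open Pool.Agent.R772.SYF
open Pool.Agent.R772.SYD
open Pool.Agent.R772.SYM

section

variable {d : ℕ} {X : Type} [TopologicalSpace X] [ChartedSpace (ES d) X] {m : ℕ}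
  {P : Type} [TopologicalSpace P]

/-- a continuous family of smooth closed two-forms -/
structure ClosedFam (ζ : P → Form (ES d) X 2) : Prop where
  cont : ContFamily ζ
  closed : ∀ p, IsClosed2 (ζ p)

/-- the form `∑ c_i (ζ + ρ_i)` -/
def mixF {n : ℕ} (c : Fin n → ℝ) (ζ : Form (ES d) X 2) (ρ : Fin n → Form (ES d) X 2) :
    Form (ES d) X 2 := fun x => ∑ i, c i • (ζ x + ρ i x)

/-- The continuous functions `φ_i` on `P` are nonnegative and vanish on `Q`; with
`η p = ∑ φ_i(p) (ζ p + dα_i)` the form `η p ∧ (σ p) ^ m` is positive over the set where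
`(σ p) ^ (m + 1)` vanishes, and the forms `σ p + t η p`, `0 < t ≤ 1`, are positive symplectic
forms, for all `p`. -/
structure CompressionTo (vol : TopForm (ES d) X m) (Q : Set P) (σ ζ : P → Form (ES d) X 2)
    {n : ℕ} (α : Fin n → Form (ES d) X 1) (ρ : Fin n → Form (ES d) X 2)
    (φ : Fin n → P → ℝ) : Prop where
  exact : ∀ i, ExactPair (α i) (ρ i)
  cont : ∀ i, Continuous (φ i)
  nonneg : ∀ i p, 0 ≤ φ i p
  zero : ∀ i, ∀ q ∈ Q, φ i q = 0
  pos : ∀ p, PosOnDeg vol (σ p) (mixF (fun i => φ i p) (ζ p) ρ)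
  symp : ∀ t : ℝ, 0 < t → t ≤ 1 → ∀ p,
    IsPosSymplectic vol (comb (σ p) t (mixF (fun i => φ i p) (ζ p) ρ))

end

end Run7.h752.SYX
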