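import Pool.Agent.Run7.h752.SC.PubX
import Pool.Agent.N763.SY.Pub

/-!
Means of closed two-forms on normal coverings, and top powers: the definitions used in the
statement.
-/

set_option autoImplicit false

open Set Filter Topology MeasureTheory
open scoped Manifold ContDiff NNReal

noncomputable section

namespace Run7.h752.SYX

open Pool.Agent.Y501.SYP
open Pool.Agent.R772.SYK
open Pool.Agent.R772.SYF
open Pool.Agent.R772.SYD
open Pool.Agent.R772.SYM
open Pool.Agent.N763.SYM

section

variable {V : Type} [NormedAddCommGroup V] [NormedSpace ℝ V]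
  {Z X : Type} [TopologicalSpace Z] [ChartedSpace V Z]
  [TopologicalSpace X] [ChartedSpace V X] {P : Type} {m : ℕ}

/-- the images of the tangent vectors `e` under the differential of `pr` -/
def push (pr : Z → X) (z : Z) (e : Fam V m z) : Fam V m (pr z) :=
  fun k => mfderiv 𝓘(ℝ, V) 𝓘(ℝ, V) pr z (e k)

/-- The mean over `p` of the forms `w p ∧ (pr^* σ) ^ m` is nonnegative over `C`, and positive over
some point of `C`. -/
structure MeanSemiPos (mn : (P → ℝ) → ℝ) (pr : Z → X) (vol : TopForm V X m) (σ : Form V X 2)
    (w : P → Form V Z 2) (C : Set X) : Prop where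
  nonneg : ∀ z, pr z ∈ C → ∀ e : Fam V m z, 0 < vol (pr z) (push pr z e) →
    0 ≤ mn (fun p => mixed m (lift pr σ) z (w p z) e)
  pos : ∃ z, pr z ∈ C ∧ ∀ e : Fam V m z, 0 < vol (pr z) (push pr z e) →
    0 < mn (fun p => mixed m (lift pr σ) z (w p z) e)

end

end Run7.h752.SYX
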