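import Pool.Agent.Run7.h752.SC.KM
import Pool.Agent.R772.Dual

/-!
# Measures annihilating a set of continuous functions: extremal ones (helper752)

`X` is a compact metrizable space and `N` a set of continuous functions. The nonzero finite measures
which annihilate `N` form a convex cone with compact base; minima of integrals are attained at
extremal measures, and a common zero of `n` integrals is a sum of at most `n + 1` extremal measures.
-/

set_option autoImplicit false

open Set Topology MeasureTheory Filter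
open scoped NNReal ENNReal

noncomputable section

namespace Run7.h752.SC

variable {X : Type} [TopologicalSpace X] [CompactSpace X] [T2Space X] [MeasurableSpace X]
  [BorelSpace X]

theorem integ {μ : Measure X} [IsFiniteMeasure μ] {g : X → ℝ} (hg : Continuous g) :
    Integrable g μ := by
  have h := hg.continuousOn.integrableOn_compact (μ := μ) (K := (univ : Set X)) isCompact_univ
  rwa [integrableOn_univ] at h

/-- a nonzero finite measure annihilating `N` -/
structure IsNull (N : Set C(X, ℝ)) (μ : Measure X) : Prop where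
  fin : IsFiniteMeasure μ
  ne : μ ≠ 0
  null : ∀ f ∈ N, ∫ x, f x ∂μ = 0

/-- the measures `≤ μ` annihilating `N` are multiples of `μ` -/
structure IsXt (N : Set C(X, ℝ)) (μ : Measure X) : Prop where
  nul : IsNull N μ
  ext : ∀ ν : Measure X, IsNull N ν → ν ≤ μ → ∃ c : ℝ≥0, ν = c • μ

/-- normalised positive functionals annihilating `N` -/
def Mst (N : Set C(X, ℝ)) : Set (WeakDual ℝ C(X, ℝ)) :=
  {Λ | (∀ f : C(X, ℝ), (∀ x, 0 ≤ f x) → 0 ≤ Λ f) ∧ Λ 1 = 1 ∧ ∀ f ∈ N, Λ f = 0}

instance lcs : LocallyConvexSpace ℝ (WeakDual ℝ C(X, ℝ)) :=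
  (WeakDual.withSeminorms ℝ C(X, ℝ)).toLocallyConvexSpace

/-- evaluation as a continuous functional -/
def evl (z : C(X, ℝ)) : WeakDual ℝ C(X, ℝ) →L[ℝ] ℝ where
  toFun Λ := Λ z
  map_add' _ _ := rfl
  map_smul' _ _ := rfl
  cont := WeakDual.eval_continuous z

omit [MeasurableSpace X] [BorelSpace X] [T2Space X] in
theorem evl_apply (z : C(X, ℝ)) (Λ : WeakDual ℝ C(X, ℝ)) : evl z Λ = Λ z := rfl

omit [MeasurableSpace X] [BorelSpace X] [T2Space X] in
theorem pos_le {Λ : WeakDual ℝ C(X, ℝ)} (h : ∀ f : C(X, ℝ), (∀ x, 0 ≤ f x) → 0 ≤ Λ f)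
    (f : C(X, ℝ)) {c : ℝ} (hc : ∀ x, |f x| ≤ c) : |Λ f| ≤ c * Λ 1 := by
  rw [abs_le]
  constructor
  · have h1 := h (c • 1 + f) (fun x => by
      change 0 ≤ c * 1 + f x
      have := (abs_le.1 (hc x)).1
      linarith)
    rw [map_add, map_smul, smul_eq_mul] at h1
    linarith
  · have h1 := h (c • 1 - f) (fun x => by
      change 0 ≤ c * 1 - f x
      have := (abs_le.1 (hc x)).2
      linarith)
    rw [map_sub, map_smul, smul_eq_mul] at h1
    linarith

omit [MeasurableSpace X] [BorelSpace X] [T2Space X] in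
theorem isCompact_Mst (N : Set C(X, ℝ)) : IsCompact (Mst N) := by
  refine (WeakDual.isCompact_closedBall (𝕜 := ℝ) (E := C(X, ℝ)) 0 1).of_isClosed_subset ?_ ?_
  · have h1 : Mst N = (⋂ f : {f : C(X, ℝ) // ∀ x, 0 ≤ f x}, {Λ | 0 ≤ evl f.1 Λ}) ∩
        {Λ | evl 1 Λ = 1} ∩ ⋂ f : N, {Λ | evl f.1 Λ = 0} := by
      ext Λ
      simp only [Mst, mem_inter_iff, mem_iInter, Subtype.forall, mem_ofPred_eq, evl_apply]
      tauto
    rw [h1]
    refine IsClosed.inter (IsClosed.inter (isClosed_iInter fun f => ?_) ?_)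
      (isClosed_iInter fun f => ?_)
    · exact isClosed_le continuous_const (evl f.1).continuous
    · exact isClosed_eq (evl 1).continuous continuous_const
    · exact isClosed_eq (evl f.1).continuous continuous_const
  · rintro Λ ⟨h1, h2, -⟩
    rw [mem_preimage, mem_closedBall_zero_iff]
    refine ContinuousLinearMap.opNorm_le_bound _ zero_le_one fun f => ?_
    have h3 := pos_le h1 f (c := ‖f‖) (fun x => f.norm_coe_le_norm x)
    rw [h2, mul_one] at h3
    rw [one_mul]
    exact h3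

/-- the functional of a finite measure -/
def fnl (μ : Measure X) [IsFiniteMeasure μ] : WeakDual ℝ C(X, ℝ) :=
  StrongDual.toWeakDual (LinearMap.mkContinuous
    { toFun := fun f : C(X, ℝ) => ∫ x, f x ∂μ
      map_add' := fun f g => integral_add (integ f.continuous) (integ g.continuous)
      map_smul' := fun c f => integral_const_mul c _ } (μ.real univ) (fun f => by
        change ‖∫ x, f x ∂μ‖ ≤ μ.real univ * ‖f‖
        have h1 := norm_integral_le_of_norm_le_const (μ := μ) (f := fun x => f x) (C := ‖f‖)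
          (Eventually.of_forall fun x => f.norm_coe_le_norm x)
        rw [mul_comm]
        exact h1))

theorem fnl_apply (μ : Measure X) [IsFiniteMeasure μ] (f : C(X, ℝ)) :
    fnl μ f = ∫ x, f x ∂μ := rfl

theorem fnl_pos (μ : Measure X) [IsFiniteMeasure μ] (f : C(X, ℝ)) (hf : ∀ x, 0 ≤ f x) :
    0 ≤ fnl μ f := integral_nonneg hf

theorem fnl_one (μ : Measure X) [IsFiniteMeasure μ] : fnl μ 1 = μ.real univ := by
  rw [fnl_apply]
  change ∫ _, (1 : ℝ) ∂μ = _
  rw [integral_const, smul_eq_mul, mul_one]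

/-- finite measures are determined by their functionals -/
theorem fnl_inj [TopologicalSpace.MetrizableSpace X] {μ ν : Measure X} [IsFiniteMeasure μ]
    [IsFiniteMeasure ν] (h : ∀ f : C(X, ℝ), ∫ x, f x ∂μ = ∫ x, f x ∂ν) : μ = ν := by
  letI := TopologicalSpace.metrizableSpaceMetric X
  exact ext_of_forall_integral_eq_of_IsFiniteMeasure fun f => h f.toContinuousMap

theorem real_pos {μ : Measure X} [IsFiniteMeasure μ] (h : μ ≠ 0) : 0 < μ.real univ :=
  ENNReal.toReal_pos (fun h0 => h (Measure.measure_univ_eq_zero.1 h0)) (measure_ne_top μ _)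

/-- the normalised functional of a measure annihilating `N` -/
theorem mem_Mst {N : Set C(X, ℝ)} {μ : Measure X} [IsFiniteMeasure μ] (hμ : IsNull N μ) :
    (μ.real univ)⁻¹ • fnl μ ∈ Mst N := by
  have h0 := real_pos hμ.ne
  refine ⟨fun f hf => ?_, ?_, fun f hf => ?_⟩
  · exact mul_nonneg (inv_nonneg.2 h0.le) (fnl_pos μ f hf)
  · change (μ.real univ)⁻¹ * fnl μ 1 = 1
    rw [fnl_one, inv_mul_cancel₀ h0.ne']
  · change (μ.real univ)⁻¹ * fnl μ f = 0
    rw [fnl_apply, hμ.null f hf, mul_zero]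

/-- extreme functionals are extremal measures -/
theorem ext_of_extreme [TopologicalSpace.MetrizableSpace X] {N : Set C(X, ℝ)}
    {Λ : WeakDual ℝ C(X, ℝ)} (hΛ : Λ ∈ (Mst N).extremePoints ℝ) :
    ∃ μ : Measure X, IsXt N μ ∧ ∀ f : C(X, ℝ), ∫ x, f x ∂μ = Λ f := by
  obtain ⟨hM, hE⟩ := mem_extremePoints_iff_left.1 hΛ
  obtain ⟨hpos, hone, hnul⟩ := hM
  obtain ⟨μ, hfin, hμ⟩ := Pool.Agent.R772.exists_measure (K := X) (WeakDual.toStrongDual Λ) hpos
  have hμ' : ∀ f : C(X, ℝ), ∫ x, f x ∂μ = Λ f := hμ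
  have huniv : μ.real univ = 1 := by
    rw [← fnl_one, fnl_apply, hμ', hone]
  refine ⟨μ, ⟨⟨hfin, ?_, fun f hf => by rw [hμ', hnul f hf]⟩, ?_⟩, hμ'⟩
  · rintro rfl
    simp at huniv
  · intro ν hν hle
    have := hν.fin
    have ha0 := real_pos hν.ne
    have hmono : ∀ f : C(X, ℝ), (∀ x, 0 ≤ f x) → ∫ x, f x ∂ν ≤ ∫ x, f x ∂μ := fun f hf =>
      integral_mono_measure hle (Eventually.of_forall hf) (integ f.continuous)
    have ha1 : ν.real univ ≤ 1 := by
      rw [← huniv, ← fnl_one, ← fnl_one]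
      exact hmono 1 fun x => zero_le_one
    set a := ν.real univ with ha
    have key : ∀ f : C(X, ℝ), ∫ x, f x ∂ν = a * ∫ x, f x ∂μ := by
      rcases eq_or_lt_of_le ha1 with h1 | h1
      · -- equal masses
        intro f
        rw [h1, one_mul]
        let D : WeakDual ℝ C(X, ℝ) := Λ - fnl ν
        have hD : ∀ g, D g = Λ g - fnl ν g := fun g => rfl
        have hDpos : ∀ g : C(X, ℝ), (∀ x, 0 ≤ g x) → 0 ≤ D g := by
          intro g hg
          rw [hD, fnl_apply, ← hμ', sub_nonneg]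
          exact hmono g hg
        have h2 := pos_le hDpos f (c := ‖f‖) (fun x => f.norm_coe_le_norm x)
        have h3 : D 1 = 0 := by
          rw [hD, hone, fnl_one, ← ha, h1, sub_self]
        rw [h3, mul_zero] at h2
        have h4 := abs_nonpos_iff.1 h2
        rw [hD, fnl_apply, ← hμ', sub_eq_zero] at h4
        exact h4.symm
      · have hb : 0 < 1 - a := by linarith
        let x₁ : WeakDual ℝ C(X, ℝ) := a⁻¹ • fnl ν
        let x₂ : WeakDual ℝ C(X, ℝ) := (1 - a)⁻¹ • (Λ - fnl ν)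
        have hx₁ : x₁ ∈ Mst N := mem_Mst hν
        have hx₂ : x₂ ∈ Mst N := by
          refine ⟨fun f hf => ?_, ?_, fun f hf => ?_⟩
          · change 0 ≤ (1 - a)⁻¹ * (Λ f - fnl ν f)
            refine mul_nonneg (inv_nonneg.2 hb.le) ?_
            rw [fnl_apply, ← hμ', sub_nonneg]
            exact hmono f hf
          · change (1 - a)⁻¹ * (Λ 1 - fnl ν 1) = 1
            rw [hone, fnl_one, ← ha, inv_mul_cancel₀ hb.ne']
          · change (1 - a)⁻¹ * (Λ f - fnl ν f) = 0
            rw [hnul f hf, fnl_apply, hν.null f hf, sub_zero, mul_zero]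
        have hseg : Λ ∈ openSegment ℝ x₁ x₂ := by
          refine ⟨a, 1 - a, ha0, hb, by ring, ?_⟩
          change a • a⁻¹ • fnl ν + (1 - a) • (1 - a)⁻¹ • (Λ - fnl ν) = Λ
          rw [smul_smul, smul_smul, mul_inv_cancel₀ ha0.ne', mul_inv_cancel₀ hb.ne', one_smul,
            one_smul]
          abel
        have h2 := hE x₁ hx₁ x₂ hx₂ hseg
        intro f
        have h3 : x₁ f = Λ f := by rw [h2]
        have h4 : a⁻¹ * ∫ x, f x ∂ν = Λ f := h3
        rw [hμ', ← h4, ← mul_assoc, mul_inv_cancel₀ ha0.ne', one_mul]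
    refine ⟨Real.toNNReal a, fnl_inj fun f => ?_⟩
    rw [key f, integral_smul_nnreal_measure, NNReal.smul_def, Real.coe_toNNReal _ ha0.le,
      smul_eq_mul]

/-- a minimum of an integral is attained at an extremal measure -/
theorem exists_xt [TopologicalSpace.MetrizableSpace X] {N : Set C(X, ℝ)} (z : C(X, ℝ))
    (h : ∃ μ : Measure X, IsNull N μ ∧ ∫ x, z x ∂μ ≤ 0) :
    ∃ μ : Measure X, IsXt N μ ∧ ∫ x, z x ∂μ ≤ 0 := by
  obtain ⟨μ, hμ, hz⟩ := h
  have := hμ.fin
  have h0 := real_pos hμ.ne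
  obtain ⟨Λ, h1, h2⟩ := exists_min_extreme (isCompact_Mst N) ⟨_, mem_Mst hμ⟩ (evl z)
  obtain ⟨ν, h3, h4⟩ := ext_of_extreme h1
  refine ⟨ν, h3, ?_⟩
  rw [h4]
  have h5 := h2 _ (mem_Mst hμ)
  have h6 : evl z ((μ.real univ)⁻¹ • fnl μ) = (μ.real univ)⁻¹ * ∫ x, z x ∂μ := rfl
  rw [h6, evl_apply] at h5
  have h7 : (μ.real univ)⁻¹ * ∫ x, z x ∂μ ≤ 0 :=
    mul_nonpos_of_nonneg_of_nonpos (inv_nonneg.2 h0.le) hz
  linarith

/-- multiples of extremal measures are extremal -/
theorem IsXt.smul {N : Set C(X, ℝ)} {μ : Measure X} (h : IsXt N μ) {c : ℝ≥0} (hc : c ≠ 0) :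
    IsXt N (c • μ) := by
  have := h.nul.fin
  refine ⟨⟨inferInstance, ?_, fun f hf => ?_⟩, fun ν hν hle => ?_⟩
  · intro h0
    apply h.nul.ne
    have h1 : c⁻¹ • (c • μ) = μ := by rw [smul_smul, inv_mul_cancel₀ hc, one_smul]
    rw [← h1, h0, smul_zero]
  · rw [integral_smul_nnreal_measure, h.nul.null f hf, smul_zero]
  · have := hν.fin
    obtain ⟨b, hb⟩ := h.ext (c⁻¹ • ν) ⟨inferInstance, (by
      intro h0
      apply hν.ne
      have h1 : c • (c⁻¹ • ν) = ν := by rw [smul_smul, mul_inv_cancel₀ hc, one_smul]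
      rw [← h1, h0, smul_zero]), fun f hf => by
      rw [integral_smul_nnreal_measure, hν.null f hf, smul_zero]⟩ (by
      have h1 : c⁻¹ • (c • μ) = μ := by rw [smul_smul, inv_mul_cancel₀ hc, one_smul]
      rw [← h1]
      intro s
      rw [Measure.smul_apply, Measure.smul_apply]
      exact smul_le_smul_of_nonneg_left (hle s) zero_le)
    refine ⟨b, ?_⟩
    have h1 : c • (c⁻¹ • ν) = ν := by rw [smul_smul, mul_inv_cancel₀ hc, one_smul]
    rw [← h1, hb, smul_comm]

/-- a common zero of `n` integrals is attained at a sum of at most `n + 1` extremal measures -/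
theorem exists_xt_sum [TopologicalSpace.MetrizableSpace X] {N : Set C(X, ℝ)} {n : ℕ}
    (z : Fin n → C(X, ℝ)) (h : ∃ μ : Measure X, IsNull N μ ∧ ∀ i, ∫ x, z i x ∂μ = 0) :
    ∃ (r : ℕ) (μ : Fin r → Measure X), 0 < r ∧ r ≤ n + 1 ∧ (∀ k, IsXt N (μ k)) ∧
      ∀ i, ∑ k, ∫ x, z i x ∂(μ k) = 0 := by
  obtain ⟨μ, hμ, hz⟩ := h
  have := hμ.fin
  obtain ⟨r, e, w, h1, h2, h3, h4, h5⟩ := conv_ext_fin (isCompact_Mst N) (fun i => evl (z i))
    ⟨_, mem_Mst hμ, fun i => by
      change (μ.real univ)⁻¹ * ∫ x, z i x ∂μ = 0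
      rw [hz i, mul_zero]⟩
  choose ν hν1 hν2 using fun k => ext_of_extreme (h3 k)
  refine ⟨r, fun k => (Real.toNNReal (w k)) • ν k, h1, h2, fun k => (hν1 k).smul ?_, fun i => ?_⟩
  · exact (Real.toNNReal_pos.2 (h4 k)).ne'
  · rw [← h5 i]
    refine Finset.sum_congr rfl fun k _ => ?_
    rw [integral_smul_nnreal_measure, NNReal.smul_def, Real.coe_toNNReal _ (h4 k).le, hν2,
      smul_eq_mul]
    rfl

end Run7.h752.SC
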